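import Mathlib
import Pool.Agent.MP_e633d5_co.Defs

/-! The cycle space over the field with two elements, circuits, the index of a pair of edge sets. -/

namespace Pool.Agent.MP_e633d5_co.H49

open Finset Module
open scoped Classical

abbrev EV (V : Type) := Sym2 V → ZMod 2

variable {V : Type} [Fintype V]

theorem z2_add (a : ZMod 2) : a + a = 0 := by revert a; decide

theorem z2_ne {a : ZMod 2} (h : a ≠ 0) : a = 1 := by revert a; decide

theorem z2_eq {a b : ZMod 2} (h : a + b = 0) : a = b := by revert a b; decide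

theorem pi_add {ι : Type} (f : ι → ZMod 2) : f + f = 0 := funext fun i => z2_add (f i)

/-- Boundary of an edge vector. -/
noncomputable def bd : EV V →ₗ[ZMod 2] (V → ZMod 2) where
  toFun X v := ∑ w, X s(v, w)
  map_add' X Y := by funext v; simp only [Pi.add_apply, sum_add_distrib]
  map_smul' c X := by funext v; simp only [Pi.smul_apply, smul_eq_mul, RingHom.id_apply, mul_sum]

theorem bd_apply (X : EV V) (v : V) : bd X v = ∑ w, X s(v, w) := rfl

/-- Edge vectors vanishing outside `S`. -/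
def Sup (S : Set (Sym2 V)) : Submodule (ZMod 2) (EV V) where
  carrier := {X | ∀ e, e ∉ S → X e = 0}
  add_mem' := fun ha hb e he => by simp [ha e he, hb e he]
  zero_mem' := fun _ _ => rfl
  smul_mem' := fun c X h e he => by simp [h e he]

omit [Fintype V] in
theorem mem_Sup {S : Set (Sym2 V)} {X : EV V} : X ∈ Sup S ↔ ∀ e, e ∉ S → X e = 0 := Iff.rfl

/-- The cycle space. -/
noncomputable def Cy (G : SimpleGraph V) : Submodule (ZMod 2) (EV V) :=
  Sup G.edgeSet ⊓ LinearMap.ker bd

theorem mem_Cy {G : SimpleGraph V} {X : EV V} :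
    X ∈ Cy G ↔ (∀ e, e ∉ G.edgeSet → X e = 0) ∧ bd X = 0 := Iff.rfl

theorem Cy.adj {G : SimpleGraph V} {X : EV V} (h : X ∈ Cy G) {u v : V} (huv : X s(u, v) ≠ 0) :
    G.Adj u v := by
  by_contra hn
  exact huv (h.1 _ hn)

theorem mem_Cy_del {G : SimpleGraph V} {F : Set (Sym2 V)} {X : EV V} :
    X ∈ Cy (G.deleteEdges F) ↔ X ∈ Cy G ∧ ∀ e ∈ F, X e = 0 := by
  simp only [mem_Cy, SimpleGraph.edgeSet_deleteEdges, Set.mem_sdiff, not_and, not_not]
  constructor
  · rintro ⟨h, h2⟩
    exact ⟨⟨fun e he => h e fun h' => absurd h' he, h2⟩, fun e he => h e fun _ => he⟩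
  · rintro ⟨⟨h, h2⟩, h3⟩
    refine ⟨fun e he => ?_, h2⟩
    by_cases h4 : e ∈ G.edgeSet
    · exact h3 e (he h4)
    · exact h e h4

/-- Minimal nonzero elements of the cycle space. -/
def Circ (G : SimpleGraph V) (X : EV V) : Prop :=
  X ∈ Cy G ∧ X ≠ 0 ∧ ∀ Y ∈ Cy G, Y ≠ 0 → (∀ e, Y e ≠ 0 → X e ≠ 0) → Y = X

noncomputable def circ (G : SimpleGraph V) : ℕ := #(univ.filter (Circ G))

noncomputable def dim (G : SimpleGraph V) : ℕ := finrank (ZMod 2) (Cy G)

noncomputable def el (C : Submodule (ZMod 2) (EV V)) : Finset (EV V) := univ.filter (· ∈ C)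

theorem mem_el {C : Submodule (ZMod 2) (EV V)} {X : EV V} : X ∈ el C ↔ X ∈ C := by simp [el]

theorem card_el (C : Submodule (ZMod 2) (EV V)) : #(el C) = 2 ^ finrank (ZMod 2) C := by
  have h := Module.natCard_eq_pow_finrank (K := ZMod 2) (V := C)
  rw [Nat.card_zmod] at h
  rw [← h, el, Nat.card_eq_fintype_card, Fintype.card_subtype]

theorem handshake (X : EV V) (hd : ∀ v, X s(v, v) = 0) (K : Finset V)
    (h : ∀ v ∈ K, ∀ w, w ∉ K → X s(v, w) = 0) : ∑ v ∈ K, bd X v = 0 := by
  have h1 : ∀ v ∈ K, bd X v = ∑ w ∈ K, X s(v, w) := fun v hv => by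
    rw [bd_apply]
    exact (sum_subset (subset_univ K) fun w _ hw => h v hv w hw).symm
  rw [sum_congr rfl h1, ← sum_product']
  refine sum_involution (fun p _ => p.swap) (fun p _ => ?_) (fun p _ hp h => hp ?_)
    (fun p hp => ?_) (fun p _ => rfl)
  · rw [Prod.fst_swap, Prod.snd_swap, Sym2.eq_swap (a := p.2)]
    exact z2_add _
  · have : p.2 = p.1 := congrArg Prod.fst h
    rw [this]
    exact hd _
  · simp only [mem_product] at hp ⊢
    exact ⟨hp.2, hp.1⟩

theorem bd_single {u v : V} (h : u ≠ v) :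
    bd (Pi.single s(u, v) 1 : EV V) = Pi.single u 1 + Pi.single v 1 := by
  funext x
  rw [bd_apply]
  by_cases h1 : x = u
  · subst h1
    rw [sum_eq_single v]
    · simp [h]
    · intro w _ hw
      rw [Pi.single_eq_of_ne]
      simp [hw, h]
    · simp only [mem_univ, not_true_eq_false, Pi.single_eq_same, one_ne_zero, imp_self]
  by_cases h2 : x = v
  · subst h2
    rw [sum_eq_single u]
    · simp [h1, Sym2.eq_swap (a := x)]
    · intro w _ hw
      rw [Pi.single_eq_of_ne]
      simp [hw, h1]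
    · simp only [mem_univ, not_true_eq_false, IsEmpty.forall_iff]
  · rw [sum_eq_zero]
    · simp [h1, h2]
    · intro w _
      rw [Pi.single_eq_of_ne]
      simp [h1, h2]

/-- The edge vector of a walk. -/
noncomputable def vec {H : SimpleGraph V} {a b : V} (p : H.Walk a b) : EV V :=
  (p.edges.map fun e => (Pi.single e 1 : EV V)).sum

omit [Fintype V] in
theorem vec_mem {H : SimpleGraph V} {a b : V} (p : H.Walk a b) {e : Sym2 V} (h : vec p e ≠ 0) :
    e ∈ p.edges := by
  by_contra hn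
  apply h
  unfold vec
  generalize p.edges = l at hn
  induction l with
  | nil => rfl
  | cons f l ih =>
    simp only [List.mem_cons, not_or] at hn
    simp [ih hn.2, hn.1]

theorem bd_vec {H : SimpleGraph V} {a b : V} (p : H.Walk a b) :
    bd (vec p) = Pi.single a 1 + Pi.single b 1 := by
  induction p with
  | nil => simp [vec, pi_add]
  | @cons u v w h p ih =>
    have : vec (SimpleGraph.Walk.cons h p) = Pi.single s(u, v) 1 + vec p := by simp [vec]
    rw [this, map_add, ih, bd_single h.ne, add_assoc, ← add_assoc (Pi.single v 1), pi_add,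
      zero_add]

omit [Fintype V] in
theorem vec_sup {H : SimpleGraph V} {a b : V} (p : H.Walk a b) : vec p ∈ Sup H.edgeSet :=
  fun e he => by
    by_contra h
    exact he (p.edges_subset_edgeSet (vec_mem p h))

/-- The vertices reachable from `y`. -/
noncomputable def cls (H : SimpleGraph V) (y : V) : Finset V := univ.filter (H.Reachable y ·)

theorem mem_cls {H : SimpleGraph V} {y v : V} : v ∈ cls H y ↔ H.Reachable y v := by simp only [cls, mem_filter, mem_univ, true_and]

theorem cls_eq {H : SimpleGraph V} {y z : V} (h : H.Reachable y z) : cls H y = cls H z := by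
  ext v
  simp only [mem_cls]
  exact ⟨fun e => h.symm.trans e, fun e => h.trans e⟩

theorem tjoin (H : SimpleGraph V) (τ : V → ZMod 2) (v0 : V)
    (h : ∀ y, ¬ H.Reachable y v0 → ∑ v ∈ cls H y, τ v = 0)
    (h0 : ∑ v, τ v = 0) : ∃ J ∈ Sup H.edgeSet, bd J = τ := by
  let rt : V → V := fun v => (H.connectedComponentMk v).out
  have hr : ∀ v, H.Reachable v (rt v) := fun v =>
    SimpleGraph.ConnectedComponent.exact (H.connectedComponentMk v).out_eq.symm
  have hr2 : ∀ u v, H.Reachable u v → rt u = rt v := fun u v h => by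
    simp only [rt, SimpleGraph.ConnectedComponent.sound h]
  have h1 : ∀ y, ¬ H.Reachable y v0 → ∑ v ∈ univ.filter (rt · = y), τ v = 0 := by
    intro y hy
    by_cases hy2 : rt y = y
    · rw [← h y hy]
      refine sum_congr (Finset.ext fun v => ?_) fun _ _ => rfl
      simp only [mem_filter, mem_univ, true_and, mem_cls]
      refine ⟨fun e => (e ▸ hr v : H.Reachable v y).symm, fun e => ?_⟩
      rw [← hr2 _ _ e, hy2]
    · refine sum_eq_zero fun v hv => absurd ?_ hy2
      have e := (mem_filter.1 hv).2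
      rw [← hr2 v y (e ▸ hr v), e]
  have h2 : ∀ y, ∑ v ∈ univ.filter (rt · = y), τ v = 0 := by
    intro y
    by_cases hy : H.Reachable y v0
    swap
    · exact h1 y hy
    by_cases hy2 : y = rt v0
    · rw [← sum_fiberwise univ rt, sum_eq_single y] at h0
      · exact h0
      · intro z _ hz
        by_cases hz2 : H.Reachable z v0
        · refine sum_eq_zero fun v hv => absurd ?_ hz
          have e := (mem_filter.1 hv).2
          rw [hy2, ← hr2 _ _ hz2, ← hr2 v z (e ▸ hr v), e]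
        · exact h1 z hz2
      · simp only [mem_univ, not_true_eq_false, IsEmpty.forall_iff]
    · refine sum_eq_zero fun v hv => absurd ?_ hy2
      have e := (mem_filter.1 hv).2
      rw [← hr2 _ _ hy, ← hr2 v y (e ▸ hr v), e]
  refine ⟨∑ v, τ v • vec (hr v).some, Submodule.sum_mem _ fun v _ =>
    Submodule.smul_mem _ _ (vec_sup _), ?_⟩
  funext y
  simp only [map_sum, map_smul, bd_vec, Finset.sum_apply, Pi.smul_apply, Pi.add_apply,
    smul_eq_mul, mul_add, sum_add_distrib, Pi.single_apply, mul_ite, mul_one, mul_zero]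
  rw [sum_ite_eq, if_pos (mem_univ _), ← sum_filter]
  have := h2 y
  simp only [eq_comm (a := y)]
  rw [this, add_zero]

theorem rank_le (C : Submodule (ZMod 2) (EV V)) {ι : Type} [Fintype ι]
    (ψ : EV V →ₗ[ZMod 2] (ι → ZMod 2)) (A : Submodule (ZMod 2) (EV V))
    (h : ∀ X ∈ C, ψ X = 0 → X ∈ A) :
    finrank (ZMod 2) C ≤ finrank (ZMod 2) A + Fintype.card ι := by
  have h1 := LinearMap.finrank_range_add_finrank_ker (ψ.domRestrict C)
  have h2 : finrank (ZMod 2) (LinearMap.range (ψ.domRestrict C)) ≤ Fintype.card ι := by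
    simpa only [finrank_fintype_fun_eq_card] using Submodule.finrank_le (LinearMap.range (ψ.domRestrict C))
  have h3 : finrank (ZMod 2) (LinearMap.ker (ψ.domRestrict C)) ≤ finrank (ZMod 2) A := by
    rw [← Submodule.finrank_map_subtype_eq]
    refine Submodule.finrank_mono ?_
    rintro _ ⟨X, hX, rfl⟩
    exact h X X.2 hX
  omega

/-- Restriction of an edge vector to a set of edges. -/
noncomputable def res (F : Set (Sym2 V)) : EV V →ₗ[ZMod 2] EV V where
  toFun X e := if e ∈ F then X e else 0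
  map_add' X Y := by funext e; by_cases h : e ∈ F <;> simp [h]
  map_smul' c X := by funext e; by_cases h : e ∈ F <;> simp [h]

omit [Fintype V] in
theorem res_apply (F : Set (Sym2 V)) (X : EV V) (e : Sym2 V) :
    res F X e = if e ∈ F then X e else 0 := rfl

theorem index (G : SimpleGraph V) (F1 F2 : Set (Sym2 V)) (hd : Disjoint F1 F2) (v0 : V)
    (Rep : Finset V)
    (h : ∀ a w b w', s(a, w) ∈ F1 → s(b, w') ∈ F2 → (G.deleteEdges (F1 ∪ F2)).Reachable a b →
      (G.deleteEdges (F1 ∪ F2)).Reachable a v0 ∨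
        ∃ y ∈ Rep, (G.deleteEdges (F1 ∪ F2)).Reachable a y) :
    dim G + dim (G.deleteEdges (F1 ∪ F2)) ≤
      dim (G.deleteEdges F1) + dim (G.deleteEdges F2) + #Rep := by
  set H := G.deleteEdges (F1 ∪ F2) with hH
  let ψ : EV V →ₗ[ZMod 2] (Rep → ZMod 2) :=
    { toFun := fun X y => ∑ v ∈ cls H y, bd (res F1 X) v
      map_add' := fun X Y => by funext y; simp [sum_add_distrib]
      map_smul' := fun c X => by funext y; simp [mul_sum] }
  have key := rank_le (Cy G) ψ (Cy (G.deleteEdges F1) ⊔ Cy (G.deleteEdges F2)) fun X hX h0 => by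
    have hdg : ∀ (F : Set (Sym2 V)) v, res F X s(v, v) = 0 := fun F v => by
      rw [res_apply, hX.1 _ (by simp), ite_self]
    obtain ⟨J, hJ, hJ2⟩ := tjoin H (bd (res F1 X)) v0 (fun y hy => by
      by_cases h1 : ∃ a w, H.Reachable y a ∧ s(a, w) ∈ F1
      swap
      · refine sum_eq_zero fun v hv => sum_eq_zero fun w _ => ?_
        rw [res_apply, if_neg fun h2 => h1 ⟨v, w, mem_cls.1 hv, h2⟩]
      obtain ⟨a, w, ha, haw⟩ := h1
      by_cases h2 : ∃ b w', H.Reachable y b ∧ s(b, w') ∈ F2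
      · obtain ⟨b, w', hb, hbw⟩ := h2
        rcases h a w b w' haw hbw (ha.symm.trans hb) with h3 | ⟨z, hz, h3⟩
        · exact absurd (ha.trans h3) hy
        · rw [cls_eq (ha.trans h3)]
          exact congrFun h0 ⟨z, hz⟩
      · have e1 : res F1 X = X + res F1ᶜ X := by
          funext e
          by_cases he : e ∈ F1 <;> simp [res_apply, he, z2_add]
        rw [e1, map_add, hX.2, zero_add]
        refine handshake _ (hdg _) _ fun v hv w hw => ?_
        rw [res_apply]
        split_ifs with h4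
        swap
        · rfl
        by_contra h5
        have hv' := mem_cls.1 hv
        refine hw (mem_cls.2 (hv'.trans (SimpleGraph.Adj.reachable ?_)))
        rw [hH, SimpleGraph.deleteEdges_adj]
        exact ⟨Cy.adj hX h5, fun h6 => h6.elim h4 fun h7 => h2 ⟨v, w, hv', h7⟩⟩)
      (handshake _ (hdg _) univ fun _ _ w hw => absurd (mem_univ w) hw)
    have hJ3 : ∀ e ∈ F1 ∪ F2, J e = 0 := fun e he => hJ e fun h' => by
      rw [hH, SimpleGraph.edgeSet_deleteEdges] at h'
      exact h'.2 he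
    have hY : res F1 X + J ∈ Cy G := by
      refine ⟨fun e he => ?_, ?_⟩
      · rw [Pi.add_apply, res_apply, hX.1 e he, ite_self, zero_add]
        exact hJ e fun h' => he (by rw [hH, SimpleGraph.edgeSet_deleteEdges] at h'; exact h'.1)
      · show bd _ = 0
        rw [map_add, hJ2, pi_add]
    have e2 : X = (X + (res F1 X + J)) + (res F1 X + J) := by rw [add_assoc, pi_add, add_zero]
    rw [e2]
    refine Submodule.add_mem_sup (mem_Cy_del.2 ⟨add_mem hX hY, fun e he => ?_⟩)
      (mem_Cy_del.2 ⟨hY, fun e he => ?_⟩)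
    · simp [res_apply, he, hJ3 e (Or.inl he), z2_add]
    · simp [res_apply, hd.notMem_of_mem_right he, hJ3 e (Or.inr he)]
  have e3 : Cy H = Cy (G.deleteEdges F1) ⊓ Cy (G.deleteEdges F2) := by
    ext X
    simp only [hH, mem_Cy_del, Submodule.mem_inf, Set.mem_union]
    exact ⟨fun h => ⟨⟨h.1, fun e he => h.2 e (Or.inl he)⟩, h.1, fun e he => h.2 e (Or.inr he)⟩,
      fun h => ⟨h.1.1, fun e he => he.elim (h.1.2 e) (h.2.2 e)⟩⟩
  have := Submodule.finrank_sup_add_finrank_inf_eq (Cy (G.deleteEdges F1)) (Cy (G.deleteEdges F2))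
  simp only [Fintype.card_coe] at key
  unfold dim
  rw [e3]
  omega

/-- Indicator vector of a set of edges. -/
noncomputable def ind (F : Set (Sym2 V)) : EV V := fun e => if e ∈ F then 1 else 0

/-- Elements of the cycle space containing `F`. -/
noncomputable def Ev (G : SimpleGraph V) (F : Set (Sym2 V)) : Finset (EV V) :=
  univ.filter fun X => X ∈ Cy G ∧ ∀ e ∈ F, X e = 1

theorem mem_Ev {G : SimpleGraph V} {F : Set (Sym2 V)} {X : EV V} :
    X ∈ Ev G F ↔ X ∈ Cy G ∧ ∀ e ∈ F, X e = 1 := by simp only [Ev, mem_filter, mem_univ, true_and]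

theorem card_Ev {G : SimpleGraph V} {F : Set (Sym2 V)} {z : EV V} (hz : z ∈ Ev G F) :
    #(Ev G F) = 2 ^ dim (G.deleteEdges F) := by
  rw [dim, ← card_el]
  obtain ⟨h1, h2⟩ := mem_Ev.1 hz
  refine card_nbij' (· + z) (· + z) (fun X hX => ?_) (fun X hX => ?_) (fun X _ => ?_)
    (fun X _ => ?_)
  · obtain ⟨h3, h4⟩ := mem_Ev.1 hX
    refine mem_el.2 (mem_Cy_del.2 ⟨add_mem h3 h1, fun e he => ?_⟩)
    simp [h2 e he, h4 e he, z2_add]
  · obtain ⟨h3, h4⟩ := mem_Cy_del.1 (mem_el.1 hX)
    refine mem_Ev.2 ⟨add_mem h3 h1, fun e he => ?_⟩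
    simp [h2 e he, h4 e he]
  · simp [add_assoc, pi_add]
  · simp [add_assoc, pi_add]

theorem ind_mem_Ev {G : SimpleGraph V} {F : Set (Sym2 V)} (h : ind F ∈ Cy G) : ind F ∈ Ev G F :=
  mem_Ev.2 ⟨h, fun e he => by simp [ind, he]⟩

theorem dim_del (G : SimpleGraph V) (F : Set (Sym2 V)) (n : ℕ) (f : ℕ → Sym2 V)
    (h : ∀ e ∈ F, ∃ i < n, f i = e) : dim G ≤ dim (G.deleteEdges F) + n := by
  have := rank_le (Cy G) (LinearMap.funLeft (ZMod 2) (ZMod 2) fun i : Fin n => f i)
    (Cy (G.deleteEdges F)) fun X hX h0 => mem_Cy_del.2 ⟨hX, fun e he => by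
      obtain ⟨i, hi, rfl⟩ := h e he
      exact congrFun h0 ⟨i, hi⟩⟩
  simpa only [dim, ge_iff_le, Fintype.card_fin] using this

/-- Correlation ratio of two events. -/
noncomputable def rat (G : SimpleGraph V) (F1 F2 : Set (Sym2 V)) : ℝ :=
  #(Ev G F1 ∩ Ev G F2) * 2 ^ dim G / (2 ^ dim (G.deleteEdges F1) * 2 ^ dim (G.deleteEdges F2))

theorem rat_le {G : SimpleGraph V} {F1 F2 : Set (Sym2 V)} (h1 : ind F1 ∈ Cy G) {n : ℕ}
    (h : dim G ≤ dim (G.deleteEdges F2) + n) : rat G F1 F2 ≤ 2 ^ n := by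
  rw [rat, div_le_iff₀ (by positivity)]
  have h2 : (#(Ev G F1 ∩ Ev G F2) : ℝ) ≤ 2 ^ dim (G.deleteEdges F1) := by
    exact_mod_cast card_Ev (ind_mem_Ev h1) ▸ card_le_card inter_subset_left
  have h3 : (2 : ℝ) ^ dim G ≤ 2 ^ (dim (G.deleteEdges F2) + n) :=
    pow_le_pow_right₀ (by norm_num) h
  calc _ ≤ (2 : ℝ) ^ dim (G.deleteEdges F1) * 2 ^ (dim (G.deleteEdges F2) + n) := by gcongr
    _ = _ := by ring

theorem rat_le' {G : SimpleGraph V} {F1 F2 : Set (Sym2 V)} (h1 : ind F1 ∈ Cy G)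
    (h2 : ind F2 ∈ Cy G) (hd : Disjoint F1 F2) {n : ℕ}
    (h : dim G + dim (G.deleteEdges (F1 ∪ F2)) ≤
      dim (G.deleteEdges F1) + dim (G.deleteEdges F2) + n) : rat G F1 F2 ≤ 2 ^ n := by
  rw [rat, div_le_iff₀ (by positivity)]
  have e : Ev G F1 ∩ Ev G F2 = Ev G (F1 ∪ F2) := by
    ext X
    simp only [mem_inter, mem_Ev, Set.mem_union]
    exact ⟨fun h => ⟨h.1.1, fun e he => he.elim (h.1.2 e) (h.2.2 e)⟩,
      fun h => ⟨⟨h.1, fun e he => h.2 e (Or.inl he)⟩, h.1, fun e he => h.2 e (Or.inr he)⟩⟩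
  have hz : ind F1 + ind F2 ∈ Ev G (F1 ∪ F2) := mem_Ev.2 ⟨add_mem h1 h2, fun e he => by
    rcases he with he | he
    · simp [ind, he, hd.notMem_of_mem_left he]
    · simp [ind, he, hd.notMem_of_mem_right he]⟩
  rw [e, card_Ev hz]
  push_cast
  rw [← pow_add, ← pow_add, ← pow_add]
  exact pow_le_pow_right₀ (by norm_num) (by omega)

theorem rat_zero {G : SimpleGraph V} {F1 F2 : Set (Sym2 V)}
    (h : ∀ X ∈ Ev G F1, X ∉ Ev G F2) : rat G F1 F2 = 0 := by
  have : Ev G F1 ∩ Ev G F2 = ∅ :=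
    eq_empty_of_forall_notMem fun X hX => h X (mem_inter.1 hX).1 (mem_inter.1 hX).2
  simp [rat, this]

theorem second_moment (G : SimpleGraph V) {ι : Type} (I : Finset ι) (F : ι → Set (Sym2 V))
    (w : ι → ℝ) (M Q : ℝ) (hM0 : 1 ≤ M) (hw : ∀ i ∈ I, 0 ≤ w i) (hF : ∀ i ∈ I, ind (F i) ∈ Cy G)
    (hne : ∀ i ∈ I, (F i).Nonempty) (hM : ∀ i ∈ I, M ≤ 2 ^ dim (G.deleteEdges (F i)))
    (hQ : ∑ i ∈ I, ∑ j ∈ I, w i * w j * rat G (F i) (F j) ≤ Q) :
    ((∑ i ∈ I, w i) * (1 - 1 / M)) ^ 2 * 2 ^ dim G ≤ Q * (2 ^ dim G - circ G) := by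
  let c : ι → ℝ := fun i => w i / 2 ^ dim (G.deleteEdges (F i))
  have hc : ∀ i ∈ I, 0 ≤ c i := fun i hi => div_nonneg (hw i hi) (by positivity)
  let N : EV V → ℝ := fun X => ∑ i ∈ I, if X ∈ (Ev G (F i)).erase (ind (F i)) then c i else 0
  let Gd : Finset (EV V) := (el (Cy G)).filter fun X => ¬ Circ G X
  have hG : (#Gd : ℝ) = 2 ^ dim G - circ G := by
    have := card_filter_add_card_filter_not (s := el (Cy G)) (Circ G)
    rw [card_el] at this
    have e : (el (Cy G)).filter (Circ G) = univ.filter (Circ G) := by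
      ext X
      simp only [mem_filter, mem_el, mem_univ, true_and]
      exact ⟨fun h => h.2, fun h => ⟨h.1, h⟩⟩
    rw [e] at this
    rw [eq_sub_iff_add_eq, add_comm]
    exact_mod_cast this
  have hsub : ∀ i ∈ I, (Ev G (F i)).erase (ind (F i)) ⊆ Gd := fun i hi X hX => by
    obtain ⟨h1, h2⟩ := mem_erase.1 hX
    obtain ⟨h3, h4⟩ := mem_Ev.1 h2
    refine mem_filter.2 ⟨mem_el.2 h3, fun h => h1 (h.2.2 _ (hF i hi) ?_ fun e he => ?_).symm⟩
    · obtain ⟨e, he⟩ := hne i hi
      intro h0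
      simpa only [ind, he, ↓ reduceIte, Pi.zero_apply, one_ne_zero] using congrFun h0 e
    · rw [h4 e (by by_contra h5; simp [ind, h5] at he)]
      exact one_ne_zero
  have h1 : (∑ i ∈ I, w i) * (1 - 1 / M) ≤ ∑ X ∈ Gd, N X := by
    rw [sum_comm, sum_mul]
    refine sum_le_sum fun i hi => ?_
    rw [← sum_filter, filter_mem_eq_inter, inter_eq_right.2 (hsub i hi), sum_const,
      card_erase_of_mem (ind_mem_Ev (hF i hi)), card_Ev (ind_mem_Ev (hF i hi)), nsmul_eq_mul,
      Nat.cast_sub Nat.one_le_two_pow]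
    push_cast
    have h3 := hM i hi
    have h4 : 1 / (2 : ℝ) ^ dim (G.deleteEdges (F i)) ≤ 1 / M :=
      one_div_le_one_div_of_le (by linarith) h3
    calc _ ≤ w i * (1 - 1 / (2 : ℝ) ^ dim (G.deleteEdges (F i))) :=
          mul_le_mul_of_nonneg_left (by linarith only [h4]) (hw i hi)
      _ = _ := by simp only [c]; field_simp
  have h2 : (∑ X ∈ Gd, N X ^ 2) * 2 ^ dim G ≤ Q := by
    refine le_trans ?_ hQ
    simp only [N, sq, sum_mul_sum]
    rw [sum_comm, sum_mul]
    refine sum_le_sum fun i hi => ?_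
    rw [sum_comm, sum_mul]
    refine sum_le_sum fun j hj => ?_
    have h3 : ∑ X ∈ Gd, (if X ∈ (Ev G (F i)).erase (ind (F i)) then c i else 0) *
        (if X ∈ (Ev G (F j)).erase (ind (F j)) then c j else 0) ≤
        #(Ev G (F i) ∩ Ev G (F j)) * (c i * c j) := by
      rw [← nsmul_eq_mul, ← sum_const]
      calc _ ≤ ∑ X ∈ Gd, if X ∈ Ev G (F i) ∩ Ev G (F j) then c i * c j else 0 := by
            refine sum_le_sum fun X _ => ?_
            have := mul_nonneg (hc i hi) (hc j hj)
            by_cases a1 : X ∈ (Ev G (F i)).erase (ind (F i))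
            · by_cases a2 : X ∈ (Ev G (F j)).erase (ind (F j))
              · rw [if_pos a1, if_pos a2,
                  if_pos (mem_inter.2 ⟨mem_of_mem_erase a1, mem_of_mem_erase a2⟩)]
              · rw [if_neg a2, mul_zero]
                split_ifs <;> simp [this]
            · rw [if_neg a1, zero_mul]
              split_ifs <;> simp [this]
        _ ≤ _ := by
            rw [← sum_filter]
            exact sum_le_sum_of_subset_of_nonneg (fun X hX => (mem_filter.1 hX).2)
              fun _ _ _ => mul_nonneg (hc i hi) (hc j hj)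
    calc _ ≤ #(Ev G (F i) ∩ Ev G (F j)) * (c i * c j) * (2 : ℝ) ^ dim G := by gcongr
      _ = _ := by simp only [c, rat]; field_simp
  have h3 := sq_sum_le_card_mul_sum_sq (s := Gd) (f := N)
  have h4 : 0 ≤ (∑ i ∈ I, w i) * (1 - 1 / M) :=
    mul_nonneg (sum_nonneg hw) (by rw [sub_nonneg, div_le_one (by linarith only [hM0])]; exact hM0)
  calc _ ≤ (∑ X ∈ Gd, N X) ^ 2 * 2 ^ dim G := by gcongr
    _ ≤ (#Gd * ∑ X ∈ Gd, N X ^ 2) * 2 ^ dim G := by gcongr
    _ ≤ #Gd * Q := by rw [mul_assoc]; gcongr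
    _ = _ := by rw [hG, mul_comm]

theorem rank_Sup (S : Finset (Sym2 V)) : finrank (ZMod 2) (Sup (S : Set (Sym2 V))) = #S := by
  apply Nat.pow_right_injective (le_refl 2)
  simp only
  rw [← card_el, ← card_powerset]
  refine card_nbij' (fun X => univ.filter fun e => X e ≠ 0) (fun T => ind (T : Set (Sym2 V)))
    (fun X hX => ?_) (fun T hT => ?_) (fun X _ => ?_) (fun T _ => ?_)
  · refine mem_powerset.2 fun e he => ?_
    by_contra h
    exact (mem_filter.1 he).2 (mem_el.1 hX e h)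
  · refine mem_el.2 fun e he => ?_
    have : e ∉ T := fun h => he (mem_powerset.1 hT h)
    simp [ind, this]
  · funext e
    by_cases h : X e = 0
    · simp only [ind, ne_eq, coe_filter, mem_univ, true_and, Set.mem_ofPred_eq, h, not_true_eq_false, ↓ reduceIte]
    · simp only [ind, ne_eq, coe_filter, mem_univ, true_and, Set.mem_ofPred_eq, z2_ne h, one_ne_zero, not_false_eq_true, ↓ reduceIte]
  · ext e
    simp only [ind, SetLike.mem_coe, ne_eq, ite_eq_right_iff, one_ne_zero, imp_false, Decidable.not_not, subset_univ, filter_mem_eq_of_subset]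

theorem dim_ge (G : SimpleGraph V) (S : Finset (Sym2 V)) (U : Finset V)
    (hS : ∀ e ∈ S, e ∈ G.edgeSet) (hU : ∀ v w, s(v, w) ∈ S → v ∈ U) : #S ≤ dim G + #U := by
  have := rank_le (Sup (S : Set (Sym2 V)))
    (LinearMap.funLeft (ZMod 2) (ZMod 2) (fun i : U => (i : V)) ∘ₗ bd) (Cy G) fun X hX h0 => by
      refine ⟨fun e he => hX e fun h => he (hS e h), ?_⟩
      show bd X = 0
      funext v
      by_cases hv : v ∈ U
      · exact congrFun h0 ⟨v, hv⟩
      · exact sum_eq_zero fun w _ => hX _ fun h => hv (hU v w h)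
  rw [rank_Sup] at this
  simpa only [dim, ge_iff_le, Fintype.card_coe] using this

theorem dim_le (G : SimpleGraph V) (S : Finset (Sym2 V)) (hS : G.edgeSet = S) : dim G ≤ #S := by
  rw [← rank_Sup, ← hS]
  exact Submodule.finrank_mono inf_le_left

theorem dim_conn (G : SimpleGraph V) (hG : G.Connected) (S : Finset (Sym2 V))
    (hS : G.edgeSet = S) : dim G + Fintype.card V ≤ #S + 1 := by
  obtain ⟨v0⟩ := hG.nonempty
  let ψ := (LinearMap.funLeft (ZMod 2) (ZMod 2)
    (fun i : {v // v ≠ v0} => (i : V)) ∘ₗ bd).domRestrict (Sup G.edgeSet)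
  have h1 := LinearMap.finrank_range_add_finrank_ker ψ
  have h2 : LinearMap.range ψ = ⊤ := by
    rw [LinearMap.range_eq_top]
    intro τ
    let τ' : V → ZMod 2 := fun v => if h : v = v0 then ∑ i, τ i else τ ⟨v, h⟩
    obtain ⟨J, hJ, hJ2⟩ := tjoin G τ' v0 (fun y hy => absurd (hG y v0) hy) (by
      rw [Fintype.sum_eq_add_sum_subtype_ne τ' v0]
      have : ∀ i : {v // v ≠ v0}, τ' i = τ i := fun i => dif_neg i.2
      simp only [this]
      simp only [τ', ne_eq, ↓ reduceDIte, z2_add])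
    refine ⟨⟨J, hJ⟩, funext fun i => ?_⟩
    show bd J i = τ i
    rw [hJ2]
    exact dif_neg i.2
  have h3 : dim G ≤ finrank (ZMod 2) (LinearMap.ker ψ) := by
    rw [← Submodule.finrank_map_subtype_eq]
    refine Submodule.finrank_mono fun X hX => ⟨⟨X, hX.1⟩, ?_, rfl⟩
    exact funext fun i => congrFun hX.2 i
  have h4 : finrank (ZMod 2) (Sup G.edgeSet) = #S := by rw [hS, rank_Sup]
  rw [h2, finrank_top, h4, Module.finrank_fintype_fun_eq_card, Fintype.card_subtype_compl,
    Fintype.card_subtype_eq] at h1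
  have := Fintype.card_pos_iff.2 ⟨v0⟩
  omega

noncomputable def nb (G : SimpleGraph V) (v : V) : Finset V := univ.filter (G.Adj v ·)

theorem mem_nb {G : SimpleGraph V} {v w : V} : w ∈ nb G v ↔ G.Adj v w := by simp only [nb, mem_filter, mem_univ, true_and]

theorem Cy.sum_nb {G : SimpleGraph V} {X : EV V} (h : X ∈ Cy G) (v : V) :
    ∑ w ∈ nb G v, X s(v, w) = 0 := by
  rw [← show bd X v = 0 from congrFun h.2 v, bd_apply]
  exact sum_subset (subset_univ _) fun w _ hw => h.1 _ fun h' => hw (mem_nb.2 h')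

theorem transfer {V' : Type} [Fintype V'] (G : SimpleGraph V) (G' : SimpleGraph V')
    (π : EV V' → EV V) (hmap : ∀ X ∈ Cy G', π X ∈ Cy G)
    (hinj : ∀ X ∈ Cy G', ∀ Y ∈ Cy G', π X = π Y → X = Y)
    (hsurj : ∀ Y ∈ Cy G, ∃ X ∈ Cy G', π X = Y)
    (hmono : ∀ X ∈ Cy G', ∀ Y ∈ Cy G', (∀ e, Y e ≠ 0 → X e ≠ 0) → ∀ e, π Y e ≠ 0 → π X e ≠ 0)
    (h0 : π 0 = 0) : dim G = dim G' ∧ circ G ≤ circ G' := by
  constructor
  · apply Nat.pow_right_injective (le_refl 2)
    simp only [dim]
    rw [← card_el, ← card_el]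
    symm
    refine card_nbij π (fun X hX => mem_el.2 (hmap X (mem_el.1 hX)))
      (fun X hX Y hY => hinj X (mem_el.1 hX) Y (mem_el.1 hY)) fun Y hY => ?_
    obtain ⟨X, hX, e⟩ := hsurj Y (mem_el.1 hY)
    exact ⟨X, mem_el.2 hX, e⟩
  · refine card_le_card_of_surjOn π fun Y hY => ?_
    have hY' : Circ G Y := by simpa using hY
    obtain ⟨X, hX, rfl⟩ := hsurj Y hY'.1
    refine ⟨X, ?_, rfl⟩
    simp only [coe_filter, mem_univ, true_and, Set.mem_ofPred_eq]
    refine ⟨hX, fun h => hY'.2.1 (h ▸ h0), fun Z hZ hZ0 hZX => hinj Z hZ X hX ?_⟩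
    exact hY'.2.2 _ (hmap Z hZ) (fun h => hZ0 (hinj Z hZ 0 (zero_mem _) (h.trans h0.symm)))
      (hmono X hX Z hZ hZX)

theorem leaf (G : SimpleGraph V) {v a : V} (h : nb G v = {a}) :
    Cy (G.deleteEdges {s(v, a)}) = Cy G := by
  ext X
  rw [mem_Cy_del]
  refine ⟨fun h => h.1, fun hX => ⟨hX, fun e he => ?_⟩⟩
  have := Cy.sum_nb hX v
  rwa [h, sum_singleton, ← Set.mem_singleton_iff.1 he] at this

/-- The triangle vector. -/
noncomputable def tri (a b c : V) : EV V :=
  Pi.single s(a, b) 1 + Pi.single s(a, c) 1 + Pi.single s(b, c) 1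

theorem bd_tri {a b c : V} (h1 : a ≠ b) (h2 : a ≠ c) (h3 : b ≠ c) : bd (tri a b c) = 0 := by
  rw [tri, map_add, map_add, bd_single h1, bd_single h2, bd_single h3]
  funext x
  simp only [Pi.add_apply, Pi.zero_apply]
  generalize (Pi.single a 1 : V → ZMod 2) x = p
  generalize (Pi.single b 1 : V → ZMod 2) x = q
  generalize (Pi.single c 1 : V → ZMod 2) x = r
  revert p q r
  decide

/-- Suppression of the vertex `v` with neighbours `a`, `b`. -/
def supp (G : SimpleGraph V) (v a b : V) (h : a ≠ b) : SimpleGraph V where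
  Adj x y := (G.Adj x y ∧ x ≠ v ∧ y ≠ v) ∨ s(x, y) = s(a, b)
  symm := ⟨fun x y h => h.imp (fun h => ⟨h.1.symm, h.2.2, h.2.1⟩) fun h => Sym2.eq_swap.trans h⟩
  loopless := ⟨fun x hx => hx.elim (fun h => h.1.ne rfl) fun h' => h (by
    rcases Sym2.eq_iff.1 h' with h' | h'
    · exact h'.1.symm.trans h'.2
    · exact h'.2.symm.trans h'.1)⟩

theorem supp_tr (G : SimpleGraph V) {v a b : V} (h : nb G v = {a, b}) (hab : a ≠ b)
    (hn : ¬ G.Adj a b) : dim G = dim (supp G v a b hab) ∧ circ G ≤ circ (supp G v a b hab) := by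
  have ha : G.Adj v a := mem_nb.1 (by simp [h])
  have hb : G.Adj v b := mem_nb.1 (by simp [h])
  have hva := ha.ne
  have hvb := hb.ne
  have t1 : tri v a b s(v, a) = 1 := by simp [tri, hab, hva, hvb]
  have t2 : tri v a b s(v, b) = 1 := by simp [tri, hab.symm, hva, hvb]
  have t3 : tri v a b s(a, b) = 1 := by simp [tri, hva.symm, hvb.symm]
  have t4 : ∀ e, e ≠ s(v, a) → e ≠ s(v, b) → e ≠ s(a, b) → tri v a b e = 0 :=
    fun e h1 h2 h3 => by simp [tri, h1, h2, h3]
  have n1 : ∀ X ∈ Cy (supp G v a b hab), ∀ y, X s(v, y) = 0 := fun X hX y => by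
    refine hX.1 _ fun h' => ?_
    rcases h' with h' | h'
    · exact h'.2.1 rfl
    · simp [hva, hvb] at h'
  refine transfer G _ (fun X => X + X s(a, b) • tri v a b) (fun X hX => ⟨fun e he => ?_, ?_⟩)
    (fun X hX Y hY e => ?_) (fun Y hY => ⟨Y + Y s(v, a) • tri v a b, ⟨fun e he => ?_, ?_⟩, ?_⟩)
    (fun X hX Y hY hs e he => ?_) (by simp)
  · by_cases h3 : e = s(a, b)
    · simp [h3, t3, z2_add]
    · rw [Pi.add_apply, Pi.smul_apply, t4 e (fun h' => he (h' ▸ ha)) (fun h' => he (h' ▸ hb)) h3,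
        smul_zero, add_zero]
      refine hX.1 e fun h' => ?_
      induction e using Sym2.ind with
      | _ x y => exact h'.elim (fun h' => he h'.1) h3
  · show bd _ = 0
    rw [map_add, map_smul, bd_tri hva hvb hab, hX.2, smul_zero, add_zero]
  · have e1 := congrFun e s(v, a)
    simp only [Pi.add_apply, Pi.smul_apply, t1, n1 X hX, n1 Y hY, smul_eq_mul, mul_one,
      zero_add] at e1
    rw [e1] at e
    exact add_right_cancel e
  · have h5 := Cy.sum_nb hY v
    rw [h, sum_pair hab] at h5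
    by_cases h1 : e = s(v, a)
    · simp [h1, t1, z2_add]
    by_cases h2 : e = s(v, b)
    · simp [h2, t2, ← z2_eq h5, z2_add]
    rw [Pi.add_apply, Pi.smul_apply, t4 e h1 h2 (fun h' => he (h' ▸ Or.inr rfl)), smul_zero,
      add_zero]
    refine hY.1 e fun h' => he ?_
    induction e using Sym2.ind with
    | _ x y =>
      refine Or.inl ⟨h', fun hx => ?_, fun hy => ?_⟩
      · subst hx
        have := mem_nb.2 h'
        simp only [h, mem_insert, mem_singleton] at this
        exact this.elim (fun h' => h1 (h' ▸ rfl)) fun h' => h2 (h' ▸ rfl)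
      · subst hy
        have := mem_nb.2 (G.adj_symm h')
        simp only [h, mem_insert, mem_singleton] at this
        exact this.elim (fun h' => h1 (h' ▸ Sym2.eq_swap)) fun h' => h2 (h' ▸ Sym2.eq_swap)
  · show bd _ = 0
    rw [map_add, map_smul, bd_tri hva hvb hab, hY.2, smul_zero, add_zero]
  · have : Y s(a, b) = 0 := hY.1 _ hn
    simp only [Pi.add_apply, Pi.smul_apply, t3, this, smul_eq_mul, mul_one, zero_add]
    rw [add_assoc, pi_add, add_zero]
  · have h4 := hs s(a, b)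
    by_cases h1 : e = s(v, a)
    · simpa [h1, t1, n1 X hX, n1 Y hY] using h4 (by simpa [h1, t1, n1 Y hY] using he)
    by_cases h2 : e = s(v, b)
    · simpa [h2, t2, n1 X hX, n1 Y hY] using h4 (by simpa [h2, t2, n1 Y hY] using he)
    by_cases h3 : e = s(a, b)
    · simp [h3, t3, z2_add] at he
    simpa [t4 e h1 h2 h3] using hs e (by simpa [t4 e h1 h2 h3] using he)

/-- Splitting `v` along the neighbours `a`, `b`, with the isolated vertex `o`. -/
def spl (G : SimpleGraph V) (o v a b : V) : SimpleGraph V :=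
  G.deleteEdges {s(v, a), s(v, b)} ⊔ SimpleGraph.fromEdgeSet {s(o, v), s(o, a), s(o, b)}

theorem spl_tr (G : SimpleGraph V) {o v a b : V} (ho : ∀ y, ¬ G.Adj o y) (ha : G.Adj v a)
    (hb : G.Adj v b) (hab : a ≠ b) :
    dim G = dim (spl G o v a b) ∧ circ G ≤ circ (spl G o v a b) := by
  have hva := ha.ne
  have hvb := hb.ne
  have hov : o ≠ v := fun h => ho a (h ▸ ha)
  have hoa : o ≠ a := fun h => ho v (h ▸ ha.symm)
  have hob : o ≠ b := fun h => ho v (h ▸ hb.symm)
  have hE : ∀ e, e ∈ (spl G o v a b).edgeSet ↔ (e ∈ G.edgeSet ∧ e ≠ s(v, a) ∧ e ≠ s(v, b)) ∨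
      e = s(o, v) ∨ e = s(o, a) ∨ e = s(o, b) := fun e => by
    simp only [spl, SimpleGraph.edgeSet_sup, SimpleGraph.edgeSet_deleteEdges,
      SimpleGraph.edgeSet_fromEdgeSet, Set.mem_union, Set.mem_sdiff, Set.mem_insert_iff,
      Set.mem_singleton_iff, not_or, Sym2.mem_diagSet]
    refine or_congr Iff.rfl ⟨fun h => h.1, fun h => ⟨h, ?_⟩⟩
    rcases h with rfl | rfl | rfl <;> simpa
  let T : ZMod 2 → ZMod 2 → EV V := fun p q => p • tri o v a + q • tri o v b
  have t1 : ∀ p q, T p q s(o, v) = p + q := by simp [T, tri, hov, hoa, hob, hva, hvb]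
  have t2 : ∀ p q, T p q s(o, a) = p := by simp [T, tri, hov, hoa, hob, hva.symm, hab]
  have t3 : ∀ p q, T p q s(o, b) = q := by simp [T, tri, hov, hoa, hob, hvb.symm, hab.symm]
  have t4 : ∀ p q, T p q s(v, a) = p := by
    simp [T, tri, hov.symm, hoa.symm, hab, hvb]
  have t5 : ∀ p q, T p q s(v, b) = q := by
    simp [T, tri, hov.symm, hob.symm, hab.symm, hva]
  have t6 : ∀ p q e, e ≠ s(o, v) → e ≠ s(o, a) → e ≠ s(o, b) → e ≠ s(v, a) → e ≠ s(v, b) →
      T p q e = 0 := fun p q e h1 h2 h3 h4 h5 => by simp [T, tri, h1, h2, h3, h4, h5]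
  have t7 : ∀ p q, bd (T p q) = 0 := fun p q => by
    simp [T, bd_tri hov hoa hva, bd_tri hov hob hvb]
  have n1 : ∀ X ∈ Cy (spl G o v a b), X s(v, a) = 0 ∧ X s(v, b) = 0 := fun X hX =>
    ⟨hX.1 _ (by simp [hE, hov.symm, hoa.symm]), hX.1 _ (by simp [hE, hov.symm, hob.symm])⟩
  have n2 : ∀ X ∈ Cy (spl G o v a b), X s(o, v) + (X s(o, a) + X s(o, b)) = 0 := fun X hX => by
    have h5 := Cy.sum_nb hX o
    have : nb (spl G o v a b) o = {v, a, b} := by
      ext y
      rw [mem_nb, ← SimpleGraph.mem_edgeSet, hE]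
      simp [ho y, hov, hoa, hob]
    rwa [this, sum_insert (by simp [hva, hvb]), sum_pair hab] at h5
  have n3 : ∀ Y ∈ Cy G, ∀ y, Y s(o, y) = 0 := fun Y hY y => hY.1 _ (ho y)
  refine transfer G _ (fun X => X + T (X s(o, a)) (X s(o, b))) (fun X hX => ⟨fun e he => ?_, ?_⟩)
    (fun X hX Y hY e => ?_) (fun Y hY => ⟨Y + T (Y s(v, a)) (Y s(v, b)), ⟨fun e he => ?_, ?_⟩, ?_⟩)
    (fun X hX Y hY hs e he => ?_) (by simp [T])
  · by_cases h1 : e = s(o, v)
    · rw [h1, Pi.add_apply, t1, n2 X hX]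
    by_cases h2 : e = s(o, a)
    · rw [h2, Pi.add_apply, t2, z2_add]
    by_cases h3 : e = s(o, b)
    · rw [h3, Pi.add_apply, t3, z2_add]
    rw [Pi.add_apply, t6 _ _ e h1 h2 h3 (fun h' => he (h' ▸ ha)) (fun h' => he (h' ▸ hb)), add_zero]
    exact hX.1 e (by simp [hE, he, h1, h2, h3])
  · show bd _ = 0
    rw [map_add, t7, hX.2, add_zero]
  · have e1 := congrFun e s(v, a)
    have e2 := congrFun e s(v, b)
    simp only [Pi.add_apply, t4, t5, n1 X hX, n1 Y hY, zero_add] at e1 e2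
    rw [e1, e2] at e
    exact add_right_cancel e
  · by_cases h4 : e = s(v, a)
    · rw [h4, Pi.add_apply, t4, z2_add]
    by_cases h5 : e = s(v, b)
    · rw [h5, Pi.add_apply, t5, z2_add]
    simp only [hE, not_or, not_and, h4, h5, ne_eq, not_false_eq_true, not_true_eq_false,
      imp_false, and_self] at he
    rw [Pi.add_apply, t6 _ _ e he.2.1 he.2.2.1 he.2.2.2 h4 h5, add_zero]
    exact hY.1 e he.1
  · show bd _ = 0
    rw [map_add, t7, hY.2, add_zero]
  · simp only [Pi.add_apply, t2, t3, n3 Y hY, zero_add]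
    rw [add_assoc, pi_add, add_zero]
  · by_cases h1 : e = s(o, v)
    · exact absurd (by rw [h1, Pi.add_apply, t1, n2 Y hY]) he
    by_cases h2 : e = s(o, a)
    · exact absurd (by rw [h2, Pi.add_apply, t2, z2_add]) he
    by_cases h3 : e = s(o, b)
    · exact absurd (by rw [h3, Pi.add_apply, t3, z2_add]) he
    by_cases h4 : e = s(v, a)
    · simpa [h4, t4, n1 X hX] using hs s(o, a) (by simpa [h4, t4, n1 Y hY] using he)
    by_cases h5 : e = s(v, b)
    · simpa [h5, t5, n1 X hX] using hs s(o, b) (by simpa [h5, t5, n1 Y hY] using he)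
    simpa [t6 _ _ e h1 h2 h3 h4 h5] using hs e (by simpa [t6 _ _ e h1 h2 h3 h4 h5] using he)

theorem map_tr (G : SimpleGraph V) :
    dim G = dim (G.map Function.Embedding.some) ∧ circ G ≤ circ (G.map Function.Embedding.some) := by
  set G' := G.map Function.Embedding.some
  have n1 : ∀ y, s(none, y) ∉ G'.edgeSet := fun y h => by
    obtain ⟨_, _, _, h, _⟩ := (SimpleGraph.map_adj _ _ _ _).1 h
    cases h
  have n2 : ∀ x y, s(some x, some y) ∈ G'.edgeSet ↔ s(x, y) ∈ G.edgeSet := fun x y =>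
    SimpleGraph.map_adj_apply (f := Function.Embedding.some)
  have hi : Function.Injective (Sym2.map (some : V → Option V)) :=
    Sym2.map.injective (Option.some_injective V)
  refine transfer G G' (fun X e => X (e.map some)) (fun X hX => ⟨fun e he => ?_, ?_⟩)
    (fun X hX Y hY e => ?_) (fun Y hY => ⟨Function.extend (Sym2.map some) Y 0, ?_, ?_⟩)
    (fun X _ Y _ hs e he => hs _ he) rfl
  · induction e using Sym2.ind with
    | _ x y => exact hX.1 _ fun h => he ((n2 x y).1 h)
  · show bd _ = 0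
    funext v
    have := congrFun hX.2 (some v)
    rwa [bd_apply, Fintype.sum_option, Sym2.eq_swap, hX.1 _ (n1 _), zero_add] at this
  · funext f
    induction f using Sym2.ind with
    | _ x y =>
      rcases x with _ | x
      · rw [hX.1 _ (n1 _), hY.1 _ (n1 _)]
      rcases y with _ | y
      · rw [Sym2.eq_swap, hX.1 _ (n1 _), hY.1 _ (n1 _)]
      exact congrFun e s(x, y)
  · have n3 : ∀ y, Function.extend (Sym2.map some) Y 0 s(none, y) = 0 := fun y => by
      rw [Function.extend_apply']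
      · rfl
      · rintro ⟨e, he⟩
        induction e using Sym2.ind with
        | _ x y => simp at he
    have n4 : ∀ x y, Function.extend (Sym2.map some) Y 0 s(some x, some y) = Y s(x, y) :=
      fun x y => hi.extend_apply Y 0 s(x, y)
    refine ⟨fun f hf => ?_, ?_⟩
    · induction f using Sym2.ind with
      | _ x y =>
        rcases x with _ | x
        · exact n3 y
        rcases y with _ | y
        · rw [Sym2.eq_swap, n3]
        rw [n4]
        exact hY.1 _ fun h => hf ((n2 x y).2 h)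
    · show bd _ = 0
      funext v
      rcases v with _ | v
      · exact sum_eq_zero fun y _ => n3 y
      · rw [bd_apply, Fintype.sum_option, Sym2.eq_swap, n3, zero_add]
        simp only [n4]
        exact congrFun hY.2 v
  · funext e
    exact hi.extend_apply Y 0 e

end Pool.Agent.MP_e633d5_co.H49
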