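import Pool.Agent.MP_e633d5_co.H49.Base

attribute [-instance] FunLike.toDecidableEq List.instDecidableMemOfLawfulBEq
  AddQuantale.instAddLeftMono RCLike.charZero_rclike IdemSemiring.toCanonicallyOrderedAdd
  Finset.decidableDforallFinset LinearOrder.toDecidableEq Multiset.decidableDforallMultiset
  Vector.instDecidableForallForallMemOfDecidablePred NumberField.to_charZero
  Array.instDecidableForallForallMemOfDecidablePred Option.decidableForallMem
  AddQuantale.instAddRightMono IdemSemiring.toMulLeftMono Quantale.instMulRightMono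
  MonoidWithZeroHomClass.toZeroHomClass RCLike.toInnerProductSpaceReal Int.decidableLTLE
  IsOrderedMonoid.toMulLeftMono FirstOrder.Language.instDecidableEqRelations
  Group.IsPerfect.subsingleton_of_isMulCommutative IdemSemiring.toMulRightMono Int.decidableLTLT
  Int.decidableLELE instCoeTCOfCoe instCharZeroOfIsSemireal FinEnum.decEq Nontrivial.to_nonempty
  instCoeHTCOfCoeHeadOfCoeOTC Int.decidableLELT FirstOrder.Language.instDecidableEqFunctions
  Quantale.instMulLeftMono littleWedderburn instCoeTOfCoeDep instCoeHTCTOfCoeTailOfCoeHTC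
  NeZero.of_gt' instCoeOutOfCoeFun Zero.instNonempty
  CategoryTheory.Limits.Concrete.instUniqueToTypeTerminal

/-! Cycles as periodic sequences, the two cases of the second moment argument, the bounds. -/

namespace Pool.Agent.MP_e633d5_co.H49

open Finset Module
open scoped Classical

variable {V : Type} [Fintype V]

section
/-- A simple cycle of length `a`, written as a periodic sequence. -/
structure SC (G : SimpleGraph V) (a : ℕ) (x : ℕ → V) : Prop where
  three : 3 ≤ a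
  per : ∀ t, x (t + a) = x t
  adj : ∀ t, G.Adj (x t) (x (t + 1))
  inj : ∀ s t, s < a → t < a → x s = x t → s = t

/-- The edges of a sequence. -/
def Ed (x : ℕ → V) : Set (Sym2 V) := Set.range fun t => s(x t, x (t + 1))

/-- No cycle of length at most `g` inside `S`. -/
def Free (G : SimpleGraph V) (S : Set V) (g : ℕ) : Prop :=
  ∀ a x, SC G a x → a ≤ g → ¬ ∀ t, x t ∈ S

/-- Reduced subcubic graphs. -/
structure Red (G : SimpleGraph V) : Prop where
  le3 : ∀ v, #(nb G v) ≤ 3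
  ne1 : ∀ v, #(nb G v) ≠ 1
  tri : ∀ v a b, nb G v = {a, b} → a ≠ b → G.Adj a b

/-- A non-backtracking walk of length `n`. -/
structure NBW (G : SimpleGraph V) (n : ℕ) (y : ℕ → V) : Prop where
  adj : ∀ t, t < n → G.Adj (y t) (y (t + 1))
  nb : ∀ t, t + 2 ≤ n → y (t + 2) ≠ y t

section
omit [Fintype V]
variable {G : SimpleGraph V} {a n : ℕ} {x y : ℕ → V}

theorem SC.pos (h : SC G a x) : 0 < a := by have := h.three; omega

theorem SC.mod (h : SC G a x) (t : ℕ) : x (t % a) = x t :=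
  Function.Periodic.map_mod_nat (f := x) h.per t

theorem SC.eq_iff (h : SC G a x) {s t : ℕ} : x s = x t ↔ s ≡ t [MOD a] :=
  ⟨fun e => h.inj _ _ (Nat.mod_lt _ h.pos) (Nat.mod_lt _ h.pos) (by rw [h.mod, h.mod, e]),
    fun e => by rw [← h.mod s, ← h.mod t, e]⟩

theorem SC.succ_eq (h : SC G a x) {s t : ℕ} : x (s + 1) = x (t + 1) ↔ x s = x t := by
  rw [h.eq_iff, h.eq_iff]
  exact ⟨fun e => Nat.ModEq.add_right_cancel' 1 e, fun e => e.add_right 1⟩

theorem SC.nb (h : SC G a x) (t : ℕ) : x (t + 2) ≠ x t := fun e => by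
  have := Nat.le_of_dvd (by omega)
    ((Nat.modEq_iff_dvd' (show t ≤ t + 2 by omega)).1 (h.eq_iff.1 e).symm)
  have := h.three
  omega

theorem SC.nbw (h : SC G a x) (n : ℕ) : NBW G n x := ⟨fun t _ => h.adj t, fun t _ => h.nb t⟩

theorem SC.pred (h : SC G a x) (t : ℕ) : ∃ s, x (s + 1) = x t :=
  ⟨t + (a - 1), by rw [← h.per t]; congr 1; have := h.pos; omega⟩

theorem SC.nbr (h : SC G a x) {t : ℕ} {w : V} (e : s(x (t + 1), w) ∈ Ed x) :
    w = x (t + 2) ∨ w = x t := by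
  obtain ⟨s, hs⟩ := e
  rcases Sym2.eq_iff.1 hs with ⟨h1, h2⟩ | ⟨h1, h2⟩
  · exact Or.inl (h2 ▸ h.succ_eq.2 h1)
  · exact Or.inr (h1 ▸ h.succ_eq.1 h2)

theorem mem_Ed (x : ℕ → V) (t : ℕ) : s(x t, x (t + 1)) ∈ Ed x := ⟨t, rfl⟩

theorem Ed_vert {v w : V} (e : s(v, w) ∈ Ed x) : ∃ t, v = x t := by
  obtain ⟨s, hs⟩ := e
  rcases Sym2.eq_iff.1 hs with h | h
  · exact ⟨_, h.1.symm⟩
  · exact ⟨_, h.2.symm⟩

theorem Ed_disj {x' : ℕ → V} (h : ∀ s t, x s ≠ x' t) : Disjoint (Ed x) (Ed x') := by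
  rw [Set.disjoint_left]
  rintro _ ⟨s, rfl⟩ he
  obtain ⟨t, ht⟩ := Ed_vert he
  exact h s t ht

theorem NBW.shift (h : NBW G n y) (i m : ℕ) (hm : i + m ≤ n) : NBW G m fun t => y (i + t) :=
  ⟨fun t ht => h.adj (i + t) (by omega), fun t ht => h.nb (i + t) (by omega)⟩

theorem NBW.rev (h : NBW G n y) (i m : ℕ) (hi : i ≤ n) (hm : m ≤ i) : NBW G m fun t => y (i - t) :=
  ⟨fun t ht => by
    have := (h.adj (i - (t + 1)) (by omega)).symm
    rwa [show i - (t + 1) + 1 = i - t by omega] at this, fun t ht => by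
    have := (h.nb (i - (t + 2)) (by omega)).symm
    rwa [show i - (t + 2) + 2 = i - t by omega] at this⟩

theorem mod_succ (w : ℕ → V) (ha : 0 < a) (h : w a = w 0) (t : ℕ) :
    w ((t + 1) % a) = w (t % a + 1) := by
  have := Nat.mod_lt t ha
  rw [← Nat.mod_add_mod]
  rcases Nat.lt_or_ge (t % a + 1) a with h1 | h1
  · rw [Nat.mod_eq_of_lt h1]
  · rw [show t % a + 1 = a by omega, Nat.mod_self, h]

theorem NBW.cycle (h : NBW G n y) {i j : ℕ} (hij : i < j) (hj : j ≤ n) (e : y i = y j) :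
    ∃ i' a, i ≤ i' ∧ i' + a ≤ j ∧ y (i' + a) = y i' ∧ SC G a fun t => y (i' + t % a) := by
  have ex : ∃ a, 0 < a ∧ ∃ i', i ≤ i' ∧ i' + a ≤ j ∧ y (i' + a) = y i' :=
    ⟨j - i, by omega, i, le_rfl, by omega, by rw [e]; congr 1; omega⟩
  obtain ⟨ha, i', h1, h2, h3⟩ := Nat.find_spec ex
  have hmin := fun m => Nat.find_min ex (m := m)
  generalize Nat.find ex = a at *
  refine ⟨i', a, h1, h2, h3, ?_, fun t => by simp, fun t => ?_, fun s t hs ht e => ?_⟩
  · by_contra h4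
    obtain rfl | rfl : a = 1 ∨ a = 2 := by omega
    · exact (h.adj i' (by omega)).ne' h3
    · exact h.nb i' (by omega) h3
  · have := Nat.mod_lt t ha
    rw [mod_succ (fun t => y (i' + t)) ha h3]
    exact h.adj _ (by omega)
  · rw [Nat.mod_eq_of_lt hs, Nat.mod_eq_of_lt ht] at e
    by_contra hne
    wlog hst : s < t generalizing s t
    · exact this t s ht hs e.symm (Ne.symm hne) (by omega)
    exact hmin (t - s) (by omega) ⟨by omega, i' + s, by omega, by omega, by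
      rw [e]; congr 1; omega⟩

theorem Free.mono {S S' : Set V} {g g' : ℕ} (h : Free G S g) (hS : S' ⊆ S) (hg : g' ≤ g) :
    Free G S' g' := fun a x hx ha h' => h a x hx (ha.trans hg) fun t => hS (h' t)

theorem Free.ne {S : Set V} {g : ℕ} (hF : Free G S g) (h : NBW G n y) (hS : ∀ t ≤ n, y t ∈ S)
    {i j : ℕ} (hij : i < j) (hj : j ≤ n) (hg : j ≤ i + g) : y i ≠ y j := fun e => by
  obtain ⟨i', a, h1, h2, -, h4⟩ := h.cycle hij hj e
  refine hF a _ h4 (by omega) fun t => hS _ ?_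
  have := Nat.mod_lt t h4.pos
  omega

theorem succ_cycle (G : SimpleGraph V) (r : V → V → Prop) (S : Finset V)
    (h1 : ∀ u v, r u v → G.Adj u v ∧ u ∈ S) (h2 : ∀ u v, r u v → ∃ w, r v w ∧ w ≠ u) {u v : V}
    (h : r u v) : ¬ Free G S #S := fun hF => by
  choose nx hn1 hn2 using h2
  let st : {p : V × V // r p.1 p.2} → {p : V × V // r p.1 p.2} := fun p =>
    ⟨(p.1.2, nx _ _ p.2), hn1 _ _ _⟩
  let z : ℕ → {p : V × V // r p.1 p.2} := fun t => st^[t] ⟨(u, v), h⟩
  have hz : ∀ t, z (t + 1) = st (z t) := fun t => Function.iterate_succ_apply' _ _ _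
  have hy : NBW G (#S) fun t => (z t).1.1 :=
    ⟨fun t _ => by rw [hz]; exact (h1 _ _ (z t).2).1, fun t _ => by
      rw [hz, hz]; exact hn2 _ _ _⟩
  obtain ⟨i, hi, j, hj, hij, e⟩ := exists_ne_map_eq_of_card_lt_of_maps_to
    (s := range (#S + 1)) (t := S) (by simp) (f := fun t => (z t).1.1)
    fun t _ => (h1 _ _ (z t).2).2
  simp only [mem_range] at hi hj
  rcases lt_or_gt_of_ne hij with hlt | hlt
  · exact hF.ne hy (fun t _ => (h1 _ _ (z t).2).2) hlt (by omega) (by omega) e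
  · exact hF.ne hy (fun t _ => (h1 _ _ (z t).2).2) hlt (by omega) (by omega) e.symm

/-- One walk forwards, then another one backwards. -/
def glue (i j : ℕ) (y y' : ℕ → V) : ℕ → V := fun t => if t ≤ i then y t else y' (i + j - t)

theorem glue_ge {i j t : ℕ} {y' : ℕ → V} (e : y i = y' j) (ht : i ≤ t) :
    glue i j y y' t = y' (i + j - t) := by
  unfold glue
  split_ifs with h
  · rw [show t = i by omega, e, Nat.add_sub_cancel_left]
  · rfl

theorem glue_le {i j t : ℕ} {y' : ℕ → V} (ht : t ≤ i) : glue i j y y' t = y t := if_pos ht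

theorem NBW.glue {i j : ℕ} {y' : ℕ → V} (h : NBW G (i + 1) y) (h' : NBW G (j + 1) y')
    (e : y (i + 1) = y' (j + 1)) (ne : y i ≠ y' j) :
    NBW G (i + 1 + (j + 1)) (glue (i + 1) (j + 1) y y') := by
  have hr := h'.rev (j + 1) (j + 1) le_rfl le_rfl
  refine ⟨fun t ht => ?_, fun t ht => ?_⟩
  · rcases Nat.lt_or_ge t (i + 1) with h1 | h1
    · rw [glue_le h1.le, glue_le h1]
      exact h.adj t h1
    · rw [glue_ge e h1, glue_ge e (by omega)]
      convert hr.adj (t - (i + 1)) (by omega) using 2 <;> omega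
  · rcases lt_trichotomy t i with h1 | rfl | h1
    · rw [glue_le (t := t) (by omega), glue_le (by omega)]
      exact h.nb t (by omega)
    · rw [glue_le (t := t) (by omega), glue_ge e (by omega)]
      convert ne.symm using 2
      omega
    · rw [glue_ge e (t := t) h1, glue_ge e (by omega)]
      convert hr.nb (t - (i + 1)) (by omega) using 2 <;> omega

theorem Free.uniq {S : Set V} {R : ℕ} {y' : ℕ → V} (hF : Free G S (2 * R)) (h : NBW G R y)
    (h' : NBW G R y') (hS : ∀ t ≤ R, y t ∈ S) (hS' : ∀ t ≤ R, y' t ∈ S) (e0 : y 0 = y' 0)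
    (e : y R = y' R) : ∀ t ≤ R, y t = y' t := by
  intro t ht
  induction ht using Nat.decreasingInduction with
  | self => exact e
  | of_succ i hi ih =>
    by_contra ne
    have hg := NBW.glue (G := G) ⟨fun t ht => h.adj t (by omega), fun t ht => h.nb t (by omega)⟩
      ⟨fun t ht => h'.adj t (by omega), fun t ht => h'.nb t (by omega)⟩ ih ne
    refine hF.ne hg (fun t _ => ?_) (i := 0) (j := i + 1 + (i + 1)) (by omega) le_rfl (by omega) ?_
    · unfold glue
      split_ifs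
      · exact hS _ (by omega)
      · exact hS' _ (by omega)
    · rw [glue_le (by omega), glue_ge ih (by omega), e0, Nat.sub_self]

theorem NBW.periodize {l : ℕ} (h : NBW G (l + 2) y) (e : y (l + 2) = y 0) (ne : y 1 ≠ y (l + 1))
    (n : ℕ) : NBW G n fun t => y (t % (l + 2)) := by
  refine ⟨fun t _ => ?_, fun t _ => ?_⟩
  · rw [mod_succ y (by omega) e]
    exact h.adj _ (Nat.mod_lt _ (by omega))
  · have := Nat.mod_lt t (show 0 < l + 2 by omega)
    rw [show t + 2 = t + 1 + 1 from rfl, mod_succ y (by omega) e, ← Nat.mod_add_mod]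
    rcases Nat.lt_or_ge (t % (l + 2) + 1) (l + 2) with h1 | h1
    · rw [Nat.mod_eq_of_lt h1]
      exact h.nb _ (by omega)
    · rw [show t % (l + 2) = l + 1 by omega, Nat.mod_self]
      exact ne

end

variable {G : SimpleGraph V} {a n : ℕ} {x y : ℕ → V}

theorem SC.bd_eq (h : SC G a x) (Y : EV V) (t : ℕ)
    (hY : ∀ w, Y s(x (t + 1), w) ≠ 0 → s(x (t + 1), w) ∈ Ed x) :
    bd Y (x (t + 1)) = Y s(x (t + 1), x (t + 2)) + Y s(x t, x (t + 1)) := by
  rw [bd_apply, Sym2.eq_swap (a := x t), ← sum_pair (f := fun w => Y s(x (t + 1), w)) (h.nb t)]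
  refine (sum_subset (subset_univ _) fun w _ hw => ?_).symm
  by_contra h0
  exact hw (by simpa using h.nbr (hY w h0))

theorem SC.ind_mem (h : SC G a x) : ind (Ed x) ∈ Cy G := by
  have h1 : ∀ e, ind (Ed x) e ≠ 0 → e ∈ Ed x := fun e he => by
    by_contra h'
    simp [ind, h'] at he
  refine ⟨fun e he => ?_, funext fun v => ?_⟩
  · by_contra h0
    obtain ⟨t, rfl⟩ := h1 e h0
    exact he (h.adj t)
  · by_cases hv : ∃ t, v = x t
    · obtain ⟨t, rfl⟩ := hv
      obtain ⟨s, hs⟩ := h.pred t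
      rw [← hs, h.bd_eq _ s fun w => h1 _]
      simp [ind, mem_Ed x s, mem_Ed x (s + 1), z2_add]
    · refine sum_eq_zero fun w _ => ?_
      by_contra h0
      exact hv (Ed_vert (h1 _ h0))

theorem SC.circ (h : SC G a x) : Circ G (ind (Ed x)) := by
  refine ⟨h.ind_mem, fun h0 => by simpa only [ind, zero_add, mem_Ed x 0, ↓ reduceIte, Pi.zero_apply, one_ne_zero] using congrFun h0 s(x 0, x (0 + 1)),
    fun Y hY h0 hs => ?_⟩
  have h1 : ∀ e, Y e ≠ 0 → e ∈ Ed x := fun e he => by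
    by_contra h'
    simpa [ind, h'] using hs e he
  have h2 : ∀ t, Y s(x t, x (t + 1)) = Y s(x 0, x 1) := fun t => by
    induction t with
    | zero => rfl
    | succ t ih =>
      have := h.bd_eq Y t fun w => h1 _
      rw [hY.2] at this
      rw [← ih]
      exact z2_eq this.symm
  obtain ⟨e, he⟩ := Function.ne_iff.1 h0
  obtain ⟨t, rfl⟩ := h1 e he
  funext f
  by_cases hf : f ∈ Ed x
  · rw [ind, if_pos hf]
    obtain ⟨s, rfl⟩ := hf
    exact ((h2 s).trans (h2 t).symm).trans (z2_ne he)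
  · rw [ind, if_neg hf]
    by_contra h3
    exact hf (h1 f h3)

omit [Fintype V] in
theorem SC.Ed_lt (h : SC G a x) {e : Sym2 V} (he : e ∈ Ed x) : ∃ i < a, s(x i, x (i + 1)) = e := by
  obtain ⟨t, rfl⟩ := he
  exact ⟨t % a, Nat.mod_lt _ h.pos, by rw [h.mod, h.succ_eq.2 (h.mod t)]⟩

theorem SC.dim_le (h : SC G a x) : dim G ≤ dim (G.deleteEdges (Ed x)) + a :=
  dim_del G _ a (fun t => s(x t, x (t + 1))) fun _ he => h.Ed_lt he

theorem even_cycle {X : EV V} (hX : X ∈ Cy G) (h0 : X ≠ 0) (S : Finset V)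
    (hS : ∀ v w, X s(v, w) ≠ 0 → v ∈ S) : ¬ Free G S #S := by
  obtain ⟨e, he⟩ := Function.ne_iff.1 h0
  induction e using Sym2.ind with
  | _ u v =>
    refine succ_cycle G (fun u v => X s(u, v) ≠ 0) S (fun u v h => ⟨Cy.adj hX h, hS u v h⟩)
      (fun u v h => ?_) he
    by_contra hn
    push Not at hn
    have := congrFun hX.2 v
    rw [bd_apply, sum_eq_single u (fun w _ hw => by_contra fun h => hw (hn w h)) (by simp only [mem_univ, not_true_eq_false, IsEmpty.forall_iff]),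
      Sym2.eq_swap] at this
    exact h this
end

omit [Fintype V] in
theorem aEd_vert {x : ℕ → V} {u w : V} (h : s(u, w) ∈ Ed x) : ∃ t, x t = u := by
  obtain ⟨t, ht⟩ := h
  rcases Sym2.eq_iff.1 ht with h | h
  exacts [⟨t, h.1⟩, ⟨t + 1, h.2⟩]

omit [Fintype V] in
theorem aEd_disj {x y : ℕ → V} (h : ∀ s t, x s ≠ y t) : Disjoint (Ed x) (Ed y) := by
  rw [Set.disjoint_left]
  rintro _ ⟨s, rfl⟩ h2
  obtain ⟨t, ht⟩ := aEd_vert h2
  exact h s t ht.symm

omit [Fintype V] in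
theorem SC.aMod {G : SimpleGraph V} {a : ℕ} {x : ℕ → V} (h : SC G a x) (t : ℕ) :
    x (t % a) = x t :=
  Function.Periodic.map_mod_nat (f := x) h.per t

omit [Fintype V] in
theorem SC.aReach {G : SimpleGraph V} {a : ℕ} {y : ℕ → V} (h : SC G a y) {F : Set (Sym2 V)}
    (hF : Disjoint F (Ed y)) (s t : ℕ) : (G.deleteEdges F).Reachable (y s) (y t) := by
  have h0 : ∀ t, (G.deleteEdges F).Reachable (y 0) (y t) := fun t => by
    induction t with
    | zero => rfl
    | succ t ih =>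
      exact ih.trans (SimpleGraph.Adj.reachable (SimpleGraph.deleteEdges_adj.2
        ⟨h.adj t, fun h' => hF.notMem_of_mem_left h' ⟨t, rfl⟩⟩))
  exact (h0 s).symm.trans (h0 t)

omit [Fintype V] in
theorem aCut {G : SimpleGraph V} {F : Set (Sym2 V)} {y z : ℕ → V} {u v : V}
    (h : (G.deleteEdges F).Reachable u v) (hv : ∃ t, y t = v) :
    ∃ t, (G.deleteEdges (F ∪ Ed z)).Reachable u (y t) ∨
      (G.deleteEdges (F ∪ Ed z)).Reachable u (z t) := by
  obtain ⟨p⟩ := h
  induction p with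
  | nil => obtain ⟨t, rfl⟩ := hv; exact ⟨t, Or.inl (by rfl)⟩
  | @cons u u' v h p ih =>
    by_cases hu : ∃ t, z t = u
    · obtain ⟨t, rfl⟩ := hu
      exact ⟨t, Or.inr (by rfl)⟩
    · obtain ⟨t, ht⟩ := ih hv
      have h' := SimpleGraph.deleteEdges_adj.1 h
      have h2 : (G.deleteEdges (F ∪ Ed z)).Reachable u u' := SimpleGraph.Adj.reachable
        (SimpleGraph.deleteEdges_adj.2 ⟨h'.1, fun e => e.elim h'.2 fun e => hu (aEd_vert e)⟩)
      exact ⟨t, ht.imp h2.trans h2.trans⟩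

/-- Three positions of `x` in different classes, each class meeting `y`. -/
def ABad (G : SimpleGraph V) (x y : ℕ → V) (p : ℕ × ℕ × ℕ) : Prop :=
  (∀ s ∈ [p.1, p.2.1, p.2.2], ∃ t, (G.deleteEdges (Ed x ∪ Ed y)).Reachable (x s) (y t)) ∧
    ¬ (G.deleteEdges (Ed x ∪ Ed y)).Reachable (x p.1) (x p.2.1) ∧
    ¬ (G.deleteEdges (Ed x ∪ Ed y)).Reachable (x p.2.2) (x p.1) ∧
    ¬ (G.deleteEdges (Ed x ∪ Ed y)).Reachable (x p.2.2) (x p.2.1)

omit [Fintype V] in
theorem aUniq {G : SimpleGraph V} {b c : ℕ} {x y z : ℕ → V} (hy : SC G b y) (hz : SC G c z)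
    (h1 : Disjoint (Ed x) (Ed y)) (h2 : Disjoint (Ed x) (Ed z)) (h3 : Disjoint (Ed y) (Ed z))
    {p : ℕ × ℕ × ℕ} (hb : ABad G x y p) (hc : ABad G x z p) : False := by
  have key : ∀ s ∈ [p.1, p.2.1, p.2.2], (G.deleteEdges (Ed x ∪ Ed z)).Reachable (x s) (y 0) ∨
      (G.deleteEdges (Ed x ∪ Ed y)).Reachable (x s) (z 0) := fun s hs => by
    obtain ⟨t, ht⟩ := hb.1 s hs
    obtain ⟨t, ht⟩ := aCut (z := z) ht ⟨t, rfl⟩
    refine ht.imp (fun h => (h.mono (SimpleGraph.deleteEdges_anti ?_)).trans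
      (hy.aReach (Set.disjoint_union_left.2 ⟨h1, h3.symm⟩) _ _))
      fun h => (h.mono (SimpleGraph.deleteEdges_anti Set.subset_union_left)).trans
        (hz.aReach (Set.disjoint_union_left.2 ⟨h2, h3⟩) _ _)
    exact Set.union_subset_union_left _ Set.subset_union_left
  rcases key p.1 (by simp) with k1 | k1 <;> rcases key p.2.1 (by simp) with k2 | k2 <;>
    rcases key p.2.2 (by simp) with k3 | k3
  all_goals first
    | exact hc.2.1 (k1.trans k2.symm)
    | exact hc.2.2.1 (k3.trans k1.symm)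
    | exact hc.2.2.2 (k3.trans k2.symm)
    | exact hb.2.1 (k1.trans k2.symm)
    | exact hb.2.2.1 (k3.trans k1.symm)
    | exact hb.2.2.2 (k3.trans k2.symm)

theorem aGood {G : SimpleGraph V} {a b l : ℕ} {x y : ℕ → V} (hx : SC G a x) (hy : SC G b y)
    (hal : a ≤ l) (hd : Disjoint (Ed x) (Ed y))
    (hg : ∀ p ∈ range l ×ˢ range l ×ˢ range l, ¬ ABad G x y p) : rat G (Ed x) (Ed y) ≤ 2 := by
  set H := G.deleteEdges (Ed x ∪ Ed y) with hH
  have key : ∃ v0 v1, ∀ s < l, (∃ t, H.Reachable (x s) (y t)) →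
      H.Reachable (x s) v0 ∨ H.Reachable (x s) v1 := by
    by_contra! hn
    obtain ⟨s0, l0, r0, -⟩ := hn (x 0) (x 0)
    obtain ⟨s1, l1, r1, n1, -⟩ := hn (x s0) (x s0)
    obtain ⟨s2, l2, r2, n2, n3⟩ := hn (x s0) (x s1)
    refine hg (s0, s1, s2) (by simp [l0, l1, l2]) ⟨fun s hs => ?_, fun h => n1 h.symm, n2, n3⟩
    simp only [List.mem_cons, List.not_mem_nil, or_false] at hs
    rcases hs with rfl | rfl | rfl <;> assumption
  obtain ⟨v0, v1, key⟩ := key
  have := rat_le' hx.ind_mem hy.ind_mem hd (index G _ _ hd v0 {v1} fun u w v w' hu hv huv => by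
    obtain ⟨s, rfl⟩ := aEd_vert hu
    obtain ⟨t, rfl⟩ := aEd_vert hv
    rw [← hx.aMod s] at huv ⊢
    have := hx.three
    simpa only [mem_singleton, exists_eq_left] using key _ ((Nat.mod_lt s (by omega)).trans_le hal) ⟨t, huv⟩)
  simpa using this

theorem caseA (G : SimpleGraph V) (K l r : ℕ) (hK : 1 ≤ K) (hr : r = K * l ^ 3 * 2 ^ l)
    (hl : 3 ≤ l) (a : Fin r → ℕ) (x : Fin r → ℕ → V) (hx : ∀ i, SC G (a i) (x i) ∧ a i ≤ l)
    (hd : ∀ i j, i ≠ j → ∀ s t, x i s ≠ x j t) :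
    (circ G : ℝ) ≤ (1 - (1 - 1 / K) ^ 2 / (2 + 2 / K)) * 2 ^ dim G := by
  have hD : ∀ i j, i ≠ j → Disjoint (Ed (x i)) (Ed (x j)) := fun i j h => aEd_disj (hd i j h)
  have hdim : ∀ i, dim G ≤ dim (G.deleteEdges (Ed (x i))) + l := fun i => by
    have := (hx i).1.dim_le
    have := (hx i).2
    omega
  have hr2 : r ≤ 2 ^ dim G := by
    rw [dim, ← card_el]
    have := card_le_card_of_injOn (s := univ) (t := el (Cy G)) (fun i => ind (Ed (x i)))
      (fun i _ => mem_el.2 (hx i).1.ind_mem) fun i _ j _ h => by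
        by_contra hn
        have h1 : s(x i 0, x i 1) ∈ Ed (x i) := ⟨0, rfl⟩
        have := congrFun h s(x i 0, x i 1)
        simp only [ind, h1, ↓ reduceIte, (hD i j hn).notMem_of_mem_left h1, one_ne_zero] at this
    simpa only [ge_iff_le, card_univ, Fintype.card_fin] using this
  have hl3 : 1 ≤ l ^ 3 := Nat.one_le_pow _ _ (by omega)
  have hK' : (1 : ℝ) ≤ K := by exact_mod_cast hK
  have hq : ((l : ℝ) ^ 3 * 2 ^ l) * K = r := by rw [hr]; push_cast; ring
  have hl3' : (1 : ℝ) ≤ (l : ℝ) ^ 3 := by exact_mod_cast hl3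
  have hr0 : (0 : ℝ) < r := by rw [← hq]; positivity
  have hrow : ∀ i, ∑ j, 1 * 1 * rat G (Ed (x i)) (Ed (x j)) ≤ r * (2 + 2 / (K : ℝ)) := fun i => by
    let B := univ.filter fun j => j ≠ i ∧ ∃ p ∈ range l ×ˢ range l ×ˢ range l, ABad G (x i) (x j) p
    have hB : #B ≤ l ^ 3 := by
      have h1 : ∀ j : Fin r, ∃ p : ℕ × ℕ × ℕ, j ∈ B →
          p ∈ range l ×ˢ range l ×ˢ range l ∧ ABad G (x i) (x j) p := fun j => by
        by_cases h : j ∈ B
        · obtain ⟨p, hp⟩ := (mem_filter.1 h).2.2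
          exact ⟨p, fun _ => hp⟩
        · exact ⟨0, fun h' => absurd h' h⟩
      choose p hp using h1
      have := card_le_card_of_injOn (s := B) p (fun j hj => (hp j hj).1) fun j hj j' hj' e => by
        by_contra hn
        exact aUniq (hx j).1 (hx j').1 (hD _ _ (mem_filter.1 hj).2.1.symm)
          (hD _ _ (mem_filter.1 hj').2.1.symm) (hD _ _ hn) (hp j hj).2 (e ▸ (hp j' hj').2)
      simpa only [pow_three, ge_iff_le, card_product, card_range] using this
    have h2 : ∀ j, 1 * 1 * rat G (Ed (x i)) (Ed (x j)) ≤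
        2 + if j ∈ insert i B then (2 : ℝ) ^ l else 0 := fun j => by
      rw [one_mul, one_mul]
      split_ifs with h
      · linarith only [rat_le (hx i).1.ind_mem (hdim j)]
      · simp only [B, mem_insert, mem_filter, mem_univ, true_and, not_or, not_and, not_exists] at h
        rw [add_zero]
        exact aGood (hx i).1 (hx j).1 (hx i).2 (hD _ _ (Ne.symm h.1)) (h.2 h.1)
    refine (sum_le_sum fun j _ => h2 j).trans ?_
    rw [sum_add_distrib, sum_ite_mem, univ_inter]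
    have h3 : (#(insert i B) : ℝ) ≤ 2 * (l : ℝ) ^ 3 := by
      have := card_insert_le i B
      exact_mod_cast (by omega : #(insert i B) ≤ 2 * l ^ 3)
    have h4 : (r : ℝ) * (2 / K) = 2 * (l : ℝ) ^ 3 * 2 ^ l := by rw [← hq]; field_simp
    simp only [sum_const, card_univ, Fintype.card_fin, nsmul_eq_mul]
    rw [mul_add, h4]
    gcongr
  have key := second_moment G univ (fun i => Ed (x i)) (fun _ => 1) K (r * (r * (2 + 2 / K))) hK'
    (fun _ _ => zero_le_one) (fun i _ => (hx i).1.ind_mem) (fun i _ => ⟨_, 0, rfl⟩)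
    (fun i _ => by
      have h1 : K * l ^ 3 * 2 ^ l ≤ 2 ^ dim (G.deleteEdges (Ed (x i))) * 2 ^ l := by
        rw [← hr, ← pow_add]
        exact hr2.trans (Nat.pow_le_pow_right (by norm_num) (hdim i))
      have h2 := Nat.le_of_mul_le_mul_right h1 (by positivity)
      exact_mod_cast (Nat.le_mul_of_pos_right K hl3).trans h2)
    ((sum_le_sum fun i _ => hrow i).trans (by simp only [sum_const, card_univ, Fintype.card_fin, nsmul_eq_mul, Std.le_refl]))
  simp only [sum_const, card_univ, Fintype.card_fin, nsmul_eq_mul, mul_one] at key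
  have h5 : (0 : ℝ) < 2 + 2 / K := by positivity
  rw [sub_mul, one_mul, le_sub_comm, div_mul_eq_mul_div, div_le_iff₀ h5]
  refine le_of_mul_le_mul_left ?_ (mul_pos hr0 hr0)
  calc _ = ((r : ℝ) * (1 - 1 / K)) ^ 2 * 2 ^ dim G := by ring
    _ ≤ _ := key
    _ = _ := by ring

theorem hit (G : SimpleGraph V) (l r : ℕ) :
    (∃ (a : Fin r → ℕ) (x : Fin r → ℕ → V), (∀ i, SC G (a i) (x i) ∧ a i ≤ l) ∧
      ∀ i j, i ≠ j → ∀ s t, x i s ≠ x j t) ∨
    ∃ D : Finset V, #D ≤ l * r ∧ Free G (↑D)ᶜ l := by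
  induction r with
  | zero => exact Or.inl ⟨Fin.elim0, Fin.elim0, fun i => i.elim0, fun i => i.elim0⟩
  | succ r ih =>
    rcases ih with ⟨a, x, hx, hd⟩ | ⟨D, h1, h2⟩
    swap
    · exact Or.inr ⟨D, h1.trans (Nat.mul_le_mul_left _ (Nat.le_succ r)), h2⟩
    let D : Finset V := (range l ×ˢ univ).image fun p : ℕ × Fin r => x p.2 p.1
    by_cases h : Free G (↑D)ᶜ l
    · refine Or.inr ⟨D, card_image_le.trans ?_, h⟩
      simpa only [card_product, card_range, card_univ, Fintype.card_fin, Nat.succ_eq_add_one] using Nat.mul_le_mul_left l (Nat.le_succ r)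
    obtain ⟨b, y, hy, hb, hD⟩ : ∃ b y, SC G b y ∧ b ≤ l ∧ ∀ t, y t ∈ (↑D : Set V)ᶜ := by
      by_contra hn
      exact h fun b y h1 h2 h3 => hn ⟨b, y, h1, h2, h3⟩
    have h3 : ∀ i s t, x i s ≠ y t := fun i s t e => hD t (mem_coe.2 (mem_image.2
      ⟨(s % a i, i), by
        have := (hx i).1.three
        simpa only [mem_product, mem_range, mem_univ, and_true, gt_iff_lt] using (Nat.mod_lt s (by omega)).trans_le (hx i).2, ((hx i).1.aMod s).trans e⟩))
    refine Or.inl ⟨Fin.cons b a, Fin.cons y x, fun i => Fin.cases ⟨hy, hb⟩ hx i, fun i j => ?_⟩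
    refine Fin.cases (Fin.cases (fun h => absurd rfl h) (fun j _ s t => (h3 j t s).symm) j)
      (fun i => Fin.cases (fun _ s t => h3 i s t) (fun j h => hd i j fun e => h (e ▸ rfl)) j) i

omit [Fintype V] in
theorem lSC {G : SimpleGraph V} {v : V} {c : G.Walk v v} (h : c.IsCycle) :
    SC G c.length (fun t => c.getVert (t % c.length)) ∧
      Ed (fun t => c.getVert (t % c.length)) = {e | e ∈ c.edges} := by
  have h3 := h.three_le_length
  have hs : ∀ t, c.getVert ((t + 1) % c.length) = c.getVert (t % c.length + 1) := fun t => by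
    have := Nat.mod_lt t (show 0 < c.length by omega)
    rw [← Nat.mod_add_mod]
    rcases Nat.lt_or_ge (t % c.length + 1) c.length with h' | h'
    · rw [Nat.mod_eq_of_lt h']
    · rw [show t % c.length + 1 = c.length by omega]
      simp
  refine ⟨⟨h3, fun t => by simp, fun t => ?_, fun s t hs' ht e => ?_⟩, ?_⟩
  · simp only [hs]
    exact c.adj_getVert_succ (Nat.mod_lt t (by omega))
  · simp only [Nat.mod_eq_of_lt hs', Nat.mod_eq_of_lt ht] at e
    exact h.getVert_injOn' (by simp only [Set.mem_ofPred_eq]; omega) (by simp only [Set.mem_ofPred_eq]; omega) e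
  · ext e
    simp only [Ed, hs, Set.mem_range, Set.mem_ofPred_eq]
    induction e using Sym2.ind with
    | _ u w =>
      rw [SimpleGraph.Walk.mk_mem_edges_iff_exists]
      exact ⟨fun ⟨t, h⟩ => ⟨_, Nat.mod_lt t (by omega), h⟩,
        fun ⟨t, h, e⟩ => ⟨t, by rwa [Nat.mod_eq_of_lt h]⟩⟩

theorem link (G : SimpleGraph V) : (cycleSets G).ncard ≤ circ G := by
  rw [circ, ← Set.ncard_coe_finset]
  refine Set.ncard_le_ncard_of_injOn ind (fun s hs => ?_) (fun s _ t _ e => ?_)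
  · obtain ⟨v, c, hc, rfl⟩ := hs
    have := (lSC hc).1.circ
    rw [(lSC hc).2] at this
    simpa using this
  · ext f
    have := congrFun e f
    by_cases h1 : f ∈ s <;> by_cases h2 : f ∈ t <;> simp_all [ind]

theorem rTr {V' : Type} [Fintype V'] {G : SimpleGraph V} {G' : SimpleGraph V'} {c : ℝ} {d0 : ℕ}
    (h : dim G = dim G' ∧ circ G ≤ circ G') (hd : d0 ≤ dim G)
    (h' : d0 ≤ dim G' → (circ G' : ℝ) ≤ c * 2 ^ dim G') : (circ G : ℝ) ≤ c * 2 ^ dim G := by
  rw [h.1] at hd ⊢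
  exact (Nat.cast_le.2 h.2).trans (h' hd)

theorem rCubic (c : ℝ) (d0 : ℕ)
    (h : ∀ G : SimpleGraph V, Red G → d0 ≤ dim G → (circ G : ℝ) ≤ c * 2 ^ dim G) (n : ℕ) :
    ∀ G : SimpleGraph V, ∑ v, #(nb G v) = n → (∀ v, #(nb G v) ≤ 3) → d0 ≤ dim G →
      (circ G : ℝ) ≤ c * 2 ^ dim G := by
  induction n using Nat.strong_induction_on with
  | _ n ih =>
  intro G hn h3 hd
  have step : ∀ (G' : SimpleGraph V) (v : V), dim G = dim G' ∧ circ G ≤ circ G' →
      (∀ w, #(nb G' w) ≤ #(nb G w)) → #(nb G' v) < #(nb G v) →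
      (circ G : ℝ) ≤ c * 2 ^ dim G := fun G' v h1 h2 h4 =>
    rTr h1 hd (ih _ (hn ▸ sum_lt_sum (fun w _ => h2 w) ⟨v, mem_univ v, h4⟩) G' rfl
      fun w => (h2 w).trans (h3 w))
  by_cases h1 : ∃ v, #(nb G v) = 1
  · obtain ⟨v, hv⟩ := h1
    obtain ⟨a, ha⟩ := card_eq_one.1 hv
    refine step (G.deleteEdges {s(v, a)}) v ?_ (fun w => card_le_card fun y hy =>
      mem_nb.2 (SimpleGraph.deleteEdges_adj.1 (mem_nb.1 hy)).1) ?_
    · exact ⟨by rw [dim, dim, leaf G ha], by simp only [circ, Circ, leaf G ha, le_refl]⟩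
    · rw [hv, Nat.lt_one_iff, card_eq_zero]
      refine eq_empty_of_forall_notMem fun y hy => ?_
      obtain ⟨h4, h5⟩ := SimpleGraph.deleteEdges_adj.1 (mem_nb.1 hy)
      have := mem_nb.2 h4
      rw [ha, mem_singleton] at this
      exact h5 (this ▸ rfl)
  by_cases h2 : ∃ v a b, nb G v = {a, b} ∧ a ≠ b ∧ ¬ G.Adj a b
  · obtain ⟨v, a, b, hv, hab, hn'⟩ := h2
    have ha : G.Adj v a := mem_nb.1 (by simp [hv])
    have hb : G.Adj v b := mem_nb.1 (by simp [hv])
    refine step (supp G v a b hab) v (supp_tr G hv hab hn') (fun w => ?_) ?_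
    · refine (card_le_card (t := (nb G w).image fun y => if y = v then if w = a then b else a else y)
        fun y hy => mem_image.2 ?_).trans card_image_le
      rcases mem_nb.1 hy with h4 | h4
      · exact ⟨y, mem_nb.2 h4.1, if_neg h4.2.2⟩
      · rcases Sym2.eq_iff.1 h4 with ⟨rfl, rfl⟩ | ⟨rfl, rfl⟩
        · exact ⟨v, mem_nb.2 ha.symm, by simp⟩
        · exact ⟨v, mem_nb.2 hb.symm, by simp [hab.symm]⟩
    · have : nb (supp G v a b hab) v = ∅ := eq_empty_of_forall_notMem fun y hy => by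
        rcases mem_nb.1 hy with h4 | h4
        · exact h4.2.1 rfl
        · simp [ha.ne, hb.ne] at h4
      simp [this, hv]
  exact h G ⟨h3, fun v hv => h1 ⟨v, hv⟩, fun v a b e hab => by_contra fun h' =>
    h2 ⟨v, a, b, e, hab, h'⟩⟩ hd

theorem reduce (c : ℝ) (d0 : ℕ)
    (h : ∀ (V : Type) [Fintype V] (G : SimpleGraph V), Red G → d0 ≤ dim G →
      (circ G : ℝ) ≤ c * 2 ^ dim G) (V : Type) [Fintype V] (G : SimpleGraph V)
    (hd : d0 ≤ dim G) : (circ G : ℝ) ≤ c * 2 ^ dim G := by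
  obtain ⟨n, hn⟩ : ∃ n, ∑ v, (#(nb G v) - 3) = n := ⟨_, rfl⟩
  induction n using Nat.strong_induction_on generalizing V with
  | _ n ih =>
  by_cases h3 : ∀ v, #(nb G v) ≤ 3
  · exact rCubic c d0 (h V) _ G rfl h3 hd
  obtain ⟨v, hv⟩ := not_forall.1 h3
  obtain ⟨a, ha, b, hb, hab⟩ := one_lt_card.1 (show 1 < #(nb G v) by omega)
  have hm : ∀ x y, (G.map Function.Embedding.some).Adj (some x) (some y) ↔ G.Adj x y :=
    fun x y => SimpleGraph.map_adj_apply (f := Function.Embedding.some)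
  have ho : ∀ y, ¬ (G.map Function.Embedding.some).Adj none y := fun y h => by
    obtain ⟨_, _, _, h, _⟩ := (SimpleGraph.map_adj _ _ _ _).1 h
    cases h
  have t1 := map_tr G
  have t2 := spl_tr _ ho ((hm v a).2 (mem_nb.1 ha)) ((hm v b).2 (mem_nb.1 hb)) (by simpa using hab)
  set G' := spl (G.map Function.Embedding.some) none (some v) (some a) (some b) with hG
  refine rTr ⟨t1.1.trans t2.1, t1.2.trans t2.2⟩ hd fun hd' => ih _ ?_ _ G' hd' rfl
  have hva := (mem_nb.1 ha).ne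
  have hvb := (mem_nb.1 hb).ne
  have a1 : ∀ y, G'.Adj none y → y = some v ∨ y = some a ∨ y = some b := fun y h' => by
    simp only [hG, spl, SimpleGraph.sup_adj, SimpleGraph.deleteEdges_adj, ho y, false_and,
      false_or, SimpleGraph.fromEdgeSet_adj] at h'
    simpa using h'.1
  have a2 : ∀ x y, G'.Adj (some x) (some y) →
      G.Adj x y ∧ s(x, y) ≠ s(v, a) ∧ s(x, y) ≠ s(v, b) := fun x y h' => by
    simp only [hG, spl, SimpleGraph.sup_adj, SimpleGraph.deleteEdges_adj, hm,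
      SimpleGraph.fromEdgeSet_adj] at h'
    simpa only [ne_eq, Sym2.eq, Sym2.rel_iff', Prod.mk.injEq, Prod.swap_prod_mk, not_or, not_and, Set.mem_insert_iff, Option.some.injEq, Set.mem_singleton_iff, reduceCtorEq, false_and, and_false, or_self, or_false] using h'
  have d1 : #(nb G' none) ≤ 3 :=
    (card_le_card (t := {some v, some a, some b}) fun y hy => by
      simpa using a1 y (mem_nb.1 hy)).trans card_le_three
  have d2 : #(nb G' (some v)) < #(nb G v) := by
    have := card_le_card (s := nb G' (some v))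
      (t := insert none ((((nb G v).erase a).erase b).image some)) fun y hy => by
        rcases y with _ | y
        · simp only [mem_insert, mem_image, mem_erase, ne_eq, reduceCtorEq, and_false, exists_false, or_false]
        · have := a2 v y (mem_nb.1 hy)
          simp only [mem_insert, mem_image, mem_erase, mem_nb]
          exact Or.inr ⟨y, ⟨fun e => this.2.2 (e ▸ rfl), fun e => this.2.1 (e ▸ rfl), this.1⟩, rfl⟩
    have h4 := card_insert_le none ((((nb G v).erase a).erase b).image some)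
    have h5 := card_image_le (s := ((nb G v).erase a).erase b) (f := some)
    rw [card_erase_of_mem (mem_erase.2 ⟨hab.symm, hb⟩), card_erase_of_mem ha] at h5
    omega
  have d3 : ∀ w, #(nb G' (some w)) ≤ #(nb G w) := fun w => by
    by_cases hw : w = v
    · exact hw ▸ d2.le
    refine (card_le_card (t := (nb G w).image fun y =>
      if y = v ∧ (w = a ∨ w = b) then none else some y) fun y hy => mem_image.2 ?_).trans
      card_image_le
    rcases y with _ | y
    · have h4 : w = a ∨ w = b := by simpa [hw] using a1 _ (mem_nb.1 hy).symm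
      exact ⟨v, mem_nb.2 (h4.elim (· ▸ (mem_nb.1 ha).symm) (· ▸ (mem_nb.1 hb).symm)), by simp [h4]⟩
    · have := a2 w y (mem_nb.1 hy)
      refine ⟨y, mem_nb.2 this.1, if_neg ?_⟩
      rintro ⟨rfl, rfl | rfl⟩
      exacts [this.2.1 Sym2.eq_swap, this.2.2 Sym2.eq_swap]
  rw [← hn, Fintype.sum_option, Nat.sub_eq_zero_of_le d1, zero_add]
  exact sum_lt_sum (fun w _ => Nat.sub_le_sub_right (d3 w) 3) ⟨v, mem_univ v, by omega⟩

theorem gBall {G : SimpleGraph V} {S : Set V} {u : ℕ} (hF : Free G S (2 * u)) (P : ℕ → V → Prop)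
    (hc : ∀ j < u, ∀ w w', P j w → G.Adj w w' → P (j + 1) w')
    (hP : ∀ j ≤ u, ∀ w, P j w → w ∈ S ∧ #(nb G w) = 3) {v : V} (h0 : P 0 v) (T : Finset V)
    (hT : ∀ w, P u w → w ∈ T) : 2 ^ u ≤ #T := by
  have ex : ∀ w p : V, ∃ c : Bool → V, #(nb G w) = 3 →
      (∀ b, G.Adj w (c b) ∧ c b ≠ p) ∧ Function.Injective c := fun w p => by
    by_cases h : #(nb G w) = 3
    · obtain ⟨a, ha, b, hb, hab⟩ := one_lt_card.1 (show 1 < #((nb G w).erase p) by
        have := pred_card_le_card_erase (s := nb G w) (a := p)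
        omega)
      rw [mem_erase, mem_nb] at ha hb
      refine ⟨fun t => if t then a else b, fun _ => ⟨fun t => ?_, fun s t e => ?_⟩⟩
      · cases t
        exacts [hb.symm, ha.symm]
      · cases s <;> cases t <;> simp_all
    · exact ⟨fun _ => w, fun h' => absurd h' h⟩
  choose c hc' using ex
  let z : (ℕ → Bool) → ℕ → V × V := fun β t =>
    Nat.rec (v, v) (fun t s => (s.2, c s.2 s.1 (β t))) t
  have hz : ∀ β t, z β (t + 1) = ((z β t).2, c (z β t).2 (z β t).1 (β t)) := fun _ _ => rfl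
  have h1 : ∀ β t, t ≤ u → P t (z β t).2 := fun β t => by
    induction t with
    | zero => exact fun _ => h0
    | succ t ih =>
      exact fun ht => hc t ht _ _ (ih (by omega))
        ((hc' _ _ (hP t (by omega) _ (ih (by omega))).2).1 _).1
  have h2 : ∀ β t, t ≤ u → _ := fun β t ht => hc' _ (z β t).1 (hP t ht _ (h1 β t ht)).2
  have h3 : ∀ β, NBW G u fun t => (z β t).2 := fun β =>
    ⟨fun t ht => ((h2 β t ht.le).1 _).1, fun t ht => ((h2 β (t + 1) (by omega)).1 _).2⟩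
  let ex : (Fin u → Bool) → ℕ → Bool := fun β t => if h : t < u then β ⟨t, h⟩ else true
  have := card_le_card_of_injOn (s := univ) (t := T) (fun β => (z (ex β) u).2)
    (fun β _ => hT _ (h1 _ u le_rfl)) fun β _ β' _ e => by
      have h4 := hF.uniq (h3 (ex β)) (h3 (ex β')) (fun t ht => (hP t ht _ (h1 _ t ht)).1)
        (fun t ht => (hP t ht _ (h1 _ t ht)).1) rfl e
      funext t
      have h5 : z (ex β) t = z (ex β') t := by
        refine Prod.ext ?_ (h4 t t.2.le)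
        obtain ⟨_ | t, ht⟩ := t
        · rfl
        · exact h4 t (by omega)
      have h6 := h4 (t + 1) t.2
      simp only [hz, h5] at h6
      simpa [ex] using (h2 _ t t.2.le).2 h6
  simpa only [ge_iff_le, card_univ, Fintype.card_pi, Fintype.card_bool, prod_const, Fintype.card_fin] using this

/-- A walk of length at most `n`. -/
def Nr (H : SimpleGraph V) (n : ℕ) (v w : V) : Prop := ∃ p : H.Walk v w, p.length ≤ n

omit [Fintype V] in
theorem Nr.trans {H : SimpleGraph V} {n m k : ℕ} {u v w : V} (h : Nr H n u v) (h' : Nr H m v w)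
    (hk : n + m ≤ k) : Nr H k u w :=
  h.elim fun p hp => h'.elim fun q hq => ⟨p.append q, by simp; omega⟩

omit [Fintype V] in
theorem Nr.mono {H G : SimpleGraph V} {n : ℕ} {u v : V} (h : Nr H n u v) (hG : H ≤ G) :
    Nr G n u v :=
  h.elim fun p hp => ⟨p.mapLe hG, by simpa using hp⟩

theorem gShort {G : SimpleGraph V} {U : Finset V} {S Om : Set V} {u : ℕ} {x y : ℕ → V}
    (hxO : ∀ t, x t ∈ Om) (hS : ∀ v ∈ Om, ∀ w (p : G.Walk v w), p.length ≤ 2 * u → w ∈ S)
    (hSU : ∀ w ∈ S, w ∈ U ∧ #(nb G w) = 3) (hF : Free G S (2 * u)) {s t : ℕ}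
    (h : (G.deleteEdges (Ed x ∪ Ed y)).Reachable (x s) (y t))
    (hs : #(U ∩ cls (G.deleteEdges (Ed x ∪ Ed y)) (x s)) < 2 ^ u) :
    ∃ s' t', (G.deleteEdges (Ed x ∪ Ed y)).Reachable (x s) (x s') ∧
      Nr (G.deleteEdges (Ed x ∪ Ed y)) (2 * u) (x s') (y t') := by
  set H := G.deleteEdges (Ed x ∪ Ed y) with hH
  have ex : ∃ n s' t', H.Reachable (x s) (x s') ∧ Nr H n (x s') (y t') :=
    h.elim fun p => ⟨_, s, t, by rfl, p, le_rfl⟩
  obtain ⟨s', t', h1, p, hp⟩ := Nat.find_spec ex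
  have hmin := fun m => Nat.find_min ex (m := m)
  generalize Nat.find ex = n at *
  by_cases hn : p.length ≤ 2 * u
  · exact ⟨s', t', h1, p, hn⟩
  have n1 : Nr H u (x s') (p.getVert u) := ⟨p.take _, by simp only [SimpleGraph.Walk.take_length, inf_le_left]⟩
  have n2 : Nr H (n - u) (p.getVert u) (y t') := ⟨p.drop _, by simp only [SimpleGraph.Walk.drop_length, tsub_le_iff_right]; omega⟩
  generalize p.getVert u = v at n1 n2
  have r1 : ∀ {j w}, Nr H j v w → H.Reachable (x s) w := fun h =>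
    h1.trans ((n1.trans h le_rfl).elim fun p _ => ⟨p⟩)
  have r2 : ∀ j ≤ u, ∀ w, Nr H j v w → w ∈ S := fun j hj w h =>
    ((n1.trans h (k := 2 * u) (by omega)).mono (G.deleteEdges_le _)).elim (hS _ (hxO s') w)
  refine absurd (gBall hF (fun j w => Nr H j v w) (fun j hj w w' hw ha => ?_)
    (fun j hj w hw => ⟨r2 j hj w hw, (hSU w (r2 j hj w hw)).2⟩) ⟨.nil, le_rfl⟩ _
    fun w hw => mem_inter.2 ⟨(hSU w (r2 u le_rfl w hw)).1, mem_cls.2 (r1 hw)⟩) hs.not_ge
  refine hw.trans (m := 1) ⟨.cons (SimpleGraph.deleteEdges_adj.2 ⟨ha, ?_⟩) .nil, by simp⟩ le_rfl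
  rintro (h' | h') <;> obtain ⟨r, rfl⟩ := Ed_vert h'
  · refine hmin (n - 1) (by omega) ⟨r, t', r1 hw, Nr.trans (n := j) ?_ n2 (by omega)⟩
    exact hw.elim fun q hq => ⟨q.reverse, by simpa using hq⟩
  · exact hmin (n - 1) (by omega) ⟨s', r, h1, n1.trans hw (by omega)⟩

theorem gArc {G : SimpleGraph V} {a q s s' : ℕ} {x : ℕ → V} (hx : SC G a x) (hq : 0 < q)
    (e : s / q = s' / q) : ∃ A ∈ Sup (Ed x), bd A = Pi.single (x s) 1 + Pi.single (x s') 1 ∧
      ∀ v w, A s(v, w) ≠ 0 → v ∈ (range q).image fun r => x (q * (s / q) + r) := by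
  wlog hs : s ≤ s' generalizing s s'
  · obtain ⟨A, h1, h2, h3⟩ := this e.symm (by omega)
    exact ⟨A, h1, h2.trans (add_comm _ _), e ▸ h3⟩
  have key : ∀ e, (∑ i ∈ Ico s s', (Pi.single s(x i, x (i + 1)) 1 : EV V)) e ≠ 0 →
      ∃ i ∈ Ico s s', e = s(x i, x (i + 1)) := fun e he => by
    rw [Finset.sum_apply] at he
    obtain ⟨i, hi, h⟩ := exists_ne_zero_of_sum_ne_zero he
    exact ⟨i, hi, by_contra fun h' => h (Pi.single_eq_of_ne h' _)⟩
  refine ⟨∑ i ∈ Ico s s', Pi.single s(x i, x (i + 1)) 1, fun e he => by_contra fun h => ?_, ?_,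
    fun v w h => ?_⟩
  · obtain ⟨i, -, rfl⟩ := key e h
    exact he (mem_Ed x i)
  · clear key e
    induction s', hs using Nat.le_induction with
    | base => simp [pi_add]
    | succ n hn ih =>
      rw [sum_Ico_succ_top hn, map_add, ih, bd_single (hx.adj n).ne, add_assoc,
        ← add_assoc (Pi.single (x n) 1), pi_add, zero_add]
  · obtain ⟨i, hi, h⟩ := key _ h
    have h1 := Nat.div_add_mod s q
    have h2 := Nat.div_add_mod s' q
    have h3 := Nat.mod_lt s' hq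
    rw [← e] at h2
    rw [mem_Ico] at hi
    have h4 : ∀ j, s ≤ j → j ≤ s' → x j ∈ (range q).image fun r => x (q * (s / q) + r) :=
      fun j j1 j2 => mem_image.2 ⟨j - q * (s / q), mem_range.2 (by omega), by congr 1; omega⟩
    rcases Sym2.eq_iff.1 h with h | h <;> rw [h.1] <;> exact h4 _ (by omega) (by omega)

theorem gCell {G : SimpleGraph V} {S Om : Set V} {u a b : ℕ} {x y : ℕ → V} (hu : 1 ≤ u)
    (hx : SC G a x) (hy : SC G b y) (hxO : ∀ t, x t ∈ Om) (hyO : ∀ t, y t ∈ Om)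
    (hd : ∀ s t, x s ≠ y t)
    (hS : ∀ v ∈ Om, ∀ w (p : G.Walk v w), p.length ≤ 2 * u → w ∈ S) (hF : Free G S (16 * u))
    {s t s' t' : ℕ} (h : Nr (G.deleteEdges (Ed x ∪ Ed y)) (2 * u) (x s) (y t))
    (h' : Nr (G.deleteEdges (Ed x ∪ Ed y)) (2 * u) (x s') (y t'))
    (e1 : s / (4 * u) = s' / (4 * u)) (e2 : t / (4 * u) = t' / (4 * u)) :
    (G.deleteEdges (Ed x ∪ Ed y)).Reachable (x s) (x s') := by
  set H := G.deleteEdges (Ed x ∪ Ed y) with hH
  by_contra hn
  obtain ⟨p, hp⟩ := h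
  obtain ⟨p', hp'⟩ := h'
  obtain ⟨A, a1, a2, a3⟩ := gArc hx (by omega) e1
  obtain ⟨B, b1, b2, b3⟩ := gArc hy (by omega) e2
  have hE : H.edgeSet = G.edgeSet \ (Ed x ∪ Ed y) := SimpleGraph.edgeSet_deleteEdges _
  have hG : ∀ {a} {x : ℕ → V}, SC G a x → ∀ e ∉ G.edgeSet, e ∉ Ed x := fun hx e he h => by
    obtain ⟨i, rfl⟩ := h
    exact he (hx.adj i)
  have hW : ∀ {s w} (p : H.Walk (x s) w), p.length ≤ 2 * u → ∀ v ∈ p.support, v ∈ S :=
    fun p hp v hv => hS _ (hxO _) v ((p.takeUntil v hv).mapLe (G.deleteEdges_le _))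
      (by simpa only [SimpleGraph.Walk.length_map] using (p.length_takeUntil_le_length hv).trans hp)
  have hC : ∀ (x : ℕ → V) i, (∀ t, x t ∈ Om) →
      ∀ v ∈ (range (4 * u)).image fun r => x (i + r), v ∈ S := fun x i hx v hv => by
    obtain ⟨r, -, rfl⟩ := mem_image.1 hv
    exact hS _ (hx _) _ .nil (by simp)
  refine even_cycle (G := G) (X := vec p + vec p' + A + B) ⟨fun e he => ?_, ?_⟩ (fun h0 => ?_)
    (p.support.toFinset ∪ p'.support.toFinset ∪
      (range (4 * u)).image (fun r => x (4 * u * (s / (4 * u)) + r)) ∪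
      (range (4 * u)).image fun r => y (4 * u * (t / (4 * u)) + r)) (fun v w h => ?_)
    (hF.mono (fun v hv => ?_) ?_)
  · simp [vec_sup p e (by simp [hE, he]), vec_sup p' e (by simp [hE, he]), a1 e (hG hx e he),
      b1 e (hG hy e he)]
  · show bd _ = 0
    simp only [map_add, bd_vec, a2, b2]
    funext v
    simp only [Pi.add_apply, Pi.zero_apply]
    generalize (Pi.single (x s) 1 : V → ZMod 2) v = c1
    generalize (Pi.single (x s') 1 : V → ZMod 2) v = c2
    generalize (Pi.single (y t) 1 : V → ZMod 2) v = c3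
    generalize (Pi.single (y t') 1 : V → ZMod 2) v = c4
    revert c1 c2 c3 c4
    decide
  · have h1 : vec p = 0 := funext fun e => by_contra fun he => by
      have h2 := p.edges_subset_edgeSet (vec_mem p he)
      rw [hE, Set.mem_sdiff, Set.mem_union, not_or] at h2
      have h3 := congrFun h0 e
      simp only [Pi.add_apply, a1 e h2.2.1, b1 e h2.2.2, add_zero, Pi.zero_apply] at h3
      induction e using Sym2.ind with
      | _ v w =>
        have h4 := p.fst_mem_support_of_mem_edges (vec_mem p he)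
        have h5 := p'.fst_mem_support_of_mem_edges (vec_mem p' (z2_eq h3 ▸ he))
        exact hn (SimpleGraph.Reachable.trans ⟨p.takeUntil v h4⟩ ⟨(p'.takeUntil v h5).reverse⟩)
    have := congrFun (bd_vec p) (x s)
    simp only [h1, map_zero, Pi.zero_apply, Pi.add_apply, Pi.single_eq_same, ne_eq, hd s t, not_false_eq_true, Pi.single_eq_of_ne, add_zero, zero_ne_one] at this
  · by_contra hv
    simp only [mem_union, List.mem_toFinset, not_or] at hv
    refine h ?_
    have h1 : vec p s(v, w) = 0 := by_contra fun h =>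
      hv.1.1.1 (p.fst_mem_support_of_mem_edges (vec_mem p h))
    have h2 : vec p' s(v, w) = 0 := by_contra fun h =>
      hv.1.1.2 (p'.fst_mem_support_of_mem_edges (vec_mem p' h))
    have h3 : A s(v, w) = 0 := by_contra fun h => hv.1.2 (a3 v w h)
    have h4 : B s(v, w) = 0 := by_contra fun h => hv.2 (b3 v w h)
    simp [h1, h2, h3, h4]
  · simp only [coe_union, Set.mem_union, mem_coe, List.mem_toFinset] at hv
    rcases hv with ((hv | hv) | hv) | hv
    exacts [hW p hp v hv, hW p' hp' v hv, hC x _ hxO v hv, hC y _ hyO v hv]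
  · refine (card_union_le _ _).trans ((Nat.add_le_add ((card_union_le _ _).trans (Nat.add_le_add
      ((card_union_le _ _).trans (Nat.add_le_add (List.toFinset_card_le _)
        (List.toFinset_card_le _))) card_image_le)) card_image_le).trans ?_)
    simp only [SimpleGraph.Walk.length_support, card_range]
    omega

theorem gGiant {G : SimpleGraph V} {U : Finset V} {a b m n : ℕ} {x y : ℕ → V} (hx : SC G a x)
    (hy : SC G b y) (hn : a + b ≤ n) (gap : ∀ K ⊆ U, ∀ F : Finset (Sym2 V), #F ≤ n →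
      (∀ v ∈ K, ∀ w ∈ U, w ∉ K → G.Adj v w → s(v, w) ∈ F) → #K < m ∨ #(U \ K) < m) :
    ∃ v0, ∀ v, (G.deleteEdges (Ed x ∪ Ed y)).Reachable v v0 ∨
      #(U ∩ cls (G.deleteEdges (Ed x ∪ Ed y)) v) < m := by
  set H := G.deleteEdges (Ed x ∪ Ed y) with hH
  by_contra! hn
  obtain ⟨v0, -, h0⟩ := hn (x 0)
  obtain ⟨v, h1, h2⟩ := hn v0
  rcases gap (U ∩ cls H v0) inter_subset_left ((range a).image (fun i => s(x i, x (i + 1))) ∪
    (range b).image fun i => s(y i, y (i + 1))) (((card_union_le _ _).trans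
      (Nat.add_le_add card_image_le card_image_le)).trans (by simpa)) (fun p hp q hq h3 h4 => by
        simp only [mem_inter, mem_cls] at hp h3
        have : s(p, q) ∈ Ed x ∪ Ed y := by_contra fun h =>
          h3 ⟨hq, hp.2.trans (SimpleGraph.deleteEdges_adj.2 ⟨h4, h⟩).reachable⟩
        simpa only [mem_union, mem_image, mem_range, Sym2.eq, Sym2.rel_iff', Prod.mk.injEq, Prod.swap_prod_mk] using this.imp hx.Ed_lt hy.Ed_lt) with h | h
  · omega
  · refine h.not_ge (h2.trans (card_le_card fun w hw => ?_))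
    simp only [mem_inter, mem_sdiff, mem_cls] at hw ⊢
    exact ⟨hw.1, fun h => h1 (hw.2.trans h.2.symm)⟩

theorem pair_rat (G : SimpleGraph V) (U : Finset V) (Om : ℕ → Set V) (u T m1 s : ℕ) (hu : 1 ≤ u)
    (deg : ∀ v ∈ U, #(nb G v) = 3) (h0 : Om 0 ⊆ U)
    (hs : ∀ j, ∀ v ∈ Om (j + 1), v ∈ Om j ∧ ∀ w, G.Adj v w → w ∈ Om j)
    (hF : Free G (Om 0) (16 * u))
    (gap : ∀ K ⊆ U, ∀ F : Finset (Sym2 V), #F ≤ 4 * T →
      (∀ v ∈ K, ∀ w ∈ U, w ∉ K → G.Adj v w → s(v, w) ∈ F) → #K < s ∨ #(U \ K) < s)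
    (hsu : s ≤ 2 ^ u) (hN : 2 * s ≤ #U) (hm : 2 * T ≤ m1 * (4 * u)) {a a' : ℕ} {x x' : ℕ → V}
    (hx : SC G a x) (hx' : SC G a' x') (ha : a ≤ 2 * T) (ha' : a' ≤ 2 * T)
    (hΩ : ∀ t, x t ∈ Om (2 * u)) (hΩ' : ∀ t, x' t ∈ Om (2 * u)) (hd : ∀ s t, x s ≠ x' t) :
    rat G (Ed x) (Ed x') ≤ 2 ^ (m1 ^ 2) ∧
      ((∀ s t, ∀ p : G.Walk (x s) (x' t), 2 * u < p.length) → rat G (Ed x) (Ed x') ≤ 1) := by
  have hO : ∀ v w (p : G.Walk v w) j, p.length ≤ j → v ∈ Om j → w ∈ Om 0 := fun v w p => by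
    induction p with
    | nil => exact fun j _ => j.rec id fun j ih h => ih (hs j _ h).1
    | cons h p ih =>
      rintro (_ | j) hj hv
      · simp at hj
      · exact ih j (by simpa using hj) ((hs j _ hv).2 _ h)
  have hS : ∀ v ∈ Om (2 * u), ∀ w (p : G.Walk v w), p.length ≤ 2 * u → w ∈ Om 0 :=
    fun v hv w p hp => hO v w p _ hp hv
  obtain ⟨v0, hv0⟩ := gGiant hx hx' (by omega) gap
  set H := G.deleteEdges (Ed x ∪ Ed x') with hH
  have key : ∀ Rep : Finset V, (∀ s < a, ∀ t < a', Nr H (2 * u) (x s) (x' t) →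
      ∃ z ∈ Rep, H.Reachable (x s) z) → rat G (Ed x) (Ed x') ≤ 2 ^ #Rep := fun Rep hR =>
    rat_le' hx.ind_mem hx'.ind_mem (Ed_disj hd) (index G _ _ (Ed_disj hd) v0 Rep
      fun v w v' w' hv hv' h => (hv0 v).imp id fun h1 => by
        obtain ⟨s, rfl⟩ := Ed_vert hv
        obtain ⟨t, rfl⟩ := Ed_vert hv'
        obtain ⟨s', t', h2, h3⟩ := gShort hΩ hS (fun w hw => ⟨h0 hw, deg w (h0 hw)⟩)
          (hF.mono le_rfl (by omega)) h (h1.trans_le hsu)
        rw [← hx.mod s'] at h2 h3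
        rw [← hx'.mod t'] at h3
        obtain ⟨z, hz, h4⟩ := hR _ (Nat.mod_lt _ hx.pos) _ (Nat.mod_lt _ hx'.pos) h3
        exact ⟨z, hz, h2.trans h4⟩)
  refine ⟨?_, fun h => by
    simpa using key ∅ fun s _ t _ h' => (h'.mono (G.deleteEdges_le _)).elim fun p hp =>
      absurd hp (h s t p).not_ge⟩
  have ex : ∀ c : ℕ × ℕ, ∃ z, ∀ s t, Nr H (2 * u) (x s) (x' t) → (s / (4 * u), t / (4 * u)) = c →
      H.Reachable (x s) z := fun c => by
    by_cases h : ∃ s t, Nr H (2 * u) (x s) (x' t) ∧ (s / (4 * u), t / (4 * u)) = c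
    · obtain ⟨s', t', h1, rfl⟩ := h
      exact ⟨x s', fun s t h2 e => gCell hu hx hx' hΩ hΩ' hd hS hF h2 h1 (congrArg Prod.fst e)
        (congrArg Prod.snd e)⟩
    · exact ⟨v0, fun s t h1 e => absurd ⟨s, t, h1, e⟩ h⟩
  choose z hz using ex
  refine (key ((range m1 ×ˢ range m1).image z) fun s hs t ht h =>
    ⟨_, mem_image_of_mem z ?_, hz _ s t h rfl⟩).trans
    (pow_le_pow_right₀ (by norm_num) (card_image_le.trans (by simp [sq])))
  simp only [mem_product, mem_range, Nat.div_lt_iff_lt_mul (show 0 < 4 * u by omega)]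
  omega

section
variable {G : SimpleGraph V}

/-- Darts starting in `P`. -/
noncomputable def dts (G : SimpleGraph V) (P : Finset V) : Finset (V × V) :=
  univ.filter fun d => d.1 ∈ P ∧ G.Adj d.1 d.2

theorem mem_dts {P : Finset V} {d : V × V} : d ∈ dts G P ↔ d.1 ∈ P ∧ G.Adj d.1 d.2 := by simp only [dts, mem_filter, mem_univ, true_and]

theorem fin_det (s : Set (ℕ → V)) (n : ℕ)
    (h : ∀ y ∈ s, ∀ y' ∈ s, (∀ t < n, y t = y' t) → y = y') : s.Finite :=
  Set.Finite.of_injOn (f := fun y (i : Fin n) => y i) (Set.mapsTo_univ _ _)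
    (fun y hy y' hy' e => h y hy y' hy' fun t ht => congrFun e ⟨t, ht⟩) Set.finite_univ

/-- Rooted oriented cycles of length `a` inside `S`. -/
noncomputable def SCs (G : SimpleGraph V) (S : Set V) (a : ℕ) : Finset (ℕ → V) :=
  (fin_det {x | SC G a x ∧ ∀ t, x t ∈ S} a fun _ hx _ hx' e => funext fun t => by
    rw [← hx.1.mod, ← hx'.1.mod, e _ (Nat.mod_lt _ hx.1.pos)]).toFinset

theorem mem_SCs {S : Set V} {a : ℕ} {x : ℕ → V} : x ∈ SCs G S a ↔ SC G a x ∧ ∀ t, x t ∈ S :=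
  Set.Finite.mem_toFinset _

/-- Non-backtracking walks of length `h` inside `S`, constant after time `h`. -/
noncomputable def Wk (G : SimpleGraph V) (S : Set V) (h : ℕ) : Finset (ℕ → V) :=
  (fin_det {y | NBW G h y ∧ (∀ t, y t ∈ S) ∧ ∀ t, h ≤ t → y t = y h} (h + 1)
    fun _ hy _ hy' e => funext fun t => by
      rcases Nat.lt_or_ge t (h + 1) with h1 | h1
      · exact e t h1
      · rw [hy.2.2 t (by omega), hy'.2.2 t (by omega), e h (by omega)]).toFinset

theorem mem_Wk {S : Set V} {h : ℕ} {y : ℕ → V} :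
    y ∈ Wk G S h ↔ NBW G h y ∧ (∀ t, y t ∈ S) ∧ ∀ t, h ≤ t → y t = y h :=
  Set.Finite.mem_toFinset _

/-- Pairs of walks of length `g + 1` with common ends and different first and last steps. -/
noncomputable def Cp (G : SimpleGraph V) (S : Set V) (g : ℕ) : Finset ((ℕ → V) × (ℕ → V)) :=
  (Wk G S (g + 1) ×ˢ Wk G S (g + 1)).filter fun p =>
    p.1 0 = p.2 0 ∧ p.1 (g + 1) = p.2 (g + 1) ∧ p.1 1 ≠ p.2 1 ∧ p.1 g ≠ p.2 g

/-- The weight of a rooted cycle of length `a`. -/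
noncomputable def wt (a : ℕ) : ℝ := 1 / (3 * a * 2 ^ a)

noncomputable def mass (G : SimpleGraph V) (S : Set V) (T : ℕ) : ℝ :=
  ∑ a ∈ range (2 * T + 1), #(SCs G S a) * wt a

/-- Vertices at distance at most `j` from `S`. -/
noncomputable def ball (G : SimpleGraph V) (S : Finset V) : ℕ → Finset V
  | 0 => S
  | j + 1 => ball G S j ∪ (ball G S j).biUnion (nb G)

theorem card_dts (h3 : ∀ v, #(nb G v) ≤ 3) (P : Finset V) : #(dts G P) ≤ 3 * #P := by
  refine card_le_mul_card_image_of_maps_to (f := Prod.fst) (fun d hd => (mem_dts.1 hd).1) 3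
    fun v _ => le_trans (card_le_card_of_injOn Prod.snd (fun d hd => ?_) fun d hd d' hd' e => ?_)
      (h3 v)
  · obtain ⟨h1, h2⟩ := mem_filter.1 hd
    exact mem_nb.2 (h2 ▸ (mem_dts.1 h1).2)
  · exact Prod.ext ((mem_filter.1 hd).2.trans (mem_filter.1 hd').2.symm) e

theorem enc_ex (h3 : ∀ v, #(nb G v) ≤ 3) (u v : V) : ∃ c : V → Fin 2, G.Adj u v →
    Set.InjOn c ((nb G v).erase u) := by
  by_cases h : G.Adj u v
  · obtain ⟨c⟩ := Function.Embedding.nonempty_of_card_le (α := (nb G v).erase u) (β := Fin 2) (by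
      have := h3 v
      rw [Fintype.card_coe, card_erase_of_mem (mem_nb.2 h.symm), Fintype.card_fin]
      omega)
    refine ⟨fun w => if hw : w ∈ (nb G v).erase u then c ⟨w, hw⟩ else 0, fun _ w hw z hz e => ?_⟩
    simp only [dif_pos (mem_coe.1 hw), dif_pos (mem_coe.1 hz)] at e
    exact congrArg Subtype.val (c.injective e)
  · exact ⟨fun _ => 0, fun h' => absurd h' h⟩

theorem cnt (h3 : ∀ v, #(nb G v) ≤ 3) {α β : Type} (A : Finset α) (B : Finset β) (f : α → β)
    (y : α → ℕ → V) (n : ℕ) (hf : ∀ p ∈ A, f p ∈ B) (hy : ∀ p ∈ A, NBW G (n + 1) (y p))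
    (hi : ∀ p ∈ A, ∀ p' ∈ A, f p = f p' → y p 0 = y p' 0 ∧ y p 1 = y p' 1 ∧
      ((∀ t ≤ n + 1, y p t = y p' t) → p = p')) : #A ≤ #B * 2 ^ n := by
  choose c hc using enc_ex h3
  have := card_le_card_of_injOn (s := A) (t := B ×ˢ (univ : Finset (Fin n → Fin 2)))
    (fun p => (f p, fun i => c (y p i) (y p (i + 1)) (y p (i + 2)))) (fun p hp => by simp [hf p hp])
    fun p hp p' hp' e => by
      obtain ⟨e1, e2⟩ := Prod.ext_iff.1 e
      obtain ⟨h0, h1, h2⟩ := hi p hp p' hp' e1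
      have key : ∀ t ≤ n, y p t = y p' t ∧ y p (t + 1) = y p' (t + 1) := fun t ht => by
        induction t with
        | zero => exact ⟨h0, h1⟩
        | succ t ih =>
          obtain ⟨h4, h5⟩ := ih (by omega)
          have h6 := congrFun e2 ⟨t, ht⟩
          have m : ∀ q ∈ A, y q (t + 2) ∈ (nb G (y q (t + 1))).erase (y q t) := fun q hq =>
            mem_erase.2 ⟨(hy q hq).nb t (by omega), mem_nb.2 ((hy q hq).adj _ (by omega))⟩
          refine ⟨h5, hc _ _ ((hy p hp).adj t (by omega)) (m p hp) ?_ ?_⟩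
          · rw [h4, h5]
            exact m p' hp'
          · simpa [h4, h5] using h6
      refine h2 fun t ht => ?_
      rcases t with _ | t
      · exact h0
      · exact (key t (by omega)).2
  simpa only [ge_iff_le, card_product, card_univ, Fintype.card_pi, Fintype.card_fin, prod_const] using this

theorem cnt2 (h3 : ∀ v, #(nb G v) ≤ 3) {S : Set V} {R : ℕ} (hF : Free G S (2 * R)) {α β : Type}
    (A : Finset α) (B : Finset β) (f : α → β) (y : α → ℕ → V) (n : ℕ) (hf : ∀ p ∈ A, f p ∈ B)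
    (hy : ∀ p ∈ A, NBW G (n + 1 + R) (y p) ∧ ∀ t ≤ n + 1 + R, y p t ∈ S)
    (hi : ∀ p ∈ A, ∀ p' ∈ A, f p = f p' → y p 0 = y p' 0 ∧ y p 1 = y p' 1 ∧
      y p (n + 1 + R) = y p' (n + 1 + R) ∧ ((∀ t ≤ n + 1 + R, y p t = y p' t) → p = p')) :
    #A ≤ #B * 2 ^ n := by
  refine cnt h3 A B f y n hf (fun p hp => ⟨fun t ht => (hy p hp).1.adj t (by omega),
    fun t ht => (hy p hp).1.nb t (by omega)⟩) fun p hp p' hp' e => ?_
  obtain ⟨h0, h1, h2, h4⟩ := hi p hp p' hp' e
  refine ⟨h0, h1, fun h => h4 fun t ht => ?_⟩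
  rcases Nat.lt_or_ge t (n + 1) with h5 | h5
  · exact h t h5.le
  · have := hF.uniq ((hy p hp).1.shift (n + 1) R le_rfl) ((hy p' hp').1.shift (n + 1) R le_rfl)
      (fun t ht => (hy p hp).2 _ (by omega)) (fun t ht => (hy p' hp').2 _ (by omega))
      (h _ le_rfl) h2 (t - (n + 1)) (by omega)
    rwa [Nat.add_sub_cancel' h5] at this

theorem grow (A A' : Finset (ℕ → V)) (h : ℕ)
    (hA : ∀ y ∈ A, NBW G h y ∧ (∀ t, h ≤ t → y t = y h) ∧ #(nb G (y h)) = 3)
    (hA' : ∀ y ∈ A, ∀ y', NBW G (h + 1) y' → (∀ t ≤ h, y' t = y t) →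
      (∀ t, h + 1 ≤ t → y' t = y' (h + 1)) → y' ∈ A') : 2 * #A ≤ #A' := by
  rw [mul_comm, ← mul_one #A']
  refine card_mul_le_card_mul (fun y y' => ∀ t ≤ h, y' t = y t) (fun y hy => ?_) fun y' _ => ?_
  · obtain ⟨h1, -, h2⟩ := hA y hy
    refine le_trans ?_ (card_le_card_of_injOn (s := (nb G (y h)).erase (y (h - 1)))
      (fun w t => if t ≤ h then y t else w) (fun w hw => ?_) fun w _ w' _ e => ?_)
    · have := pred_card_le_card_erase (s := nb G (y h)) (a := y (h - 1))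
      omega
    · obtain ⟨h4, h5⟩ := mem_erase.1 hw
      have h6 : ∀ t ≤ h, (if t ≤ h then y t else w) = y t := fun t ht => if_pos ht
      refine (mem_bipartiteAbove _).2 ⟨hA' y hy _ ⟨fun t ht => ?_, fun t ht => ?_⟩ h6
        fun t ht => (if_neg (by omega)).trans (if_neg (by omega)).symm, h6⟩
      · beta_reduce
        rw [h6 t (by omega)]
        split_ifs with h7
        · exact h1.adj t h7
        · rw [show t = h by omega]
          exact mem_nb.1 h5
      · beta_reduce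
        rw [h6 t (by omega)]
        split_ifs with h7
        · exact h1.nb t h7
        · rwa [show t = h - 1 by omega]
    · simpa using congrFun e (h + 1)
  · refine card_le_one.2 fun y hy z hz => funext fun t => ?_
    obtain ⟨a1, a2⟩ := (mem_bipartiteBelow _).1 hy
    obtain ⟨b1, b2⟩ := (mem_bipartiteBelow _).1 hz
    rcases Nat.lt_or_ge t h with h1 | h1
    · rw [← a2 t h1.le, b2 t h1.le]
    · rw [(hA y a1).2.1 t h1, (hA z b1).2.1 t h1, ← a2 h le_rfl, b2 h le_rfl]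

theorem card_ball (h3 : ∀ v, #(nb G v) ≤ 3) (S : Finset V) (j : ℕ) :
    #(ball G S j) ≤ 4 ^ j * #S := by
  induction j with
  | zero => simp [ball]
  | succ j ih =>
    have := card_biUnion_le_card_mul (ball G S j) (nb G) 3 fun v _ => h3 v
    have := card_union_le (ball G S j) ((ball G S j).biUnion (nb G))
    rw [ball, pow_succ]
    nlinarith

theorem ball_adj {S : Finset V} {v w : V} {j : ℕ} (hv : v ∈ ball G S j) (h : G.Adj v w) :
    w ∈ ball G S (j + 1) := mem_union_right _ (mem_biUnion.2 ⟨v, hv, mem_nb.2 h⟩)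

theorem ball_mono {S : Finset V} {i j : ℕ} (h : i ≤ j) : ball G S i ⊆ ball G S j := by
  induction h with
  | refl => exact subset_rfl
  | step _ ih => exact ih.trans subset_union_left

theorem mem_ball {S : Finset V} {v w : V} (hv : v ∈ S) (p : G.Walk v w) {j : ℕ}
    (hp : p.length ≤ j) : w ∈ ball G S j := by
  have : ∀ i, v ∈ ball G S i → w ∈ ball G S (i + p.length) := by
    clear hv hp
    induction p with
    | nil => exact fun _ h => h
    | cons h p ih =>
      intro i hi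
      have := ih (i + 1) (ball_adj hi h)
      rwa [add_right_comm, add_assoc] at this
  exact ball_mono (by omega) (this 0 hv)

theorem P_cs {α β : Type} (W : Finset α) (E : Finset β) (φ : α → β) (h : ∀ y ∈ W, φ y ∈ E) :
    #W ^ 2 ≤ #E * #((W ×ˢ W).filter fun p => φ p.1 = φ p.2) := by
  rw [card_eq_sum_card_fiberwise (f := φ) (t := E) h,
    card_eq_sum_card_fiberwise (f := fun p : α × α => φ p.1) (t := E)
      fun p hp => h _ (mem_product.1 (mem_filter.1 hp).1).1]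
  refine sq_sum_le_card_mul_sum_sq.trans (Nat.mul_le_mul_left _ (sum_le_sum fun e _ => ?_))
  rw [sq, ← card_product]
  refine card_le_card fun p hp => ?_
  simp only [mem_product, mem_filter] at hp ⊢
  exact ⟨⟨⟨hp.1.1, hp.2.1⟩, hp.1.2.trans hp.2.2.symm⟩, hp.1.2⟩

omit [Fintype V] in
theorem P_ext {h : ℕ} {y y' : ℕ → V} (hy : ∀ t, h ≤ t → y t = y h) (hy' : ∀ t, h ≤ t → y' t = y' h)
    (e : ∀ t ≤ h, y t = y' t) : y = y' := funext fun t => by
  rcases le_total t h with h1 | h1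
  · exact e t h1
  · rw [hy t h1, hy' t h1, e h le_rfl]

theorem P_step (h3 : ∀ v, #(nb G v) ≤ 3) {Ω B : Finset V} (deg : ∀ v ∈ Ω, #(nb G v) = 3)
    (hB : ∀ v ∈ Ω, ∀ w, G.Adj v w → w ∈ Ω ∨ w ∈ B) (h : ℕ) :
    2 * #(Wk G Ω h) ≤ #(Wk G Ω (h + 1)) + 3 * #B * 2 ^ h := by
  have h1 : #((Wk G Set.univ (h + 1)).filter fun y => y (h + 1) ∈ B) ≤ #(dts G B) * 2 ^ h := by
    refine cnt h3 _ _ (fun y => (y (h + 1), y h)) (fun y t => y (h + 1 - t)) h (fun y hy => ?_)
      (fun y hy => (mem_Wk.1 (mem_filter.1 hy).1).1.rev _ _ le_rfl le_rfl) fun y hy y' hy' e => ?_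
    · exact mem_dts.2 ⟨(mem_filter.1 hy).2, ((mem_Wk.1 (mem_filter.1 hy).1).1.adj h (by omega)).symm⟩
    · refine ⟨(Prod.ext_iff.1 e).1, (Prod.ext_iff.1 e).2, fun e' =>
        P_ext (mem_Wk.1 (mem_filter.1 hy).1).2.2 (mem_Wk.1 (mem_filter.1 hy').1).2.2 fun t ht => ?_⟩
      have := e' (h + 1 - t) (by omega)
      rwa [show h + 1 - (h + 1 - t) = t by omega] at this
  refine (grow (G := G) _ (Wk G Ω (h + 1) ∪ (Wk G Set.univ (h + 1)).filter fun y => y (h + 1) ∈ B) h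
    (fun y hy => ?_) fun y hy y' n1 e c => ?_).trans ((card_union_le _ _).trans
      (Nat.add_le_add_left (h1.trans (Nat.mul_le_mul_right _ (card_dts h3 B))) _))
  · obtain ⟨a, b, c⟩ := mem_Wk.1 hy
    exact ⟨a, c, deg _ (b h)⟩
  · obtain ⟨-, b, -⟩ := mem_Wk.1 hy
    rcases hB (y' h) (e h le_rfl ▸ b h) _ (n1.adj h (by omega)) with h2 | h2
    · refine mem_union_left _ (mem_Wk.2 ⟨n1, fun t => ?_, c⟩)
      rcases le_or_gt t h with h4 | h4
      · exact e t h4 ▸ b t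
      · exact c t h4 ▸ h2
    · exact mem_union_right _ (mem_filter.2 ⟨mem_Wk.2 ⟨n1, fun _ => trivial, c⟩, h2⟩)

theorem P_many (h3 : ∀ v, #(nb G v) ≤ 3) {Ω B : Finset V} (deg : ∀ v ∈ Ω, #(nb G v) = 3)
    (hB : ∀ v ∈ Ω, ∀ w, G.Adj v w → w ∈ Ω ∨ w ∈ B) (h : ℕ) :
    2 * (2 ^ h * #Ω) ≤ 2 * #(Wk G Ω h) + 2 ^ h * (3 * h * #B) := by
  induction h with
  | zero =>
    have : #Ω ≤ #(Wk G Ω 0) := card_le_card_of_injOn (fun v _ => v)
      (fun v hv => mem_coe.2 (mem_Wk.2 ⟨⟨by omega, by omega⟩, fun _ => hv, fun _ _ => rfl⟩))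
      fun v _ w _ e => congrFun e 0
    omega
  | succ h ih =>
    have := P_step h3 deg hB h
    rw [pow_succ]
    linarith only [ih, this]

/-- Pairs of walks with common ends. -/
noncomputable def PA (G : SimpleGraph V) (S : Set V) (h : ℕ) : Finset ((ℕ → V) × (ℕ → V)) :=
  (Wk G S h ×ˢ Wk G S h).filter fun p => (p.1 0, p.1 h) = (p.2 0, p.2 h)

theorem P_mem {S : Set V} {h : ℕ} {p : (ℕ → V) × (ℕ → V)} : p ∈ PA G S h ↔
    (p.1 ∈ Wk G S h ∧ p.2 ∈ Wk G S h) ∧ p.1 0 = p.2 0 ∧ p.1 h = p.2 h := by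
  simp only [PA, mem_filter, mem_product, Prod.mk.injEq]

theorem P_one (h3 : ∀ v, #(nb G v) ≤ 3) (Ω : Finset V) : #(PA G Ω 1) ≤ 3 * #Ω := by
  refine (card_le_card_of_injOn (fun p => (p.1 0, p.1 1)) (fun p hp => ?_)
    fun p hp q hq e => ?_).trans (card_dts h3 Ω)
  · obtain ⟨a, b, -⟩ := mem_Wk.1 (P_mem.1 hp).1.1
    exact mem_coe.2 (mem_dts.2 ⟨b 0, a.adj 0 one_pos⟩)
  · obtain ⟨⟨p1, p2⟩, p3, p4⟩ := P_mem.1 hp
    obtain ⟨⟨q1, q2⟩, q3, q4⟩ := P_mem.1 hq
    obtain ⟨e1, e2⟩ : p.1 0 = q.1 0 ∧ p.1 1 = q.1 1 := Prod.ext_iff.1 e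
    refine Prod.ext (P_ext (mem_Wk.1 p1).2.2 (mem_Wk.1 q1).2.2 fun t ht => ?_)
      (P_ext (mem_Wk.1 p2).2.2 (mem_Wk.1 q2).2.2 fun t ht => ?_) <;>
      obtain rfl | rfl : t = 0 ∨ t = 1 := by omega
    exacts [e1, e2, p3 ▸ q3 ▸ e1, p4 ▸ q4 ▸ e2]

theorem P_cut {S : Set V} {h : ℕ} {y : ℕ → V} (hy : y ∈ Wk G S (h + 1)) :
    (fun t => y (min t h)) ∈ Wk G S h := by
  obtain ⟨a, b, -⟩ := mem_Wk.1 hy
  refine mem_Wk.2 ⟨⟨fun t ht => ?_, fun t ht => ?_⟩, fun t => b _, fun t ht => ?_⟩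
  · rw [min_eq_left ht.le, min_eq_left ht]
    exact a.adj t (by omega)
  · rw [min_eq_left ht, min_eq_left (by omega)]
    exact a.nb t (by omega)
  · rw [min_eq_right ht, min_self]

theorem P_sh {S : Set V} {h : ℕ} {y : ℕ → V} (hy : y ∈ Wk G S (h + 1)) :
    (fun t => y (t + 1)) ∈ Wk G S h := by
  obtain ⟨a, b, c⟩ := mem_Wk.1 hy
  exact mem_Wk.2 ⟨⟨fun t ht => a.adj _ (by omega), fun t ht => a.nb _ (by omega)⟩, fun t => b _,
    fun t ht => c _ (by omega)⟩

theorem P_A (h3 : ∀ v, #(nb G v) ≤ 3) (S : Set V) (g : ℕ) : #(PA G S (g + 2)) ≤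
    #((PA G S (g + 2)).filter fun p => p.1 (g + 1) ≠ p.2 (g + 1)) + #(PA G S (g + 1)) * 2 ^ 1 := by
  rw [← card_filter_add_card_filter_not (s := PA G S (g + 2)) fun p => p.1 (g + 1) ≠ p.2 (g + 1)]
  refine Nat.add_le_add_left (cnt h3 _ _
    (fun p => (fun t => p.1 (min t (g + 1)), fun t => p.2 (min t (g + 1))))
    (fun p t => p.1 (g + t)) 1 (fun p hp => ?_)
    (fun p hp => (mem_Wk.1 (P_mem.1 (mem_filter.1 hp).1).1.1).1.shift g 2 le_rfl)
    fun p hp q hq e => ?_) _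
  · obtain ⟨⟨p1, p2⟩, p3, -⟩ := P_mem.1 (mem_filter.1 hp).1
    exact P_mem.2 ⟨⟨P_cut p1, P_cut p2⟩, by simpa using p3, by simpa using (mem_filter.1 hp).2⟩
  · obtain ⟨⟨p1, p2⟩, -, p4⟩ := P_mem.1 (mem_filter.1 hp).1
    obtain ⟨⟨q1, q2⟩, -, q4⟩ := P_mem.1 (mem_filter.1 hq).1
    have e1 : ∀ t ≤ g + 1, p.1 t = q.1 t := fun t ht => by
      simpa only [min_eq_left ht] using congrFun (Prod.ext_iff.1 e).1 t
    have e2 : ∀ t ≤ g + 1, p.2 t = q.2 t := fun t ht => by
      simpa only [min_eq_left ht] using congrFun (Prod.ext_iff.1 e).2 t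
    refine ⟨e1 _ (by omega), e1 _ le_rfl, fun e' => ?_⟩
    have e3 : p.1 (g + 2) = q.1 (g + 2) := e' 2 le_rfl
    refine Prod.ext (P_ext (mem_Wk.1 p1).2.2 (mem_Wk.1 q1).2.2 fun t ht => ?_)
      (P_ext (mem_Wk.1 p2).2.2 (mem_Wk.1 q2).2.2 fun t ht => ?_) <;>
      obtain h | rfl : t ≤ g + 1 ∨ t = g + 2 := by omega
    exacts [e1 t h, e3, e2 t h, p4 ▸ q4 ▸ e3]

theorem P_B (h3 : ∀ v, #(nb G v) ≤ 3) (S : Set V) (g : ℕ) :
    #((PA G S (g + 2)).filter fun p => p.1 (g + 1) ≠ p.2 (g + 1)) ≤ #(Cp G S (g + 1)) +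
      #((PA G S (g + 1)).filter fun p => p.1 g ≠ p.2 g) * 2 ^ 1 := by
  rw [← card_filter_add_card_filter_not
    (s := (PA G S (g + 2)).filter fun p => p.1 (g + 1) ≠ p.2 (g + 1)) fun p => p.1 1 ≠ p.2 1]
  refine Nat.add_le_add (card_le_card fun p hp => ?_) (cnt h3 _ _
    (fun p => (fun t => p.1 (t + 1), fun t => p.2 (t + 1))) (fun p t => p.1 (2 - t)) 1
    (fun p hp => ?_) (fun p hp => (mem_Wk.1 (P_mem.1
      (mem_filter.1 (mem_filter.1 hp).1).1).1.1).1.rev 2 2 (by omega) le_rfl) fun p hp q hq e => ?_)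
  · obtain ⟨a, b⟩ := mem_filter.1 (mem_filter.1 hp).1
    obtain ⟨p1, p3, p4⟩ := P_mem.1 a
    exact mem_filter.2 ⟨mem_product.2 p1, p3, p4, (mem_filter.1 hp).2, b⟩
  · obtain ⟨a, b⟩ := mem_filter.1 (mem_filter.1 hp).1
    obtain ⟨⟨p1, p2⟩, -, p4⟩ := P_mem.1 a
    exact mem_filter.2 ⟨P_mem.2 ⟨⟨P_sh p1, P_sh p2⟩, not_not.1 (mem_filter.1 hp).2, p4⟩, b⟩
  · obtain ⟨⟨p1, p2⟩, p3, -⟩ := P_mem.1 (mem_filter.1 (mem_filter.1 hp).1).1
    obtain ⟨⟨q1, q2⟩, q3, -⟩ := P_mem.1 (mem_filter.1 (mem_filter.1 hq).1).1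
    have e1 : ∀ t, p.1 (t + 1) = q.1 (t + 1) := congrFun (Prod.ext_iff.1 e).1
    have e2 : ∀ t, p.2 (t + 1) = q.2 (t + 1) := congrFun (Prod.ext_iff.1 e).2
    refine ⟨e1 1, e1 0, fun e' => ?_⟩
    have e3 : p.1 0 = q.1 0 := e' 2 le_rfl
    refine Prod.ext (funext fun t => ?_) (funext fun t => ?_) <;> rcases t with _ | t
    exacts [e3, e1 t, p3 ▸ q3 ▸ e3, e2 t]

theorem P_sum {u v : ℕ → ℝ} (hu : ∀ g, 0 ≤ u g) (hv : 0 ≤ v 0) (h0 : u 0 = 0)
    (h : ∀ g, u (g + 1) ≤ v (g + 1) + u g / 2) (T : ℕ) :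
    ∑ g ∈ range T, u g / (g + 1) ≤ 2 * ∑ g ∈ range T, v g / (g + 1) := by
  have key : ∀ T : ℕ, ∑ g ∈ range (T + 1), u g / (g + 1) + u T / (T + 1) ≤
      2 * ∑ g ∈ range (T + 1), v g / (g + 1) := fun T => by
    induction T with
    | zero => simpa only [zero_add, range_one, sum_singleton, h0, CharP.cast_eq_zero, div_one, add_zero, Nat.ofNat_pos, mul_nonneg_iff_of_pos_left] using hv
    | succ T ih =>
      have h1 := div_le_div_of_nonneg_right (h T) (show (0 : ℝ) ≤ (T + 1 : ℕ) + 1 by positivity)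
      have h2 : u T / ((T + 1 : ℕ) + 1) ≤ u T / (T + 1) :=
        div_le_div_of_nonneg_left (hu T) (by positivity) (by push_cast; linarith only [])
      rw [add_div, div_right_comm] at h1
      rw [sum_range_succ _ (T + 1), sum_range_succ _ (T + 1)]
      linarith
  rcases T with _ | T
  · simp
  · have : 0 ≤ u T / (T + 1) := div_nonneg (hu T) (by positivity)
    linarith [key T]

theorem P_harm {u : ℕ → ℝ} (hu : ∀ g, 0 ≤ u g) {L : ℕ} (hL : 1 ≤ L) (k : ℕ)
    (h : ∀ g, L ≤ g → g < 2 ^ k * L → 1 / 16 ≤ u g) :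
    (k : ℝ) / 32 ≤ ∑ g ∈ range (2 ^ k * L), u g / (g + 1) := by
  induction k with
  | zero => exact (by simp : _ ≤ (0 : ℝ)).trans (sum_nonneg fun g _ => div_nonneg (hu g) (by positivity))
  | succ k ih =>
    have e : 2 ^ (k + 1) * L = 2 ^ k * L + 2 ^ k * L := by ring
    have hM : L ≤ 2 ^ k * L := Nat.le_mul_of_pos_left _ (by positivity)
    rw [e] at h ⊢
    have ih := ih fun g a b => h g a (by omega)
    generalize 2 ^ k * L = M at *
    have M0 : (0 : ℝ) < M := by exact_mod_cast (show 0 < M by omega)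
    have := card_nsmul_le_sum (range M) (fun g => u (M + g) / ((M + g : ℕ) + 1)) (1 / 32 / M)
      fun g hg => by
        have h1 : ((M + g : ℕ) + 1 : ℝ) ≤ 2 * M := by
          exact_mod_cast (show M + g + 1 ≤ 2 * M by have := mem_range.1 hg; omega)
        refine le_trans (le_of_eq (by field_simp; norm_num)) (div_le_div₀ (hu _)
          (h _ (by omega) (by have := mem_range.1 hg; omega)) (by positivity) h1)
    rw [card_range, nsmul_eq_mul, mul_div_cancel₀ _ M0.ne'] at this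
    rw [sum_range_add]
    push_cast at this ⊢
    linarith only [ih, this]

theorem pairs_many (h3 : ∀ v, #(nb G v) ≤ 3) (Ω B : Finset V) (L k T : ℕ) (hT : T = 2 ^ k * L)
    (hL0 : 1 ≤ L) (deg : ∀ v ∈ Ω, #(nb G v) = 3) (hB : ∀ v ∈ Ω, ∀ w, G.Adj v w → w ∈ Ω ∨ w ∈ B)
    (hβ : 3 * T * #B ≤ #Ω) (hne : Ω.Nonempty) (hL : 4 * #Ω ≤ 2 ^ L) :
    (k : ℝ) / 128 ≤ ∑ g ∈ range T, (#(Cp G Ω g) : ℝ) / ((g + 1) * 4 ^ (g + 1)) := by
  have n0 := card_pos.2 hne
  have hA : ∀ h ≤ T, 4 ^ h ≤ 4 * #(PA G Ω h) := fun h hh => by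
    have h1 := P_many h3 deg hB h
    have h2 : 2 ^ h * (3 * h * #B) ≤ 2 ^ h * #Ω := Nat.mul_le_mul_left _
      ((Nat.mul_le_mul_right _ (Nat.mul_le_mul_left _ hh)).trans hβ)
    have h4 : #(Wk G Ω h) ^ 2 ≤ #(Ω ×ˢ Ω) * #(PA G Ω h) := by
      convert P_cs (Wk G Ω h) (Ω ×ˢ Ω) (fun y => (y 0, y h)) fun y hy =>
        mem_product.2 ⟨(mem_Wk.1 hy).2.1 0, (mem_Wk.1 hy).2.1 h⟩
      unfold PA
      congr
    have h5 := Nat.pow_le_pow_left (show 2 ^ h * #Ω ≤ 2 * #(Wk G Ω h) by omega) 2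
    rw [card_product] at h4
    rw [mul_pow, mul_pow, ← pow_mul, mul_comm h, pow_mul] at h5
    exact Nat.le_of_mul_le_mul_right ((h5.trans (Nat.mul_le_mul_left _ h4)).trans_eq (by ring))
      (pow_pos n0 2)
  obtain ⟨b, hb⟩ : ∃ b : ℕ → ℝ, b = fun g =>
    (#((PA G Ω (g + 1)).filter fun p => p.1 g ≠ p.2 g) : ℝ) / 4 ^ (g + 1) := ⟨_, rfl⟩
  obtain ⟨a, ha⟩ : ∃ a : ℕ → ℝ, a = fun g =>
    (#(PA G Ω (g + 1)) : ℝ) / 4 ^ (g + 1) - 3 * #Ω / 2 ^ (g + 2) := ⟨_, rfl⟩
  have b0 : ∀ g, 0 ≤ b g := fun g => by rw [hb]; positivity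
  have s1 := P_sum (u := fun g => max (a g) 0) (fun g => le_max_right _ _) (b0 0) (by
    have : (#(PA G Ω 1) : ℝ) ≤ 3 * #Ω := by exact_mod_cast P_one h3 Ω
    refine max_eq_right ?_
    rw [ha]
    norm_num only [tsub_le_iff_right, zero_add]
    linarith only [this]) (fun g => by
    have h1 : (#(PA G Ω (g + 2)) : ℝ) ≤ _ := Nat.cast_le.2 (P_A h3 Ω g)
    have h2 : a (g + 1) ≤ b (g + 1) + a g / 2 := by
      have := div_le_div_of_nonneg_right h1 (show (0 : ℝ) ≤ 4 ^ (g + 2) by positivity)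
      rw [ha, hb]
      refine (sub_le_sub_right this _).trans_eq ?_
      push_cast
      field_simp
      ring
    have := b0 (g + 1)
    exact max_le (by linarith only [le_max_left (a g) 0, h2]) (by linarith only [le_max_right (a g) 0, this])) T
  have s2 := P_sum (v := fun g => (#(Cp G Ω g) : ℝ) / 4 ^ (g + 1)) b0 (by positivity) (by
    rw [hb]
    simp only [div_eq_zero_iff, Nat.cast_eq_zero, card_eq_zero, filter_eq_empty_iff]
    exact Or.inl fun p hp => not_not.2 (P_mem.1 hp).2.1) (fun g => by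
    have h1 : (_ : ℝ) ≤ _ := Nat.cast_le.2 (P_B h3 Ω g)
    rw [hb]
    refine (div_le_div_of_nonneg_right h1 (show (0 : ℝ) ≤ 4 ^ (g + 2) by positivity)).trans_eq ?_
    push_cast
    field_simp
    ring) T
  have s3 := P_harm (u := fun g => max (a g) 0) (fun g => le_max_right _ _) hL0 k fun g g1 g2 => by
    refine le_max_of_le_left ?_
    have h1 : (4 : ℝ) ^ (g + 1) ≤ 4 * #(PA G Ω (g + 1)) := by exact_mod_cast hA (g + 1) (by omega)
    have h2 : (16 : ℝ) * #Ω ≤ 2 ^ (g + 2) := by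
      have := Nat.pow_le_pow_right two_pos g1
      exact_mod_cast (show 16 * #Ω ≤ 2 ^ (g + 2) by rw [pow_add]; omega)
    have h4 : 1 / 4 ≤ (#(PA G Ω (g + 1)) : ℝ) / 4 ^ (g + 1) := by
      rw [le_div_iff₀ (by positivity)]
      linarith only [h1]
    have h5 : (3 * #Ω : ℝ) / 2 ^ (g + 2) ≤ 3 / 16 := by
      rw [div_le_iff₀ (by positivity)]
      linarith only [h2]
    rw [ha]
    linarith only [h4, h5]
  rw [← hT] at s3
  simp only [div_div, mul_comm ((4 : ℝ) ^ _)] at s2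
  linarith only [s1, s3, s2]

/-- Closed non-backtracking walks with a simple loop of length `a`. -/
theorem Mloop (h3 : ∀ v, #(nb G v) ≤ 3) {S : Set V} {R l a : ℕ} (hF : Free G S (2 * R))
    (A : Finset (ℕ → V))
    (hA : ∀ z ∈ A, (∀ t, z (t + l) = z t) ∧ (∀ n, NBW G n z) ∧ (∀ t, z t ∈ S) ∧
      ∃ i, i + a < l ∧ z (i + a) = z i ∧ SC G a fun t => z (i + t % a)) :
    #A * 2 ^ (a + R) ≤ l * #(SCs G S a) * 2 ^ l := by
  rcases A.eq_empty_or_nonempty with rfl | ⟨z0, h0⟩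
  · simp
  obtain ⟨n, rfl, ha⟩ : ∃ n, l = a + n + R ∧ 0 < a := by
    obtain ⟨p, w, s, i, h1, h2, h4⟩ := hA z0 h0
    refine ⟨l - a - R, ?_, h4.pos⟩
    by_contra hc
    exact hF.ne (w (i + l)) (fun t _ => s t) (i := i + a) (j := i + l) (by omega) le_rfl (by omega)
      (h2.trans (p i).symm)
  obtain ⟨b, rfl⟩ : ∃ b, a = b + 1 := ⟨a - 1, by omega⟩
  choose! ix h1 h2 h4 using fun z hz => (hA z hz).2.2.2
  have key := cnt2 h3 hF A (range (b + 1 + n + R) ×ˢ SCs G S (b + 1))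
    (fun z => (ix z, fun t => z (ix z + t % (b + 1)))) (fun z t => z (ix z + b + t)) n
    (fun z hz => mem_product.2 ⟨mem_range.2 (by have := h1 z hz; simp only; omega),
      mem_SCs.2 ⟨h4 z hz, fun _ => (hA z hz).2.2.1 _⟩⟩)
    (fun z hz => ⟨((hA z hz).2.1 _).shift _ _ le_rfl, fun _ _ => (hA z hz).2.2.1 _⟩)
    (fun z hz z' hz' e => by
      obtain ⟨e1, e2⟩ := Prod.mk.inj e
      have g1 := h2 z hz
      have g2 := h2 z' hz'
      have p1 := (hA z hz).1
      have p2 := (hA z' hz').1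
      rw [← e1] at e2 g2 ⊢
      generalize ix z = i at e2 g1 g2 ⊢
      have e3 : ∀ t ≤ b, z (i + t) = z' (i + t) := fun t ht => by
        simpa only [Nat.mod_eq_of_lt (Nat.lt_succ_of_le ht)] using congrFun e2 t
      have e4 : z i = z' i := e3 0 (by omega)
      refine ⟨e3 b le_rfl, g1.trans (e4.trans g2.symm), ?_, fun h => funext fun t => ?_⟩
      · rw [show i + b + (n + 1 + R) = i + (b + 1 + n + R) by omega, p1, p2, e4]
      · have e5 : ∀ t < b + 1 + n + R, z (i + t) = z' (i + t) := fun t ht => by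
          rcases le_or_gt t b with k | k
          · exact e3 t k
          · simpa only [show i + b + (t - b) = i + t by omega] using h (t - b) (by omega)
        generalize hl : b + 1 + n + R = l at p1 p2 e5
        have q : ∀ w : ℕ → V, (∀ t, w (t + l) = w t) → w t = w (i + (t + i * l - i) % l) :=
          fun w p => by
            have p' : Function.Periodic (fun s => w (i + s)) l := fun s => by
              simp only [← add_assoc, p]
            have := Nat.le_mul_of_pos_right i (show 0 < l by omega)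
            rw [p'.map_mod_nat, show i + (t + i * l - i) = t + i * l by omega]
            exact (Function.Periodic.nat_mul (f := w) p i t).symm
        rw [q z p1, q z' p2]
        exact e5 _ (Nat.mod_lt _ (by omega)))
  rw [card_product, card_range] at key
  calc _ ≤ (b + 1 + n + R) * #(SCs G S (b + 1)) * 2 ^ n * 2 ^ (b + 1 + R) := by gcongr
    _ = _ := by ring

theorem Mclosed (h3 : ∀ v, #(nb G v) ≤ 3) {S : Set V} {R l : ℕ} (hF : Free G S (2 * R))
    (hl : 0 < l) (A : Finset (ℕ → V))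
    (hA : ∀ z ∈ A, (∀ t, z (t + l) = z t) ∧ (∀ n, NBW G n z) ∧ ∀ t, z t ∈ S) :
    (#A : ℝ) ≤ #(SCs G S l) + ∑ a ∈ range l, (l * #(SCs G S a) * 2 ^ l / 2 ^ (a + R) : ℝ) := by
  let B : ℕ → Finset (ℕ → V) := fun a =>
    A.filter fun z => ∃ i, i + a < l ∧ z (i + a) = z i ∧ SC G a fun t => z (i + t % a)
  have h1 : A ⊆ SCs G S l ∪ (range l).biUnion B := fun z hz => by
    obtain ⟨p, w, s⟩ := hA z hz
    by_cases hi : ∀ s t, s < t → t < l → z s ≠ z t
    · refine mem_union_left _ (mem_SCs.2 ⟨⟨?_, p, fun t => (w _).adj t (Nat.lt_succ_self t),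
        fun s t hs ht e => ?_⟩, s⟩)
      · by_contra hc
        obtain rfl | rfl : l = 1 ∨ l = 2 := by omega
        · exact ((w 1).adj 0 one_pos).ne' (p 0)
        · exact (w 2).nb 0 le_rfl (p 0)
      · rcases lt_trichotomy s t with k | k | k
        · exact absurd e (hi s t k ht)
        · exact k
        · exact absurd e.symm (hi t s k hs)
    · push Not at hi
      obtain ⟨s, t, hst, ht, e⟩ := hi
      obtain ⟨i, a, -, k1, k2, k3⟩ := (w t).cycle hst le_rfl e
      exact mem_union_right _ (mem_biUnion.2 ⟨a, mem_range.2 (by omega),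
        mem_filter.2 ⟨hz, i, by omega, k2, k3⟩⟩)
  have h2 : #A ≤ #(SCs G S l) + ∑ a ∈ range l, #(B a) :=
    (card_le_card h1).trans ((card_union_le _ _).trans (Nat.add_le_add_left card_biUnion_le _))
  refine (Nat.cast_le.2 h2).trans ?_
  push_cast
  refine add_le_add_right (sum_le_sum fun a _ => ?_) _
  rw [le_div_iff₀ (by positivity)]
  exact_mod_cast Mloop h3 hF (B a) fun z hz => by
    obtain ⟨k1, k2⟩ := mem_filter.1 hz
    exact ⟨(hA z k1).1, (hA z k1).2.1, (hA z k1).2.2, k2⟩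

theorem Mpair (h3 : ∀ v, #(nb G v) ≤ 3) {S : Set V} {R : ℕ} (hF : Free G S (2 * R)) (g : ℕ) :
    (#(Cp G S g) : ℝ) ≤ #(SCs G S (2 * g + 2)) + ∑ a ∈ range (2 * g + 2),
      ((2 * g + 2 : ℕ) * #(SCs G S a) * 2 ^ (2 * g + 2) / 2 ^ (a + R) : ℝ) := by
  let z : (ℕ → V) × (ℕ → V) → ℕ → V := fun p t => glue (g + 1) (g + 1) p.1 p.2 (t % (2 * g + 2))
  have hm : ∀ p ∈ Cp G S g, (p.1 ∈ Wk G S (g + 1) ∧ p.2 ∈ Wk G S (g + 1)) ∧
      p.1 0 = p.2 0 ∧ p.1 (g + 1) = p.2 (g + 1) ∧ p.1 1 ≠ p.2 1 ∧ p.1 g ≠ p.2 g := fun p hp => by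
    rwa [Cp, mem_filter, mem_product] at hp
  have hi : Set.InjOn z (Cp G S g) := fun p hp p' hp' e => by
    obtain ⟨⟨a1, a2⟩, a3, a4, -⟩ := hm p hp
    obtain ⟨⟨b1, b2⟩, b3, b4, -⟩ := hm p' hp'
    have e1 : ∀ t < 2 * g + 2, glue (g + 1) (g + 1) p.1 p.2 t = glue (g + 1) (g + 1) p'.1 p'.2 t :=
      fun t ht => by simpa only [z, Nat.mod_eq_of_lt ht] using congrFun e t
    have e2 : ∀ t ≤ g + 1, p.1 t = p'.1 t := fun t ht => by
      simpa only [glue_le ht] using e1 t (by omega)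
    have e3 : ∀ t ≤ g + 1, p.2 t = p'.2 t := fun t ht => by
      rcases t.eq_zero_or_pos with rfl | k
      · rw [← a3, ← b3, e2 0 ht]
      · have := e1 (2 * g + 2 - t) (by omega)
        rwa [glue_ge a4 (by omega), glue_ge b4 (by omega),
          show g + 1 + (g + 1) - (2 * g + 2 - t) = t by omega] at this
    have e4 : ∀ y ∈ Wk G S (g + 1), ∀ y' ∈ Wk G S (g + 1), (∀ t ≤ g + 1, y t = y' t) → y = y' :=
      fun y hy y' hy' h => funext fun t => by
        rcases le_total t (g + 1) with k | k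
        · exact h t k
        · rw [(mem_Wk.1 hy).2.2 t k, (mem_Wk.1 hy').2.2 t k, h _ le_rfl]
    exact Prod.ext (e4 _ a1 _ b1 e2) (e4 _ a2 _ b2 e3)
  rw [← card_image_of_injOn hi]
  refine Mclosed h3 hF (by omega) _ fun w hw => ?_
  obtain ⟨p, hp, rfl⟩ := mem_image.1 hw
  obtain ⟨⟨a1, a2⟩, a3, a4, a5, a6⟩ := hm p hp
  rw [mem_Wk] at a1 a2
  have hg := a1.1.glue a2.1 a4 a6
  rw [show g + 1 + (g + 1) = 2 * g + 2 by omega] at hg
  refine ⟨fun t => by simp only [z, Nat.add_mod_right], hg.periodize ?_ ?_, fun t => ?_⟩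
  · rw [glue_ge a4 (by omega), glue_le (by omega), a3,
      show g + 1 + (g + 1) - (2 * g + 2) = 0 by omega]
  · rcases g.eq_zero_or_pos with rfl | k
    · exact absurd a4 a5
    · rwa [glue_le (by omega), glue_ge a4 (by omega),
        show g + 1 + (g + 1) - (2 * g + 1) = 1 by omega]
  · simp only [z, glue]
    split_ifs
    · exact a1.2.1 _
    · exact a2.2.1 _

theorem mass_ge (h3 : ∀ v, #(nb G v) ≤ 3) (S : Set V) (R T : ℕ) (hF : Free G S (2 * R))
    (hR : 12 * T ^ 2 ≤ 2 ^ R) :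
    ∑ g ∈ range T, (#(Cp G S g) : ℝ) / ((g + 1) * 4 ^ (g + 1)) ≤ 7 * mass G S T := by
  have w0 : ∀ a, (0 : ℝ) ≤ #(SCs G S a) * wt a := fun a => by unfold wt; positivity
  have m0 : 0 ≤ mass G S T := sum_nonneg fun a _ => w0 a
  have h1 : ∀ g ∈ range T, (#(Cp G S g) : ℝ) / ((g + 1) * 4 ^ (g + 1)) ≤
      6 * (#(SCs G S (2 * g + 2)) * wt (2 * g + 2)) + 12 * T / 2 ^ R * mass G S T := fun g hg => by
    rw [mem_range] at hg
    refine (div_le_div_of_nonneg_right (Mpair h3 hF g) (by positivity)).trans ?_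
    have e : (4 : ℝ) ^ (g + 1) = 2 ^ (2 * g + 2) := by
      rw [show 2 * g + 2 = 2 * (g + 1) by ring, pow_mul]; norm_num
    rw [add_div, sum_div, e]
    refine add_le_add (le_of_eq ?_) ?_
    · unfold wt
      push_cast
      field_simp
      ring
    · rw [mass, mul_sum]
      refine (sum_le_sum fun a ha => ?_).trans (sum_le_sum_of_subset_of_nonneg
        (range_subset_range.2 (show 2 * g + 2 ≤ 2 * T + 1 by omega)) fun a _ _ =>
          mul_nonneg (by positivity) (w0 a))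
      rcases a.eq_zero_or_pos with rfl | k
      · have : SCs G S 0 = ∅ := eq_empty_of_forall_notMem fun x hx => (mem_SCs.1 hx).1.pos.false
        simp [this]
      · have k1 : (a : ℝ) ≤ 2 * T := by
          rw [mem_range] at ha
          exact_mod_cast (show a ≤ 2 * T by omega)
        calc _ = 6 * a / 2 ^ R * (#(SCs G S a) * wt a) := by
              unfold wt
              push_cast
              field_simp
              ring
          _ ≤ _ := mul_le_mul_of_nonneg_right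
              (div_le_div_of_nonneg_right (by linarith only [k1]) (by positivity)) (w0 a)
  refine (sum_le_sum h1).trans ?_
  rw [sum_add_distrib, ← mul_sum, sum_const, card_range, nsmul_eq_mul]
  have h2 : ∑ g ∈ range T, (#(SCs G S (2 * g + 2)) : ℝ) * wt (2 * g + 2) ≤ mass G S T := by
    rw [← sum_image (f := fun a => (#(SCs G S a) : ℝ) * wt a) (g := fun g => 2 * g + 2)
      fun a _ b _ e => by simp only at e; omega]
    refine sum_le_sum_of_subset_of_nonneg (fun a ha => ?_) fun a _ _ => w0 a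
    obtain ⟨g, hg, rfl⟩ := mem_image.1 ha
    rw [mem_range] at hg ⊢
    omega
  have h4 : (T : ℝ) * (12 * T / 2 ^ R) ≤ 1 := by
    rw [← mul_div_assoc, div_le_one (by positivity)]
    have : (12 * T ^ 2 : ℝ) ≤ 2 ^ R := by exact_mod_cast hR
    linarith only [this]
  have := mul_le_mul_of_nonneg_right h4 m0
  rw [← mul_assoc]
  linarith only [h2, this]

theorem sSub (h3 : ∀ v, #(nb G v) ≤ 3) {a b s t : ℕ} {x y : ℕ → V} (hx : SC G a x) (hy : SC G b y)
    {X : EV V} (h1 : X ∈ Ev G (Ed x)) (h2 : X ∈ Ev G (Ed y)) (e : x s = y t) : Ed y ⊆ Ed x := by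
  obtain ⟨hX, h1⟩ := mem_Ev.1 h1
  have h2 := (mem_Ev.1 h2).2
  have k1 : ∀ s w, X s(x s, w) = 1 → s(x s, w) ∈ Ed x := fun s w h => by
    obtain ⟨s, hs⟩ := hx.pred s
    rw [← hs] at h ⊢
    by_contra hn
    have e1 : s(x (s + 1), x s) ∈ Ed x := Sym2.eq_swap ▸ mem_Ed x s
    have e2 := mem_Ed x (s + 1)
    have n1 : w ≠ x s := fun e => hn (e ▸ e1)
    have n2 : w ≠ x (s + 2) := fun e => hn (e ▸ e2)
    have n3 : ({w, x s, x (s + 2)} : Finset V) = nb G (x (s + 1)) :=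
      eq_of_subset_of_card_le (by
        simp only [insert_subset_iff, singleton_subset_iff, mem_nb]
        exact ⟨Cy.adj hX (by simp only [h, ne_eq, one_ne_zero, not_false_eq_true]), (hx.adj s).symm, hx.adj _⟩)
        ((h3 _).trans (card_eq_three.2 ⟨_, _, _, n1, n2, (hx.nb s).symm, rfl⟩).ge)
    have := Cy.sum_nb hX (x (s + 1))
    rw [← n3, sum_insert (by simp [n1, n2]), sum_pair (hx.nb s).symm, h, h1 _ e1, h1 _ e2] at this
    exact absurd this (by decide)
  have k2 : ∀ i, ∃ s, y (t + i) = x s := fun i => by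
    induction i with
    | zero => exact ⟨s, e.symm⟩
    | succ i ih =>
      obtain ⟨r, hr⟩ := ih
      exact Ed_vert (Sym2.eq_swap ▸ k1 r _ (hr ▸ h2 _ (mem_Ed y (t + i))))
  rintro _ ⟨i, rfl⟩
  obtain ⟨r, hr⟩ := k2 (i + b * t - t)
  have := Nat.le_mul_of_pos_left t hy.pos
  rw [show t + (i + b * t - t) = i + b * t by omega,
    hy.eq_iff.2 (show i + b * t ≡ i [MOD b] by simp [Nat.ModEq])] at hr
  have := h2 _ (mem_Ed y i)
  simp only [hr] at this ⊢
  exact k1 r _ this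

theorem sSame (h3 : ∀ v, #(nb G v) ≤ 3) {a : ℕ} {x : ℕ → V} (hx : SC G a x)
    (I : Finset (Σ _ : ℕ, ℕ → V)) (hI : ∀ p ∈ I, SC G p.1 p.2 ∧ Ed p.2 = Ed x) :
    #I ≤ 3 * a ∧ ∀ p ∈ I, p.1 = a := by
  have k1 : ∀ {a b} {x y : ℕ → V}, SC G a x → Ed y = Ed x →
      (range b).image y ⊆ (range a).image x := fun hx e v hv => by
    obtain ⟨t, -, rfl⟩ := mem_image.1 hv
    obtain ⟨s, hs⟩ := Ed_vert (e ▸ mem_Ed _ t)
    exact mem_image.2 ⟨_, mem_range.2 (Nat.mod_lt s hx.pos), (hx.mod s).trans hs.symm⟩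
  have k2 : ∀ {a} {x : ℕ → V}, SC G a x → #((range a).image x) = a := fun hx => by
    rw [card_image_of_injOn fun s hs t ht => hx.inj s t (by simpa using hs) (by simpa using ht),
      card_range]
  have k3 : ∀ p ∈ I, p.1 = a := fun p hp => by
    rw [← k2 hx, ← k2 (hI p hp).1]
    exact congrArg card ((k1 hx (hI p hp).2).antisymm (k1 (hI p hp).1 (hI p hp).2.symm))
  refine ⟨(card_le_card_of_injOn (t := dts G ((range a).image x)) (fun p => (p.2 0, p.2 1))
    (fun p hp => mem_dts.2 ⟨k1 (b := 1) hx (hI p hp).2 (by simp), (hI p hp).1.adj 0⟩)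
    fun p hp q hq e => ?_).trans ((card_dts h3 _).trans (by rw [k2 hx])), k3⟩
  have k4 : ∀ t, p.2 t = q.2 t ∧ p.2 (t + 1) = q.2 (t + 1) := fun t => by
    induction t with
    | zero => exact Prod.ext_iff.1 e
    | succ t ih =>
      refine ⟨ih.2, ((hI q hq).1.nbr (t := t) ?_).resolve_right (ih.1 ▸ (hI p hp).1.nb t)⟩
      rw [(hI q hq).2, ← (hI p hp).2, ← ih.2]
      exact mem_Ed _ _
  exact Sigma.ext ((k3 p hp).trans (k3 q hq).symm) (heq_of_eq (funext fun t => (k4 t).1))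

theorem sNear (h3 : ∀ v, #(nb G v) ≤ 3) {S : Set V} {R : ℕ} (hF : Free G S (2 * R)) (B : Finset V)
    (a : ℕ) : #((SCs G S a).filter fun y => ∃ t, y t ∈ B) * wt a ≤ #B / 2 ^ R := by
  set A := (SCs G S a).filter fun y => ∃ t, y t ∈ B
  rcases A.eq_empty_or_nonempty with h | ⟨y0, h⟩
  · simp only [h, card_empty, Nat.cast_zero, zero_mul]
    positivity
  have hA : ∀ y ∈ A, (SC G a y ∧ ∀ t, y t ∈ S) ∧ ∃ t, y t ∈ B := fun y hy => by
    simpa only [A, mem_filter, mem_SCs] using hy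
  have h1 : 2 * R < a := lt_of_not_ge fun h' => hF a y0 (hA y0 h).1.1 h' (hA y0 h).1.2
  obtain ⟨n, rfl⟩ : ∃ n, a = n + 1 + R := ⟨a - R - 1, by omega⟩
  have ex : ∀ y : ℕ → V, ∃ s, y ∈ A → s < n + 1 + R ∧ y s ∈ B := fun y => by
    by_cases hy : y ∈ A
    · obtain ⟨h2, t, ht⟩ := hA y hy
      exact ⟨_, fun _ => ⟨Nat.mod_lt t h2.1.pos, (h2.1.mod t).symm ▸ ht⟩⟩
    · exact ⟨0, fun h => absurd h hy⟩
  choose s hs using ex
  have key := cnt2 h3 hF A (range (n + 1 + R) ×ˢ dts G B) (fun y => (s y, y (s y), y (s y + 1)))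
    (fun y t => y (s y + t)) n
    (fun y hy => mem_product.2 ⟨mem_range.2 (hs y hy).1, mem_dts.2 ⟨(hs y hy).2, (hA y hy).1.1.adj _⟩⟩)
    (fun y hy => ⟨((hA y hy).1.1.nbw _).shift _ _ le_rfl, fun t _ => (hA y hy).1.2 _⟩)
    fun y hy z hz e => by
      simp only [Prod.mk.injEq] at e
      refine ⟨e.2.1, e.2.2, by rw [(hA y hy).1.1.per, (hA z hz).1.1.per, e.2.1], fun h => ?_⟩
      funext t
      have h2 := h _ (Nat.mod_lt (t + (n + 1 + R - s y)) (hA y hy).1.1.pos).le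
      have h4 : s y + (t + (n + 1 + R - s y)) % (n + 1 + R) ≡ t [MOD n + 1 + R] := by
        have := (hs y hy).1
        rw [Nat.ModEq, Nat.add_mod_mod, show s y + (t + (n + 1 + R - s y)) = t + (n + 1 + R) by omega,
          Nat.add_mod_right]
      rwa [← e.1, (hA y hy).1.1.eq_iff.2 h4, (hA z hz).1.1.eq_iff.2 h4] at h2
  rw [card_product, card_range] at key
  have h5 : (#A : ℝ) ≤ (n + 1 + R : ℕ) * (3 * #B) * 2 ^ n := by
    exact_mod_cast key.trans (by gcongr; exact card_dts h3 B)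
  rw [wt, mul_one_div, div_le_div_iff₀ (by positivity) (by positivity)]
  calc _ ≤ (n + 1 + R : ℕ) * (3 * #B) * 2 ^ n * (2 * (2 : ℝ) ^ R) := by
        gcongr
        linarith only [pow_pos two_pos R (M₀ := ℝ)]
    _ = _ := by ring

theorem asm (h3 : ∀ v, #(nb G v) ≤ 3) (S : Set V) (R T J lam : ℕ) (hF : Free G S (2 * R))
    (hrat : ∀ a a' x x', SC G a x → SC G a' x' → a ≤ 2 * T → a' ≤ 2 * T → (∀ t, x t ∈ S) →
      (∀ t, x' t ∈ S) → (∀ s t, x s ≠ x' t) → rat G (Ed x) (Ed x') ≤ 2 ^ J ∧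
        ((∀ s t, ∀ p : G.Walk (x s) (x' t), lam < p.length) → rat G (Ed x) (Ed x') ≤ 1))
    (hnear : (2 * T + 1) * (2 * T) * 4 ^ lam * 2 ^ J ≤ 2 ^ R) (hW : 4 ≤ mass G S T)
    (hdim : 2 * T + 3 ≤ dim G) : (circ G : ℝ) ≤ 1 / 2 * 2 ^ dim G := by
  let I : Finset (Σ _ : ℕ, ℕ → V) := (range (2 * T + 1)).sigma (SCs G S)
  have hI : ∀ p ∈ I, p.1 ≤ 2 * T ∧ SC G p.1 p.2 ∧ ∀ t, p.2 t ∈ S := fun p hp => by
    simpa only [I, mem_sigma, mem_range, Nat.lt_succ_iff, mem_SCs] using hp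
  have hw : ∀ a, 0 ≤ wt a := fun a => by unfold wt; positivity
  have hm : ∑ p ∈ I, wt p.1 = mass G S T := by simp only [I, sum_sigma, sum_const, nsmul_eq_mul, mass]
  have row : ∀ p ∈ I, ∑ q ∈ I, wt q.1 * rat G (Ed p.2) (Ed q.2) ≤ mass G S T + 2 := fun p hp => by
    obtain ⟨p1, p2, p3⟩ := hI p hp
    let B := ball G ((range p.1).image p.2) lam
    obtain ⟨s1, s2⟩ := sSame h3 p2 (I.filter fun q => Ed q.2 = Ed p.2) fun q hq =>
      ⟨(hI q (mem_filter.1 hq).1).2.1, (mem_filter.1 hq).2⟩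
    have hp0 : (0 : ℝ) < p.1 := by exact_mod_cast p2.pos
    have pt : ∀ q ∈ I, wt q.1 * rat G (Ed p.2) (Ed q.2) ≤ wt q.1 +
        (if Ed q.2 = Ed p.2 then 1 / (3 * (p.1 : ℝ)) else 0) +
        (if ∃ t, q.2 t ∈ B then wt q.1 * 2 ^ J else 0) := fun q hq => by
      obtain ⟨q1, q2, q3⟩ := hI q hq
      have w0 := hw q.1
      have w1 : 0 ≤ if ∃ t, q.2 t ∈ B then wt q.1 * 2 ^ J else 0 := by positivity
      by_cases e : Ed q.2 = Ed p.2
      · have h1 := mul_le_mul_of_nonneg_left (rat_le p2.ind_mem q2.dim_le) w0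
        have h2 : wt q.1 * 2 ^ q.1 = 1 / (3 * (p.1 : ℝ)) := by
          rw [s2 q (mem_filter.2 ⟨hq, e⟩), wt]
          field_simp
        rw [if_pos e]
        linarith only [w0, w1, h1, h2]
      rw [if_neg e, add_zero]
      by_cases hd : ∀ s t, p.2 s ≠ q.2 t
      · obtain ⟨r1, r2⟩ := hrat _ _ _ _ p2 q2 p1 q1 p3 q3 hd
        split_ifs with h
        · linarith only [mul_le_mul_of_nonneg_left r1 w0, w0]
        · have := mul_le_mul_of_nonneg_left (r2 fun s t r => lt_of_not_ge fun hr => h ⟨t, mem_ball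
            (mem_image.2 ⟨_, mem_range.2 (Nat.mod_lt s p2.pos), p2.mod s⟩) r hr⟩) w0
          linarith only [this]
      · push Not at hd
        obtain ⟨s, t, hd⟩ := hd
        rw [rat_zero fun X h1 h2 =>
          e ((sSub h3 p2 q2 h1 h2 hd).antisymm (sSub h3 q2 p2 h2 h1 hd.symm))]
        linarith only [w0, w1]
    refine (sum_le_sum pt).trans ?_
    rw [sum_add_distrib, sum_add_distrib, hm, ← sum_filter, sum_const, nsmul_eq_mul, add_assoc]
    refine add_le_add_right ((add_le_add ?_ ?_).trans one_add_one_eq_two.le) _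
    · rw [mul_one_div, div_le_one (by positivity)]
      exact_mod_cast s1
    · have hB : (#B : ℝ) ≤ 4 ^ lam * (2 * T) := by
        exact_mod_cast (card_ball h3 _ lam).trans (by gcongr; exact card_image_le.trans (by simpa))
      have hn : ((2 * T + 1) * (2 * T) * 4 ^ lam * 2 ^ J : ℝ) ≤ 2 ^ R := by exact_mod_cast hnear
      calc _ ≤ ∑ a ∈ range (2 * T + 1), (4 ^ lam * (2 * T) / 2 ^ R * 2 ^ J : ℝ) := by
            rw [sum_sigma]
            refine sum_le_sum fun a _ => ?_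
            simp only
            rw [← sum_filter, sum_const, nsmul_eq_mul, ← mul_assoc]
            gcongr
            exact (sNear h3 hF B a).trans (by gcongr)
        _ ≤ 1 := by
            rw [sum_const, card_range, nsmul_eq_mul, div_mul_eq_mul_div, mul_div_assoc',
              div_le_one (by positivity)]
            push_cast
            linarith only [hn]
  have key := second_moment G I (fun p => Ed p.2) (fun p => wt p.1) 8
    (mass G S T * (mass G S T + 2)) (by norm_num) (fun p _ => hw _)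
    (fun p hp => (hI p hp).2.1.ind_mem) (fun p _ => ⟨_, mem_Ed _ 0⟩)
    (fun p hp => by
      have h1 := (hI p hp).2.1.dim_le
      have h2 := (hI p hp).1
      exact_mod_cast Nat.pow_le_pow_right (show 0 < 2 by norm_num)
        (show 3 ≤ dim (G.deleteEdges (Ed p.2)) by omega))
    (by
      rw [← hm, sum_mul, hm]
      refine sum_le_sum fun p hp => ?_
      simp only [mul_assoc, ← mul_sum]
      exact mul_le_mul_of_nonneg_left (row p hp) (hw _))
  rw [hm] at key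
  generalize mass G S T = W at hW key
  have h0 : (0 : ℝ) < 2 ^ dim G := by positivity
  generalize (2 : ℝ) ^ dim G = D at h0 key
  by_contra hn
  have h1 : W * (W + 2) * (D - circ G) ≤ W * (W + 2) * (D / 2) := by gcongr; linarith only [hn]
  linarith only [mul_pos h0 (show 0 < W * (17 / 64 * W - 1) by nlinarith only [hW]), key, h1]

/-- The number of edges leaving `K`. -/
noncomputable def bb (G : SimpleGraph V) (K : Finset V) : ℕ := ∑ u ∈ K, #(nb G u \ K)

theorem bb_le {K U : Finset V} (F : Finset (Sym2 V))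
    (h : ∀ v ∈ K, ∀ w ∈ U, w ∉ K → G.Adj v w → s(v, w) ∈ F) :
    bb G K ≤ ∑ u ∈ K, #(nb G u \ U) + #F := by
  have h1 : ∑ u ∈ K, #((nb G u \ K) ∩ U) ≤ #F := by
    rw [← card_sigma]
    refine card_le_card_of_injOn (fun p => s(p.1, p.2)) (fun p hp => ?_) fun p hp q hq e => ?_
    · simp only [coe_sigma, Set.mem_sigma_iff, mem_coe, mem_inter, mem_sdiff, mem_nb] at hp
      exact h _ hp.1 _ hp.2.2 hp.2.1.2 hp.2.1.1
    · simp only [coe_sigma, Set.mem_sigma_iff, mem_coe, mem_inter, mem_sdiff, mem_nb] at hp hq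
      rcases Sym2.eq_iff.1 e with e | e
      · exact Sigma.ext e.1 (heq_of_eq e.2)
      · exact absurd (e.1 ▸ hp.1) hq.2.1.2
  refine le_trans ?_ (Nat.add_le_add_left h1 _)
  rw [← sum_add_distrib]
  refine sum_le_sum fun u _ => le_trans (card_le_card fun w hw => ?_) (card_union_le _ _)
  by_cases hU : w ∈ U <;> simp [hU, mem_sdiff.1 hw]

theorem forest (K : Finset V) (deg : ∀ v ∈ K, #(nb G v) = 3) (hF : Free G K #K) :
    #K + min 1 #K ≤ bb G K := by
  induction K using Finset.strongInduction with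
  | H K ih =>
    rcases K.eq_empty_or_nonempty with rfl | ⟨v0, hv0⟩
    · simp only [card_empty, zero_le, inf_of_le_right, add_zero]
    by_cases h : ∀ v ∈ K, 1 < #(nb G v ∩ K)
    · have h2 : ∀ u, ∀ v ∈ K, ∃ w, (v ∈ K ∧ w ∈ K ∧ G.Adj v w) ∧ w ≠ u := fun u v hv => by
        obtain ⟨w, hw, hu⟩ := exists_mem_ne (h v hv) u
        exact ⟨w, ⟨hv, (mem_inter.1 hw).2, mem_nb.1 (mem_inter.1 hw).1⟩, hu⟩
      obtain ⟨w, hw, -⟩ := h2 v0 v0 hv0
      exact absurd hF (succ_cycle G (fun u v => u ∈ K ∧ v ∈ K ∧ G.Adj u v) K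
        (fun _ _ h => ⟨h.2.2, h.1⟩) (fun u v h => h2 u v h.2.1) hw)
    push Not at h
    obtain ⟨v, hv, h⟩ := h
    have h1 := ih (K.erase v) (erase_ssubset hv) (fun w hw => deg w (mem_of_mem_erase hw))
      (hF.mono (coe_subset.2 (erase_subset _ _)) (card_le_card (erase_subset _ _)))
    have h2 := bb_le (G := G) (K := K.erase v) (U := K) ((nb G v ∩ K).image (s(v, ·)))
      fun u hu w hw hw' huw => by
        obtain rfl : w = v := by simpa [hw] using hw'
        exact mem_image.2 ⟨u, mem_inter.2 ⟨mem_nb.2 huw.symm, mem_of_mem_erase hu⟩, Sym2.eq_swap⟩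
    have h3 := card_image_le (s := nb G v ∩ K) (f := (s(v, ·)))
    have h4 := card_sdiff_add_card_inter (nb G v) K
    have h5 := add_sum_erase K (fun u => #(nb G u \ K)) hv
    have h6 := card_erase_add_one hv
    have h7 : #(nb G v ∩ K) ≤ #(K.erase v) := card_le_card fun w hw =>
      mem_erase.2 ⟨(mem_nb.1 (mem_inter.1 hw).1).ne', (mem_inter.1 hw).2⟩
    have h8 := deg v hv
    unfold bb at *
    omega

theorem gap_lemma (U : Finset V) (f : ℕ) (hf : 0 < f) (hU : bb G U ^ 2 ≤ #U)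
    (hmin : ∀ K ⊆ U, K.Nonempty → #K < #U → #K < bb G K ^ 2) (K : Finset V) (hK : K ⊆ U)
    (F : Finset (Sym2 V)) (hF : #F ≤ f)
    (h : ∀ v ∈ K, ∀ w ∈ U, w ∉ K → G.Adj v w → s(v, w) ∈ F) :
    #K < 16 * f ^ 2 ∨ #(U \ K) < 16 * f ^ 2 := by
  by_contra hn
  push Not at hn
  have e := card_sdiff_add_card_eq_card hK
  have : 0 < 16 * f ^ 2 := by positivity
  have h1 := hmin K hK (card_pos.1 (by omega)) (by omega)
  have h2 := hmin (U \ K) sdiff_subset (card_pos.1 (by omega)) (by omega)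
  have h3 := bb_le F h
  have h4 := bb_le (G := G) (K := U \ K) (U := U) F fun v hv w hw hw' hvw => by
    rw [Sym2.eq_swap]
    exact h w (by simpa [hw] using hw') v (mem_sdiff.1 hv).1 (mem_sdiff.1 hv).2 hvw.symm
  have h5 : _ = bb G U := sum_sdiff (f := fun u => #(nb G u \ U)) hK
  generalize ∑ u ∈ K, #(nb G u \ U) = x at *
  generalize ∑ u ∈ U \ K, #(nb G u \ U) = y at *
  have a1 : #K < (x + f) ^ 2 := h1.trans_le (Nat.pow_le_pow_left (by omega) 2)
  have a2 : #(U \ K) < (y + f) ^ 2 := h2.trans_le (Nat.pow_le_pow_left (by omega) 2)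
  have b1 : 4 * f < x + f := lt_of_pow_lt_pow_left₀ 2 (by omega) (by linarith only [hn.1, a1])
  have b2 : 4 * f < y + f := lt_of_pow_lt_pow_left₀ 2 (by omega) (by linarith only [hn.2, a2])
  obtain ⟨x, rfl⟩ := Nat.exists_eq_add_of_le (show 3 * f ≤ x by omega)
  obtain ⟨y, rfl⟩ := Nat.exists_eq_add_of_le (show 3 * f ≤ y by omega)
  rw [← h5] at hU
  linarith only [Nat.zero_le (x * y), Nat.zero_le (x * f), Nat.zero_le (y * f), e, this, a1, hU, a2]

/-- Vertices of degree `i`. -/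
noncomputable def Vd (G : SimpleGraph V) (i : ℕ) : Finset V := univ.filter fun v => #(nb G v) = i

theorem mem_Vd {i : ℕ} {v : V} : v ∈ Vd G i ↔ #(nb G v) = i := by simp only [Vd, mem_filter, mem_univ, true_and]

theorem sum_nb (G : SimpleGraph V) : ∑ v, #(nb G v) = 2 * #G.edgeFinset := by
  rw [← G.sum_degrees_eq_twice_card_edges]
  refine sum_congr rfl fun v _ => congrArg card ?_
  ext w
  simp [mem_nb]

theorem dim_bounds (hR : Red G) : #(Vd G 3) ≤ 2 * dim G ∧ 2 * dim G ≤ 3 * #(Vd G 3) + 2 * #(Vd G 2) := by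
  have h1 : ∑ v, #(nb G v) = 3 * #(Vd G 3) + 2 * #(Vd G 2) := by
    simp only [Vd, card_filter, mul_sum, ← sum_add_distrib]
    refine sum_congr rfl fun v _ => ?_
    have := hR.le3 v
    have := hR.ne1 v
    split_ifs <;> omega
  have h2 := dim_le G G.edgeFinset (by simp)
  have h3 := dim_ge G G.edgeFinset (Vd G 3 ∪ Vd G 2) (by simp) fun v w h => by
    have := hR.le3 v
    have := hR.ne1 v
    have := card_pos.2 ⟨w, mem_nb.2 (show G.Adj v w by simpa using h)⟩
    simp only [mem_union, mem_Vd]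
    omega
  have := card_union_le (Vd G 3) (Vd G 2)
  have := sum_nb G
  omega

theorem Vd_two (hR : Red G) {D : Finset V} {l : ℕ} (hl : 3 ≤ l) (hF : Free G (↑D)ᶜ l) :
    #(Vd G 2) ≤ 4 * #D := by
  refine le_trans (card_le_card fun v hv => ?_) (card_ball hR.le3 D 1)
  obtain ⟨a, b, hab, e⟩ := card_eq_two.1 (mem_Vd.1 hv)
  have ha : G.Adj v a := mem_nb.1 (by simp [e])
  have hb : G.Adj v b := mem_nb.1 (by simp [e])
  by_contra hn
  have h1 : ∀ w, G.Adj v w → w ∉ D := fun w h hw => hn (ball_adj (j := 0) hw h.symm)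
  refine hF.ne (n := 3) (y := fun t => if t = 1 then a else if t = 2 then b else v)
    ⟨fun t ht => ?_, fun t ht => ?_⟩ (fun t _ => ?_) (i := 0) (j := 3) (by omega) le_rfl
    (by omega) (by simp)
  · interval_cases t
    · simpa using ha
    · simpa using hR.tri v a b e hab
    · simpa using hb.symm
  · obtain rfl | rfl : t = 0 ∨ t = 1 := by omega
    · simpa using hb.ne'
    · simpa using ha.ne
  · split_ifs
    · exact h1 a ha
    · exact h1 b hb
    · exact fun h => hn (ball_mono (Nat.zero_le 1) h)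

theorem ev_pow (A : ℕ) : ∃ u0, ∀ u, u0 ≤ u → A * u ^ 5 ≤ 2 ^ u := by
  have h := (tendsto_pow_const_div_const_pow_of_one_lt 5 (one_lt_two (α := ℝ))).const_mul (A : ℝ)
  rw [mul_zero] at h
  obtain ⟨u0, hu⟩ := Filter.eventually_atTop.1 (h.eventually_le_const one_pos)
  refine ⟨u0, fun u h => ?_⟩
  have := hu u h
  rw [← mul_div_assoc, div_le_one (by positivity)] at this
  exact_mod_cast this

theorem nums {K J T P N b d β : ℕ} (hT : 1 ≤ T) (hA : (256 + 8 * K + 6 * J) * T ^ 5 ≤ P)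
    (hN : P ^ 40 ≤ N) (hb : b ^ 2 ≤ N) (hd : d ≤ K * T ^ 4 * P ^ 16) (hβ : β ≤ P ^ 4 * (d + b)) :
    3 * T * β + β ≤ N ∧ 12 * T ^ 2 ≤ P ^ 8 ∧ 16 * (4 * T) ^ 2 ≤ P ∧ 2 * (16 * (4 * T) ^ 2) ≤ N ∧
      (2 * T + 1) * (2 * T) * P ^ 4 * J ≤ P ^ 8 ∧ β ≤ 3 * T * β ∧ 10 * T ≤ N := by
  have t1 : T ≤ T ^ 2 := Nat.le_self_pow (by omega) T
  have t2 : T ^ 2 ≤ T ^ 5 := Nat.pow_le_pow_right hT (by omega)
  have a1 : 256 * T ^ 2 ≤ P := by linarith only [Nat.zero_le (K * T ^ 5), Nat.zero_le (J * T ^ 5), hA, t2]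
  have a2 : 8 * K * T ^ 5 ≤ P := by linarith only [Nat.zero_le (J * T ^ 5), hA, t1, t2]
  have a3 : 6 * J * T ^ 2 ≤ P := by
    linarith only [Nat.zero_le (K * T ^ 5), Nat.mul_le_mul_left J t2, hA, t1, t2]
  have p : ∀ i j, i ≤ j → P ^ i ≤ P ^ j := fun i j h => Nat.pow_le_pow_right (by omega) h
  have p1 := p 1 8 (by omega)
  have p2 := p 2 40 (by omega)
  have p3 : 512 * T ^ 2 ≤ N := by nlinarith only [hN, t1, a1, p2]
  rw [pow_one] at p1
  rw [mul_pow]
  refine ⟨?_, by omega, by omega, by omega, ?_, Nat.le_mul_of_pos_left _ (by omega), by omega⟩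
  · have c1 : 8 * T * (P ^ 4 * d) ≤ N :=
      calc _ ≤ 8 * T * (P ^ 4 * (K * T ^ 4 * P ^ 16)) := by gcongr
        _ = 8 * K * T ^ 5 * P ^ 20 := by ring
        _ ≤ P * P ^ 20 := by gcongr
        _ ≤ N := by rw [← pow_succ']; exact (p _ _ (by omega)).trans hN
    have c2 : 8 * T * (P ^ 4 * b) ≤ N := by
      refine (Nat.pow_le_pow_iff_left two_ne_zero).1 ?_
      calc _ = (8 * T) ^ 2 * P ^ 8 * b ^ 2 := by ring
        _ ≤ P ^ 2 * P ^ 8 * N := by gcongr; omega
        _ ≤ N * N := by rw [← pow_add]; exact Nat.mul_le_mul_right _ ((p _ _ (by omega)).trans hN)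
        _ = _ := by ring
    linarith only [Nat.mul_le_mul (show 3 * T + 1 ≤ 4 * T by omega) hβ, c1, c2]
  · calc _ ≤ (3 * T) * (2 * T) * P ^ 4 * J := by gcongr; omega
      _ = 6 * J * T ^ 2 * P ^ 4 := by ring
      _ ≤ P * P ^ 4 := by gcongr
      _ ≤ _ := by rw [← pow_succ']; exact p _ _ (by omega)

theorem four_pow (u : ℕ) : 4 ^ (2 * u) = (2 ^ u) ^ 4 := by
  rw [pow_mul, ← pow_mul 2, mul_comm u, pow_mul]
  norm_num

theorem caseB' (k K : ℕ) (hk : 3584 ≤ k) : ∃ d0, ∀ (V : Type) [Fintype V] (G : SimpleGraph V),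
    Red G → (∀ l, 3 ≤ l → ∃ D : Finset V, #D ≤ l * (K * l ^ 3 * 2 ^ l) ∧ Free G (↑D)ᶜ l) →
    d0 ≤ dim G → (circ G : ℝ) ≤ 1 / 2 * 2 ^ dim G := by
  generalize hm1 : 41 * 2 ^ k = m1
  obtain ⟨u0, hu0⟩ := ev_pow ((256 + 8 * K + 6 * 2 ^ (m1 ^ 2)) * (2 * m1) ^ 5)
  generalize hN0 : 2 ^ (40 * (u0 + 1)) = N0
  have n3 : 3 ≤ N0 := hN0 ▸ le_trans (by norm_num)
    (Nat.pow_le_pow_right two_pos (show 2 ≤ 40 * (u0 + 1) by omega))
  generalize hy0 : N0 * (K * N0 ^ 3 * 2 ^ N0) = y0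
  refine ⟨2 * (15 * y0) ^ 2 + 6 * y0 + 2, fun V _ G hR hD hd => ?_⟩
  obtain ⟨D0, c0, f0⟩ := hD N0 n3
  rw [hy0] at c0
  have h3 := hR.le3
  obtain ⟨e1, e2⟩ := dim_bounds hR
  have e3 := Vd_two hR n3 f0
  have e4 := le_card_sdiff D0 (Vd G 3)
  have e5 : bb G (Vd G 3 \ D0) ≤ 15 * y0 := by
    have h1 := bb_le (G := G) (K := Vd G 3 \ D0) (U := univ)
      ((dts G (D0 ∪ Vd G 2)).image fun d => s(d.1, d.2)) fun v _ w _ hw h => by
        refine mem_image.2 ⟨(w, v), mem_dts.2 ⟨?_, h.symm⟩, Sym2.eq_swap⟩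
        have := hR.le3 w
        have := hR.ne1 w
        have := card_pos.2 ⟨v, mem_nb.2 h.symm⟩
        simp only [mem_sdiff, mem_union, mem_Vd] at hw ⊢
        by_cases hw' : w ∈ D0
        · exact Or.inl hw'
        · simp only [hw', not_false_eq_true, and_true] at hw
          exact Or.inr (by omega)
    have h2 := card_image_le (s := dts G (D0 ∪ Vd G 2)) (f := fun d => s(d.1, d.2))
    have h4 := card_dts h3 (D0 ∪ Vd G 2)
    have h5 := card_union_le D0 (Vd G 2)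
    rw [sum_eq_zero fun _ _ => by simp only [card_eq_zero, sdiff_eq_empty_iff_subset, subset_univ]] at h1
    omega
  have e6 := Nat.pow_le_pow_left e5 2
  obtain ⟨U, hU, hmin⟩ := exists_min_image ((Vd G 3 \ D0).powerset.filter
    fun U => U.Nonempty ∧ bb G U ^ 2 ≤ #U) card
    ⟨_, mem_filter.2 ⟨mem_powerset_self _, card_pos.1 (by omega), by omega⟩⟩
  simp only [mem_filter, mem_powerset] at hU hmin
  obtain ⟨hU, hne, hb⟩ := hU
  have deg : ∀ v ∈ U, #(nb G v) = 3 := fun v hv => mem_Vd.1 (mem_sdiff.1 (hU hv)).1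
  have hN : N0 < #U := by
    by_contra hn
    have := forest U deg (f0.mono (fun v hv => (mem_sdiff.1 (hU hv)).2) (by omega))
    have := card_pos.2 hne
    nlinarith only [hb, Nat.pow_le_pow_left (show #U + 1 ≤ bb G U by omega) 2]
  obtain ⟨u, l1, l2⟩ : ∃ u, 2 ^ (40 * u) ≤ #U ∧ #U < 2 ^ (40 * (u + 1)) := by
    simp only [pow_mul]
    exact ⟨_, Nat.pow_log_le_self _ (by omega), Nat.lt_pow_succ_log_self (by norm_num) _⟩
  have hu : u0 + 1 ≤ u := by
    have := (Nat.pow_lt_pow_iff_right one_lt_two).1 ((hN0 ▸ hN).trans l2)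
    omega
  generalize hT : 2 ^ k * (40 * u + 42) = T
  have k1 : 1 ≤ 2 ^ k := Nat.one_le_two_pow
  have T1 : 40 * u + 42 ≤ T := hT ▸ Nat.le_mul_of_pos_left _ k1
  have T2 : T ≤ 2 * m1 * u := by rw [← hT, ← hm1]; linarith only [Nat.mul_le_mul_left (2 ^ k) (show 1 ≤ u by omega)]
  obtain ⟨D, c1, f1⟩ := hD (16 * u) (by omega)
  let X := D ∪ U.biUnion fun v => nb G v \ U
  have hX : ∀ j, ∀ v ∈ U, ∀ w, G.Adj v w → w ∉ ball G X j → w ∈ U := fun j v hv w h hw => by
    by_contra hn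
    exact hw (ball_mono (Nat.zero_le j)
      (mem_union_right _ (mem_biUnion.2 ⟨v, hv, mem_sdiff.2 ⟨mem_nb.2 h, hn⟩⟩)))
  obtain ⟨n1, n2, n4, n5, n6, n7, n8⟩ := nums (K := K) (J := 2 ^ (m1 ^ 2)) (T := T) (P := 2 ^ u) (N := #U)
    (b := bb G U) (d := #D) (β := #(ball G X (2 * u))) (by omega)
    (le_trans (by rw [mul_assoc, ← mul_pow]; gcongr) (hu0 u (by omega)))
    (by rwa [← pow_mul, mul_comm]) hb (c1.trans (by
      rw [← pow_mul, mul_comm u, ← mul_assoc, ← mul_assoc, mul_comm _ K, mul_assoc K, ← pow_succ']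
      gcongr
      omega)) ((card_ball h3 X _).trans (by
      rw [four_pow]
      exact Nat.mul_le_mul_left _ ((card_union_le _ _).trans
        (Nat.add_le_add_left card_biUnion_le _))))
  have e7 := le_card_sdiff (ball G X (2 * u)) U
  have e8 : #U ≤ #(Vd G 3) := card_le_card (hU.trans sdiff_subset)
  have fr : ∀ j, Free G ↑(U \ ball G X j) (16 * u) := fun j => f1.mono (fun v hv h =>
    (mem_sdiff.1 hv).2 (ball_mono (Nat.zero_le j) (mem_union_left _ h))) le_rfl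
  have fr' : Free G ↑(U \ ball G X (2 * u)) (2 * (8 * u)) := (fr _).mono subset_rfl (by omega)
  have m1' := pairs_many h3 (U \ ball G X (2 * u)) (ball G X (2 * u)) (40 * u + 42) k T hT.symm
    (by omega) (fun v hv => deg v (mem_sdiff.1 hv).1) (fun v hv w h => by
      by_cases hw : w ∈ ball G X (2 * u)
      · exact Or.inr hw
      · exact Or.inl (mem_sdiff.2 ⟨hX _ v (mem_sdiff.1 hv).1 w h hw, hw⟩))
    (by omega) (card_pos.1 (by omega)) (by
      have := card_le_card (sdiff_subset (s := U) (t := ball G X (2 * u)))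
      rw [show 40 * u + 42 = 40 * (u + 1) + 2 by ring, pow_add]
      omega)
  have m2 := mass_ge h3 _ (8 * u) T fr' (by rwa [mul_comm 8, pow_mul])
  have hk' : (3584 : ℝ) ≤ k := by exact_mod_cast hk
  refine asm h3 _ (8 * u) T (m1 ^ 2) (2 * u) fr' (fun a a' x x' hx hx' ha ha' h1 h2 h4 => ?_) ?_
    (by linarith only [m1', m2, hk']) (by omega)
  · refine pair_rat G U (fun j => ↑(U \ ball G X j)) u T m1 (16 * (4 * T) ^ 2) (by omega) deg
      (coe_subset.2 sdiff_subset) (fun j v hv => ?_) (fr 0)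
      (gap_lemma U (4 * T) (by omega) hb fun K hK hn hc => ?_) n4 n5
      (by linarith only [T2]) hx hx' ha ha' h1 h2 h4
    · obtain ⟨h5, h6⟩ := mem_sdiff.1 hv
      refine ⟨mem_sdiff.2 ⟨h5, fun h => h6 (ball_mono (by omega) h)⟩, fun w h => ?_⟩
      have : w ∉ ball G X j := fun hw => h6 (ball_adj hw h.symm)
      exact mem_sdiff.2 ⟨hX j v h5 w h this, this⟩
    · by_contra h
      have := hmin K ⟨hK.trans hU, hn, by omega⟩
      omega
  · rwa [mul_comm 8, pow_mul 2 u, four_pow]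

theorem caseB (K : ℕ) : ∃ d0, ∀ (V : Type) [Fintype V] (G : SimpleGraph V), Red G →
    (∀ l, 3 ≤ l → ∃ D : Finset V, #D ≤ l * (K * l ^ 3 * 2 ^ l) ∧ Free G (↑D)ᶜ l) → d0 ≤ dim G →
    (circ G : ℝ) ≤ 1 / 2 * 2 ^ dim G :=
  caseB' 3584 K le_rfl
end

theorem final : ∀ ε : ℝ, 0 < ε → ∃ m0 : ℕ, ∀ (m p : ℕ) (d : Fin p → ℕ) (k : ℕ), m0 ≤ m →
    ∑ i, d i + 2 = 2 * p + 2 * m →
    (∃ G : SimpleGraph (Fin p), KCyclic G k ∧ ∀ i, dg G i = d i) →
    (k : ℝ) ≤ (1 / 2 + ε) * 2 ^ m := by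
  intro ε hε
  obtain ⟨K, hK⟩ := exists_nat_ge (2 / ε + 1)
  have h0 : 0 < 2 / ε := by positivity
  have hK1 : 1 ≤ K := by exact_mod_cast (show (1 : ℝ) ≤ K by linarith)
  have hc : 1 - (1 - 1 / (K : ℝ)) ^ 2 / (2 + 2 / K) ≤ 1 / 2 + ε := by
    have h1 : (0 : ℝ) < K := by linarith only [hK, h0]
    have h2 : 2 * (1 / (K : ℝ)) ≤ ε := by
      rw [mul_one_div, div_le_comm₀ h1 hε]
      linarith only [hK]
    have h3 : (0 : ℝ) < 1 / K := by positivity
    rw [show (2 : ℝ) / K = 2 * (1 / K) by ring]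
    generalize 1 / (K : ℝ) = t at h2 h3
    rw [sub_le_comm, le_div_iff₀ (by linarith only [h3])]
    linarith only [mul_nonneg (sub_nonneg.2 h2) h3.le, sq_nonneg t, h2, h3]
  obtain ⟨d0, hB⟩ := caseB K
  refine ⟨d0 + 1, fun m p d k hm hs ⟨G, hG, hd⟩ => ?_⟩
  have e1 : ∑ i, d i = 2 * #G.edgeFinset := by
    rw [← G.sum_degrees_eq_twice_card_edges]
    refine sum_congr rfl fun i _ => ?_
    rw [← hd, dg, ← G.card_neighborSet_eq_degree, Set.ncard_eq_toFinset_card', Set.toFinset_card]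
  have e2 := dim_conn G hG.connected G.edgeFinset (by simp)
  have e3 := dim_ge G G.edgeFinset univ (by simp) fun _ _ _ => mem_univ _
  simp only [card_univ, Fintype.card_fin] at e2 e3
  have e4 := reduce (1 / 2 + ε) d0 (fun V _ G hR hd => by
    by_cases h : ∀ l, 3 ≤ l → ∃ D : Finset V, #D ≤ l * (K * l ^ 3 * 2 ^ l) ∧ Free G (↑D)ᶜ l
    · exact (hB V G hR h hd).trans (by gcongr; linarith only [hε])
    · obtain ⟨l, h⟩ := not_forall.1 h
      obtain ⟨hl, h⟩ := Classical.not_imp.1 h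
      obtain ⟨a, x, hx, hx2⟩ := (hit G l _).resolve_right h
      exact (caseA G K l _ hK1 rfl hl a x hx hx2).trans (by gcongr)) _ G (by omega)
  have e5 : (k : ℝ) ≤ circ G := by exact_mod_cast hG.card_eq ▸ link G
  refine e5.trans (e4.trans ?_)
  gcongr
  · norm_num
  · omega

/-- Vertices of the chain of triangles. -/
def nV (n a : ℕ) : Fin (2 * n + 1) := ⟨min a (2 * n), by omega⟩

theorem nV_eq {n a b : ℕ} : nV n a = nV n b ↔ min a (2 * n) = min b (2 * n) := Fin.ext_iff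

/-- Edges of the chain of triangles, and the closing edge. -/
def nE (n t : ℕ) : Sym2 (Fin (2 * n + 1)) :=
  if t < 2 * n then s(nV n (t + 1), nV n t)
  else if t < 3 * n then s(nV n (2 * (t - 2 * n) + 2), nV n (2 * (t - 2 * n)))
  else s(nV n 0, nV n (2 * n))

def nG (n c : ℕ) : SimpleGraph (Fin (2 * n + 1)) :=
  SimpleGraph.fromEdgeSet ((range (3 * n + c)).image (nE n) : Finset _)

theorem nAdj {n c t a b : ℕ} (ht : t < 3 * n + c) (h : nE n t = s(nV n a, nV n b))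
    (hab : min a (2 * n) ≠ min b (2 * n)) : (nG n c).Adj (nV n a) (nV n b) :=
  (SimpleGraph.fromEdgeSet_adj _).2 ⟨mem_coe.2 (mem_image.2 ⟨t, mem_range.2 ht, h⟩),
    fun e => hab (congrArg Fin.val e)⟩

theorem nAdj1 {n c a : ℕ} (h : a < 2 * n) : (nG n c).Adj (nV n (a + 1)) (nV n a) :=
  nAdj (t := a) (by omega) (if_pos h) (by omega)

theorem nPath (n c : ℕ) (S : ℕ → Prop) (i : ℕ) (hi : i ≤ n) :
    ∃ p : (nG n c).Walk (nV n (2 * i)) (nV n 0), p.IsPath ∧ (∀ v ∈ p.support, v.val ≤ 2 * i) ∧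
      (∀ j < i, s(nV n (2 * j + 1), nV n (2 * j)) ∈ p.edges ↔ S j) ∧
      (2 ≤ n → s(nV n 0, nV n (2 * n)) ∉ p.edges) := by
  induction i with
  | zero => exact ⟨.nil, by simp, by simp [nV], by simp, by simp⟩
  | succ i ih =>
    obtain ⟨p, h1, h2, h3, h4⟩ := ih (by omega)
    have h5 : ∀ a, 2 * i < a → nV n a ∉ p.support := fun a ha h => by
      have := h2 _ h
      simp only [nV] at this
      omega
    have h6 : s(nV n (2 * i + 1), nV n (2 * i)) ∉ p.edges := fun h =>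
      h5 _ (by omega) (p.fst_mem_support_of_mem_edges h)
    by_cases hS : S i
    · refine ⟨.cons (nAdj1 (a := 2 * i + 1) (by omega)) (.cons (nAdj1 (by omega)) p), ?_,
        fun v hv => ?_, fun j hj => ?_, fun hn => ?_⟩
      · simp only [SimpleGraph.Walk.cons_isPath_iff, SimpleGraph.Walk.support_cons, List.mem_cons,
          not_or]
        exact ⟨⟨h1, h5 _ (by omega)⟩, by simp only [nV, Nat.mul_min_mul_left, Fin.mk.injEq]; omega, h5 _ (by omega)⟩
      · simp only [SimpleGraph.Walk.support_cons, List.mem_cons] at hv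
        rcases hv with rfl | rfl | hv
        · simp only [nV, Nat.mul_min_mul_left, Order.lt_two_iff, zero_le, mul_le_mul_iff_right₀, inf_le_left]
        · simp only [nV, inf_le_iff, Order.add_one_le_iff, Order.lt_two_iff, zero_le, mul_lt_mul_iff_right₀, lt_add_iff_pos_right, Order.lt_one_iff, mul_le_mul_iff_right₀, true_or]
        · exact (h2 v hv).trans (by omega)
      · rcases Nat.lt_succ_iff_lt_or_eq.1 hj with hj | rfl
        · simp only [SimpleGraph.Walk.edges_cons, List.mem_cons, h3 j hj, Sym2.eq_iff, nV_eq]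
          exact ⟨fun h => h.elim (by omega) fun h => h.elim (by omega) id, fun h => .inr (.inr h)⟩
        · simp [hS]
      · simp only [SimpleGraph.Walk.edges_cons, List.mem_cons, h4 hn, Sym2.eq_iff, nV_eq, or_false]
        omega
    · refine ⟨.cons (nAdj (t := 2 * n + i) (b := 2 * i) (by omega) (by
        rw [nE, if_neg (by omega), if_pos (by omega), Nat.add_sub_cancel_left]; rfl)
        (by omega)) p, ?_, fun v hv => ?_, fun j hj => ?_, fun hn => ?_⟩
      · exact (SimpleGraph.Walk.cons_isPath_iff _ _).2 ⟨h1, h5 _ (by omega)⟩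
      · simp only [SimpleGraph.Walk.support_cons, List.mem_cons] at hv
        rcases hv with rfl | hv
        · simp only [nV, Nat.mul_min_mul_left, Order.lt_two_iff, zero_le, mul_le_mul_iff_right₀, inf_le_left]
        · exact (h2 v hv).trans (by omega)
      · rcases Nat.lt_succ_iff_lt_or_eq.1 hj with hj | rfl
        · simp only [SimpleGraph.Walk.edges_cons, List.mem_cons, h3 j hj, Sym2.eq_iff, nV_eq]
          exact ⟨fun h => h.elim (by omega) id, fun h => .inr h⟩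
        · simp only [SimpleGraph.Walk.edges_cons, List.mem_cons, h6, hS, Sym2.eq_iff, nV_eq, or_false, iff_false]
          omega
      · simp only [SimpleGraph.Walk.edges_cons, List.mem_cons, h4 hn, Sym2.eq_iff, nV_eq, or_false]
        omega

theorem nBasic (n c : ℕ) (hc : c ≤ 1) (hn : c = 1 → 2 ≤ n) :
    (nG n c).Connected ∧ ∑ i, dg (nG n c) i = 2 * (3 * n + c) := by
  constructor
  · refine (SimpleGraph.connected_iff_exists_forall_reachable _).2 ⟨nV n 0, fun v => ?_⟩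
    have : ∀ a ≤ 2 * n, (nG n c).Reachable (nV n 0) (nV n a) := fun a ha => by
      induction a with
      | zero => rfl
      | succ a ih => exact (ih (by omega)).trans (nAdj1 ha).symm.reachable
    convert this v (by omega)
    simp only [nV]
    exact Fin.ext (by simp only; omega)
  · have e : (nG n c).edgeFinset = (range (3 * n + c)).image (nE n) := by
      ext e
      simp only [SimpleGraph.mem_edgeFinset, nG, SimpleGraph.edgeSet_fromEdgeSet, Set.mem_sdiff,
        mem_coe, and_iff_left_iff_imp, mem_image, mem_range]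
      rintro ⟨t, ht, rfl⟩
      unfold nE
      split_ifs <;> simp only [nV, Sym2.mem_diagSet, Sym2.mk_isDiag_iff, Fin.mk.injEq, Nat.mul_min_mul_left, zero_le, inf_of_le_left, Fin.zero_eta, min_self, Fin.zero_eq_mk, mul_eq_zero, OfNat.ofNat_ne_zero, false_or] <;> omega
    rw [← card_range (3 * n + c), ← card_image_of_injOn (f := nE n), ← e,
      ← SimpleGraph.sum_degrees_eq_twice_card_edges]
    · refine sum_congr rfl fun i _ => ?_
      rw [dg, ← SimpleGraph.card_neighborSet_eq_degree, Set.ncard_eq_toFinset_card',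
        Set.toFinset_card]
    · intro s hs t ht h
      simp only [coe_range, Set.mem_Iio] at hs ht
      unfold nE at h
      split_ifs at h <;> simp only [Sym2.eq_iff, nV_eq] at h <;> omega

theorem lower (m : ℕ) : ∃ (p : ℕ) (G : SimpleGraph (Fin p)), G.Connected ∧
    ∑ i, dg G i + 2 = 2 * p + 2 * m ∧ (3 ≤ m → 2 ^ m ≤ 2 * (cycleSets G).ncard) := by
  by_cases hm : 3 ≤ m
  swap
  · obtain ⟨h1, h2⟩ := nBasic m 0 (by omega) (by omega)
    exact ⟨_, _, h1, by omega, fun h => absurd h hm⟩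
  obtain ⟨n, rfl⟩ : ∃ n, m = n + 1 := ⟨m - 1, by omega⟩
  obtain ⟨h1, h2⟩ := nBasic n 1 le_rfl (by omega)
  refine ⟨_, _, h1, by omega, fun _ => ?_⟩
  choose p h3 _ h4 h5 using fun S : Fin n → Bool =>
    nPath n 1 (fun j => ∀ h : j < n, S ⟨j, h⟩ = true) n le_rfl
  have ha : (nG n 1).Adj (nV n 0) (nV n (2 * n)) :=
    nAdj (t := 3 * n) (by omega) (by rw [nE, if_neg (by omega), if_neg (by omega)]) (by omega)
  have := Set.ncard_le_ncard_of_injOn (s := Set.univ) (t := cycleSets (nG n 1))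
    (fun S => {e | e ∈ ((p S).cons ha).edges}) (fun S _ => ⟨_, _,
      (SimpleGraph.Walk.cons_isCycle_iff _ ha).2 ⟨h3 S, h5 S (by omega)⟩, rfl⟩)
    (fun S _ S' _ e => funext fun j => by
      have := Set.ext_iff.1 e s(nV n (2 * j + 1), nV n (2 * j))
      have hj := j.2
      simp only [Set.mem_ofPred_eq, SimpleGraph.Walk.edges_cons, List.mem_cons, h4 _ _ hj,
        Sym2.eq_iff, nV_eq, hj, forall_true_left] at this
      rw [or_iff_right (by omega), or_iff_right (by omega)] at this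
      exact Bool.eq_iff_iff.2 this) (Set.toFinite _)
  rw [Set.ncard_univ, Nat.card_eq_fintype_card, Fintype.card_fun, Fintype.card_bool,
    Fintype.card_fin] at this
  rw [pow_succ]
  omega

theorem triv {m p k : ℕ} {G : SimpleGraph (Fin p)} (hs : ∑ i, dg G i + 2 = 2 * p + 2 * m)
    (hG : KCyclic G k) : k ≤ 2 ^ m := by
  have e1 : ∑ i, dg G i = 2 * #G.edgeFinset := by
    rw [← G.sum_degrees_eq_twice_card_edges]
    refine sum_congr rfl fun i _ => ?_
    rw [dg, ← G.card_neighborSet_eq_degree, Set.ncard_eq_toFinset_card', Set.toFinset_card]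
  have e2 := dim_conn G hG.connected G.edgeFinset (by simp)
  rw [Fintype.card_fin] at e2
  have e3 : circ G ≤ 2 ^ dim G := by
    rw [dim, ← card_el]
    exact card_le_card fun X hX => mem_el.2 (mem_filter.1 hX).2.1
  exact (hG.card_eq ▸ link G).trans (e3.trans (Nat.pow_le_pow_right two_pos (by omega)))

theorem es : ∃ ψ : ℕ → ℕ,
    (∀ m, IsGreatest {k : ℕ | ∃ (p : ℕ) (d : Fin p → ℕ), ∑ i, d i + 2 = 2 * p + 2 * m ∧
      ∃ G : SimpleGraph (Fin p), KCyclic G k ∧ ∀ i, dg G i = d i} (ψ m)) ∧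
    Filter.Tendsto (fun m => (ψ m : ℝ) / 2 ^ m) Filter.atTop (nhds (1 / 2)) := by
  have ex : ∀ m, ∃ k0, IsGreatest {k : ℕ | ∃ (p : ℕ) (d : Fin p → ℕ),
      ∑ i, d i + 2 = 2 * p + 2 * m ∧ ∃ G : SimpleGraph (Fin p), KCyclic G k ∧ ∀ i, dg G i = d i}
      k0 := fun m => by
    obtain ⟨p, G, h1, h2, -⟩ := lower m
    have hb : BddAbove {k : ℕ | ∃ (p : ℕ) (d : Fin p → ℕ), ∑ i, d i + 2 = 2 * p + 2 * m ∧
        ∃ G : SimpleGraph (Fin p), KCyclic G k ∧ ∀ i, dg G i = d i} :=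
      ⟨2 ^ m, fun k ⟨p, d, h, G, hG, hd⟩ => triv (by simpa only [hd] using h) hG⟩
    exact ⟨_, Nat.sSup_mem ⟨_, p, _, h2, G, ⟨h1, rfl⟩, fun _ => rfl⟩ hb, fun k hk => le_csSup hb hk⟩
  choose ψ hψ using ex
  refine ⟨ψ, hψ, tendsto_order.2 ⟨fun a ha => ?_, fun a ha => ?_⟩⟩
  · filter_upwards [Filter.eventually_ge_atTop 3] with m hm
    obtain ⟨p, G, h1, h2, h3⟩ := lower m
    have h4 : (2 : ℝ) ^ m ≤ 2 * ψ m := by
      exact_mod_cast (h3 hm).trans (Nat.mul_le_mul_left 2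
        ((hψ m).2 ⟨p, _, h2, G, ⟨h1, rfl⟩, fun _ => rfl⟩))
    refine ha.trans_le ?_
    rw [le_div_iff₀ (by positivity)]
    linarith only [h4]
  · obtain ⟨m0, h⟩ := final ((a - 1 / 2) / 2) (by linarith only [ha])
    filter_upwards [Filter.eventually_ge_atTop m0] with m hm
    obtain ⟨p, d, h1, h2⟩ := (hψ m).1
    exact ((div_le_iff₀ (by positivity)).2 (h m p d _ hm h1 h2)).trans_lt (by linarith only [ha])

end Pool.Agent.MP_e633d5_co.H49
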